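import Pool.Agent.Mg.F9cfd17.Ga63bb6

/-! Cauchy formula for the partition numbers and the size of `PP - 1` near zero. -/

namespace Pool.Agent.MP_9cfd17_nt

open Complex Metric Filter Topology

theorem summ_Coeff (h : GenStmt) {r : ℝ} (h0 : 0 ≤ r) (h1 : r < 1) :
    Summable fun n : ℕ => (pp n : ℝ) * r ^ n := by
  have := (h.1 (r : ℂ) (by rwa [Complex.norm_real, Real.norm_of_nonneg h0])).summable
  have e : (fun n : ℕ => (pp n : ℂ) * (r : ℂ) ^ n) =
      fun n : ℕ => (((pp n : ℝ) * r ^ n : ℝ) : ℂ) := by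
    funext n
    push_cast
    rfl
  rw [e] at this
  exact summable_ofReal.1 this

theorem orth_Coeff (m : ℤ) :
    ∫ θ in (-Real.pi)..Real.pi, exp ((m * I) * (θ : ℂ)) =
      if m = 0 then (2 * Real.pi : ℂ) else 0 := by
  split_ifs with hm
  · subst hm
    simp
    ring
  · rw [integral_exp_mul_complex (mul_ne_zero (Int.cast_ne_zero.2 hm) I_ne_zero)]
    have e : exp (m * I * (Real.pi : ℂ)) = exp (m * I * ((-Real.pi : ℝ) : ℂ)) := by
      rw [show (m * I * (Real.pi : ℂ)) = m * I * ((-Real.pi : ℝ) : ℂ) + m * (2 * Real.pi * I) by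
        push_cast; ring, exp_add, exp_int_mul_two_pi_mul_I, mul_one]
    rw [e, sub_self, zero_div]

theorem coeff (h : GenStmt) : CoeffStmt := by
  intro t n ht
  have hr : Real.exp (-t) < 1 := by
    rw [← Real.exp_zero]
    exact Real.exp_lt_exp.2 (by linarith)
  have hs := summ_Coeff h (Real.exp_pos (-t)).le hr
  have nz : ∀ θ : ℝ, ‖exp (-((t : ℂ) + θ * I))‖ = Real.exp (-t) := fun θ => by
    rw [norm_exp]
    simp
  have key := intervalIntegral.hasSum_integral_of_dominated_convergence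
    (μ := MeasureTheory.volume) (a := -Real.pi) (b := Real.pi)
    (F := fun (k : ℕ) (θ : ℝ) =>
      (pp k : ℂ) * exp (-((t : ℂ) + θ * I)) ^ k * exp (n * ((t : ℂ) + θ * I)))
    (f := fun θ : ℝ => PP (exp (-((t : ℂ) + θ * I))) * exp (n * ((t : ℂ) + θ * I)))
    (fun k _ => (pp k : ℝ) * Real.exp (-t) ^ k * Real.exp (n * t))
    (fun k => Continuous.aestronglyMeasurable (by fun_prop))
    (fun k => Eventually.of_forall fun θ _ => by
      rw [norm_mul, norm_mul, norm_pow, nz, norm_exp]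
      simp)
    (Eventually.of_forall fun θ _ => hs.mul_right _)
    intervalIntegrable_const
    (Eventually.of_forall fun θ _ => (h.1 _ (by rw [nz]; exact hr)).mul_right _)
  have e : ∀ k : ℕ, (∫ θ in (-Real.pi)..Real.pi,
      (pp k : ℂ) * exp (-((t : ℂ) + θ * I)) ^ k * exp (n * ((t : ℂ) + θ * I))) =
      if k = n then (pp n : ℂ) * (2 * Real.pi) else 0 := by
    intro k
    have e1 : ∀ θ : ℝ, (pp k : ℂ) * exp (-((t : ℂ) + θ * I)) ^ k * exp (n * ((t : ℂ) + θ * I)) =
        (pp k : ℂ) * exp ((n - k) * t) * exp (((((n : ℤ) - k : ℤ) : ℂ) * I) * (θ : ℂ)) := by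
      intro θ
      rw [← exp_nat_mul, mul_assoc, mul_assoc, ← exp_add, ← exp_add]
      congr 2
      push_cast
      ring
    simp_rw [e1]
    rw [intervalIntegral.integral_const_mul, orth_Coeff]
    by_cases hk : k = n
    · subst hk
      simp
    · rw [if_neg (by omega), if_neg hk, mul_zero]
  simp_rw [e] at key
  have e2 := key.unique (hasSum_ite_eq n ((pp n : ℂ) * (2 * Real.pi)))
  rw [e2]
  have : (Real.pi : ℂ) ≠ 0 := ofReal_ne_zero.2 Real.pi_ne_zero
  field_simp

theorem small (h : GenStmt) : SmallStmt := by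
  have hs := summ_Coeff h (r := 1 / 2) (by norm_num) (by norm_num)
  have hs1 := (summable_nat_add_iff 1).2 hs
  have p0 : pp 0 = 1 := by
    simp [pp]
  refine ⟨2 * (∑' n : ℕ, (pp (n + 1) : ℝ) * (1 / 2) ^ (n + 1)) + 1, ?_, fun z hz => ?_⟩
  · have : 0 ≤ ∑' n : ℕ, (pp (n + 1) : ℝ) * (1 / 2) ^ (n + 1) :=
      tsum_nonneg fun n => by positivity
    linarith
  · have a := (hasSum_nat_add_iff' 1).2 (h.1 z (by linarith))
    simp only [Finset.range_one, Finset.sum_singleton, p0, Nat.cast_one, pow_zero, mul_one] at a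
    have b := (hs1.hasSum.mul_left 2).mul_right ‖z‖
    refine (a.norm_le_of_bounded b fun n => ?_).trans ?_
    · rw [norm_mul, norm_pow, Complex.norm_natCast, pow_succ, pow_succ]
      have : ‖z‖ ^ n ≤ (1 / 2) ^ n := pow_le_pow_left₀ (norm_nonneg z) hz n
      have h2 : (0 : ℝ) ≤ pp (n + 1) := Nat.cast_nonneg _
      calc (pp (n + 1) : ℝ) * (‖z‖ ^ n * ‖z‖) ≤ pp (n + 1) * ((1 / 2) ^ n * ‖z‖) := by gcongr
        _ = _ := by ring
    · nlinarith [norm_nonneg z]

end Pool.Agent.MP_9cfd17_nt
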