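import Pool.Agent.Mg.F9cfd17.Ga63bb6
import Pool.Agent.Mg.F9cfd17.G1e8410

section

/-! The integral along the chord equals the integral along the arc. -/

namespace Pool.Agent.MP_9cfd17_nt

open Complex Metric Filter Topology

noncomputable def ee_Chord (s : ℝ) : ℂ := (√(1 - s ^ 2) : ℝ) + s * I

noncomputable def FF_Chord (w0 : ℝ) (w : ℂ) : ℂ :=
  SS w * exp ((Real.pi : ℂ) ^ 2 / (6 * w) + ((Real.pi ^ 2 / 6 / w0 ^ 2 : ℝ) : ℂ) * w)

noncomputable def GG_Chord (K l s : ℝ) : ℂ :=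
  ((K * Real.exp (-4 * l * s ^ 2) : ℝ) : ℂ) * (ee_Chord s ^ 3 / (√(1 - s ^ 2) : ℝ))

theorem pos_Chord {s : ℝ} (hs : |s| ≤ 1 / 10) : 0 < 1 - s ^ 2 := by
  have := abs_le.1 hs
  nlinarith

theorem deriv_Chord {s : ℝ} (hs : |s| ≤ 1 / 10) :
    HasDerivAt ee_Chord (I * ee_Chord s / (√(1 - s ^ 2) : ℝ)) s := by
  have h0 := pos_Chord hs
  have h1 : HasDerivAt (fun s : ℝ => 1 - s ^ 2) (-(2 * s)) s := by
    simpa using (hasDerivAt_pow 2 s).const_sub 1
  have h2 := (h1.sqrt h0.ne').ofReal_comp.add ((hasDerivAt_id s).ofReal_comp.mul_const I)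
  refine HasDerivAt.congr_deriv h2 ?_
  have h3 : ((√(1 - s ^ 2) : ℝ) : ℂ) ≠ 0 := ofReal_ne_zero.2 (Real.sqrt_pos.2 h0).ne'
  unfold ee_Chord
  push_cast
  field_simp
  linear_combination (-(s : ℂ)) * I_mul_I

theorem sq_Chord {s : ℝ} (hs : |s| ≤ 1 / 10) :
    ee_Chord s ^ 2 = ((1 - 2 * s ^ 2 : ℝ) : ℂ) + ((2 * s * √(1 - s ^ 2) : ℝ) : ℂ) * I := by
  have h1 : ((√(1 - s ^ 2) : ℝ) : ℂ) ^ 2 = 1 - (s : ℂ) ^ 2 := by
    exact_mod_cast Real.sq_sqrt (pos_Chord hs).le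
  unfold ee_Chord
  push_cast
  linear_combination h1 + (s : ℂ) ^ 2 * I_mul_I

theorem ball_Chord {w0 a b : ℝ} (ha : |a - w0| + |b| < w0) :
    (a : ℂ) + b * I ∈ ball (w0 : ℂ) w0 := by
  rw [mem_ball, dist_eq_norm]
  refine (norm_le_abs_re_add_abs_im _).trans_lt ?_
  simpa using ha

theorem arc_Chord {w0 s : ℝ} (hw : 0 < w0) (hs : |s| ≤ 1 / 10) :
    (w0 : ℂ) * ee_Chord s ^ 2 ∈ ball (w0 : ℂ) w0 := by
  have h1 : (w0 : ℂ) * ee_Chord s ^ 2 =
      ((w0 * (1 - 2 * s ^ 2) : ℝ) : ℂ) + ((w0 * (2 * s * √(1 - s ^ 2)) : ℝ) : ℂ) * I := by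
    rw [sq_Chord hs]; push_cast; ring
  rw [h1]
  apply ball_Chord
  have h2 : √(1 - s ^ 2) ≤ 1 := Real.sqrt_le_one.2 (by nlinarith [sq_nonneg s])
  have h3 := Real.sqrt_nonneg (1 - s ^ 2)
  have h4 := abs_le.1 hs
  have h5 : |w0 * (1 - 2 * s ^ 2) - w0| ≤ w0 * (1 / 50) := by
    have : s ^ 2 ≤ 1 / 100 := by nlinarith
    rw [abs_le]
    constructor <;> nlinarith [sq_nonneg s]
  have h6 : |w0 * (2 * s * √(1 - s ^ 2))| ≤ w0 * (1 / 5) := by
    rw [abs_mul, abs_of_pos hw]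
    refine mul_le_mul_of_nonneg_left ?_ hw.le
    rw [abs_le]
    constructor <;> nlinarith
  linarith

theorem diff_Chord (h : SSStmt) {w0 : ℝ} : DifferentiableOn ℂ (FF_Chord w0) (ball (w0 : ℂ) w0) := by
  have h1 : ∀ w ∈ ball (w0 : ℂ) w0, 0 < w.re := fun w hw => by
    rw [mem_ball, dist_eq_norm] at hw
    have := (abs_le.1 ((abs_re_le_norm _).trans hw.le)).1
    have h2 := (abs_lt.1 ((abs_re_le_norm _).trans_lt hw)).1
    simp only [sub_re, ofReal_re] at h2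
    linarith
  refine (h.2.1.mono h1).mul (DifferentiableOn.cexp (DifferentiableOn.add
    ((differentiableOn_const _).div (differentiableOn_id.const_mul _) fun w hw => ?_)
    (differentiableOn_id.const_mul _)))
  refine mul_ne_zero (by norm_num) fun e => ?_
  have := h1 w hw
  rw [e] at this
  simp at this

theorem val_Chord (h : SSStmt) {w0 s : ℝ} (hw : 0 < w0) (hs : |s| ≤ 1 / 10) :
    FF_Chord w0 (w0 * ee_Chord s ^ 2) *
        (w0 * (2 * ee_Chord s * (I * ee_Chord s / (√(1 - s ^ 2) : ℝ)))) =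
      GG_Chord (2 * w0 * √(w0 / (2 * Real.pi)) * Real.exp (2 * (Real.pi ^ 2 / 6 / w0)))
        (Real.pi ^ 2 / 6 / w0) s * I := by
  have h0 := pos_Chord hs
  have h1 : ((√(1 - s ^ 2) : ℝ) : ℂ) ^ 2 = 1 - (s : ℂ) ^ 2 := by
    exact_mod_cast Real.sq_sqrt h0.le
  have h2 : |(ee_Chord s).im| < (ee_Chord s).re := by
    have : (1 / 10 : ℝ) < √(1 - s ^ 2) := by
      have := abs_le.1 hs
      exact Real.lt_sqrt_of_sq_lt (by nlinarith)
    simp only [ee_Chord, add_im, ofReal_im, mul_im, ofReal_re, I_im, I_re, add_re, mul_re]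
    simpa using hs.trans_lt (by simpa using this)
  have h3 : ee_Chord s * (((√(1 - s ^ 2) : ℝ) : ℂ) - s * I) = 1 := by
    unfold ee_Chord
    linear_combination h1 - (s : ℂ) ^ 2 * I_mul_I
  have h4 : (ee_Chord s)⁻¹ = ((√(1 - s ^ 2) : ℝ) : ℂ) - s * I := inv_eq_of_mul_eq_one_right h3
  have hw' : (w0 : ℂ) ≠ 0 := ofReal_ne_zero.2 hw.ne'
  have h5 : (Real.pi : ℂ) ^ 2 / (6 * (w0 * ee_Chord s ^ 2)) +
      ((Real.pi ^ 2 / 6 / w0 ^ 2 : ℝ) : ℂ) * (w0 * ee_Chord s ^ 2) =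
      ((2 * (Real.pi ^ 2 / 6 / w0) : ℝ) : ℂ) + ((-4 * (Real.pi ^ 2 / 6 / w0) * s ^ 2 : ℝ) : ℂ) := by
    have e1 : (Real.pi : ℂ) ^ 2 / (6 * (w0 * ee_Chord s ^ 2)) =
        (Real.pi : ℂ) ^ 2 / 6 / w0 * (ee_Chord s)⁻¹ ^ 2 := by ring
    have e2 : ((Real.pi ^ 2 / 6 / w0 ^ 2 : ℝ) : ℂ) * (w0 * ee_Chord s ^ 2) =
        (Real.pi : ℂ) ^ 2 / 6 / w0 * ee_Chord s ^ 2 := by
      push_cast
      field_simp
    rw [e1, e2, h4]
    unfold ee_Chord
    push_cast
    linear_combination (Real.pi : ℂ) ^ 2 / 6 / w0 * (2 * h1 + 2 * (s : ℂ) ^ 2 * I_mul_I)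
  unfold FF_Chord GG_Chord
  rw [h.2.2 w0 _ hw h2, h5, exp_add, ← ofReal_exp, ← ofReal_exp]
  push_cast
  ring

theorem re_Chord (K l : ℝ) {s : ℝ} (hs : |s| ≤ 1 / 10) :
    (GG_Chord K l s).re = K * ((1 - 4 * s ^ 2) * Real.exp (-4 * l * s ^ 2)) := by
  have h0 := pos_Chord hs
  have h1 := Real.sq_sqrt h0.le
  have h2 := (Real.sqrt_pos.2 h0).ne'
  have h3 : (ee_Chord s ^ 3).re = √(1 - s ^ 2) * (1 - 4 * s ^ 2) := by
    simp only [ee_Chord, pow_succ, pow_zero, one_mul, mul_re, mul_im, add_re, add_im, ofReal_re,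
      ofReal_im, I_re, I_im] at h1 ⊢
    linear_combination √(1 - s * s) * h1
  unfold GG_Chord
  rw [re_ofReal_mul, div_ofReal_re, h3]
  field_simp

theorem cont_Chord (K l : ℝ) : ContinuousOn (GG_Chord K l) (Set.uIcc (-(1 / 10)) (1 / 10)) := by
  unfold GG_Chord ee_Chord
  refine ContinuousOn.mul (by fun_prop) (ContinuousOn.div (by fun_prop) (by fun_prop) fun s hs => ?_)
  rw [Set.uIcc_of_le (by norm_num)] at hs
  exact ofReal_ne_zero.2 (Real.sqrt_pos.2 (pos_Chord (abs_le.2 hs))).ne'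

theorem chord (h : SSStmt) : ChordStmt := by
  intro w0 hw
  obtain ⟨Φ, hΦ⟩ := (diff_Chord h (w0 := w0)).isExactOn_ball
  set b : ℝ := 1 / 5 * √(99 / 100) * w0 with hb
  set K : ℝ := 2 * w0 * √(w0 / (2 * Real.pi)) * Real.exp (2 * (Real.pi ^ 2 / 6 / w0)) with hK
  set l : ℝ := Real.pi ^ 2 / 6 / w0 with hl
  have b0 : 0 ≤ b := by positivity
  have b1 : b ≤ 1 / 5 * w0 := by
    have : √(99 / 100) ≤ 1 := Real.sqrt_le_one.2 (by norm_num)
    rw [hb]
    nlinarith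
  have m1 : ∀ θ ∈ Set.uIcc (-b) b, ((49 / 50 * w0 : ℝ) : ℂ) + θ * I ∈ ball (w0 : ℂ) w0 := by
    intro θ hθ
    rw [Set.uIcc_of_le (by linarith)] at hθ
    apply ball_Chord
    have h1 := abs_le.2 hθ
    have h2 : |49 / 50 * w0 - w0| ≤ 1 / 50 * w0 := abs_le.2 ⟨by linarith, by linarith⟩
    linarith
  have e1 : ∫ θ in (-b)..b, FF_Chord w0 (((49 / 50 * w0 : ℝ) : ℂ) + θ * I) * I =
      Φ (((49 / 50 * w0 : ℝ) : ℂ) + b * I) - Φ (((49 / 50 * w0 : ℝ) : ℂ) + (-b : ℝ) * I) := by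
    refine intervalIntegral.integral_eq_sub_of_hasDerivAt
      (f := fun θ : ℝ => Φ (((49 / 50 * w0 : ℝ) : ℂ) + θ * I)) (fun θ hθ => ?_) ?_
    · have h1 : HasDerivAt (fun θ : ℝ => ((49 / 50 * w0 : ℝ) : ℂ) + θ * I) I θ := by
        simpa using ((hasDerivAt_id θ).ofReal_comp.mul_const I).const_add ((49 / 50 * w0 : ℝ) : ℂ)
      exact (hΦ _ (m1 θ hθ)).comp θ h1
    · refine ContinuousOn.intervalIntegrable (ContinuousOn.mul ?_ continuousOn_const)
      exact (diff_Chord h).continuousOn.comp (by fun_prop) m1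
  have m2 : ∀ s ∈ Set.uIcc (-(1 / 10) : ℝ) (1 / 10), |s| ≤ 1 / 10 := fun s hs => by
    rw [Set.uIcc_of_le (by norm_num)] at hs
    exact abs_le.2 hs
  have e2 : ∫ s in (-(1 / 10) : ℝ)..(1 / 10), GG_Chord K l s * I =
      Φ (w0 * ee_Chord (1 / 10) ^ 2) - Φ (w0 * ee_Chord (-(1 / 10)) ^ 2) := by
    refine intervalIntegral.integral_eq_sub_of_hasDerivAt
      (f := fun s : ℝ => Φ (w0 * ee_Chord s ^ 2)) (fun s hs => ?_) ?_
    · have h1 : HasDerivAt (fun s : ℝ => (w0 : ℂ) * ee_Chord s ^ 2)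
          (w0 * (2 * ee_Chord s * (I * ee_Chord s / (√(1 - s ^ 2) : ℝ)))) s := by
        simpa using ((deriv_Chord (m2 s hs)).pow 2).const_mul (w0 : ℂ)
      rw [← val_Chord h hw (m2 s hs)]
      exact (hΦ _ (arc_Chord hw (m2 s hs))).comp s h1
    · exact ((cont_Chord K l).mul continuousOn_const).intervalIntegrable
  have p1 : (w0 : ℂ) * ee_Chord (1 / 10) ^ 2 = ((49 / 50 * w0 : ℝ) : ℂ) + b * I := by
    rw [sq_Chord (by rw [abs_of_pos] <;> norm_num), hb,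
      show (1 : ℝ) - (1 / 10) ^ 2 = 99 / 100 by norm_num]
    push_cast
    ring
  have p2 : (w0 : ℂ) * ee_Chord (-(1 / 10)) ^ 2 = ((49 / 50 * w0 : ℝ) : ℂ) + (-b : ℝ) * I := by
    rw [sq_Chord (by rw [abs_neg, abs_of_pos] <;> norm_num), hb,
      show (1 : ℝ) - (-(1 / 10)) ^ 2 = 99 / 100 by norm_num]
    push_cast
    ring
  rw [p1, p2, ← e1, intervalIntegral.integral_mul_const, intervalIntegral.integral_mul_const] at e2
  have e3 := mul_right_cancel₀ I_ne_zero e2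
  have e4 := reCLM.intervalIntegral_comp_comm (cont_Chord K l).intervalIntegrable
    (μ := MeasureTheory.volume)
  show (∫ θ in (-b)..b, FF_Chord w0 (((49 / 50 * w0 : ℝ) : ℂ) + θ * I)).re = _
  rw [← e3, ← reCLM_apply, ← e4, ← intervalIntegral.integral_const_mul]
  exact intervalIntegral.integral_congr fun s hs => re_Chord K l (m2 s hs)

end Pool.Agent.MP_9cfd17_nt

end

section

/-! The Hardy-Ramanujan estimate from one arc. -/

namespace Pool.Agent.MP_9cfd17_nt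

open Complex Metric Filter Topology

lemma inv_re_HR (t θ : ℝ) : (((t : ℂ) + θ * I)⁻¹).re = t / (t ^ 2 + θ ^ 2) := by
  rw [Complex.inv_re, Complex.normSq_add_mul_I]
  simp

lemma pi_sq_HR : 9.86 < Real.pi ^ 2 ∧ Real.pi ^ 2 < 9.87 := by
  have h1 := Real.pi_gt_d4
  have h2 := Real.pi_lt_d4
  constructor <;> nlinarith

lemma re_main_HR (t θ x : ℝ) :
    ((Real.pi : ℂ) ^ 2 / (6 * ((t : ℂ) + θ * I)) + (x : ℂ) * ((t : ℂ) + θ * I)).re
      = Real.pi ^ 2 / 6 * (t / (t ^ 2 + θ ^ 2)) + x * t := by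
  have h : (Real.pi : ℂ) ^ 2 / (6 * ((t : ℂ) + θ * I))
      = ((Real.pi ^ 2 / 6 : ℝ) : ℂ) * ((t : ℂ) + θ * I)⁻¹ := by
    push_cast
    rw [div_mul_eq_div_div, div_eq_mul_inv (_ / 6)]
  rw [Complex.add_re, h, Complex.re_ofReal_mul, Complex.re_ofReal_mul, inv_re_HR]
  simp

lemma re_dual_HR (t θ : ℝ) :
    (-(4 * (Real.pi : ℂ) ^ 2) / ((t : ℂ) + θ * I)).re
      = -(4 * Real.pi ^ 2) * (t / (t ^ 2 + θ ^ 2)) := by
  have h : -(4 * (Real.pi : ℂ) ^ 2) / ((t : ℂ) + θ * I)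
      = ((-(4 * Real.pi ^ 2) : ℝ) : ℂ) * ((t : ℂ) + θ * I)⁻¹ := by
    push_cast
    rw [div_eq_mul_inv]
  rw [h, Complex.re_ofReal_mul, inv_re_HR]

lemma exp_half_HR {y : ℝ} (hy : y ≤ -1) : Real.exp y ≤ 1 / 2 := by
  have h1 : Real.exp y ≤ Real.exp (-1) := Real.exp_le_exp.2 hy
  have h2 := Real.exp_neg_one_lt_d9
  linarith

lemma norm_SS_HR (h5 : SSStmt) {w : ℂ} (hw : ‖w‖ ≤ 1) : ‖SS w‖ ≤ 1 := by
  rw [h5.1 w, Real.sqrt_le_one, div_le_one (by positivity)]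
  have := Real.pi_gt_three
  linarith

lemma fact_HR (h4 : ModularStmt) (w : ℂ) (hw : 0 < w.re) (x : ℝ) (m : ℕ)
    (hx : (m : ℝ) - 1 / 24 = x) :
    PP (exp (-w)) * exp (m * w) =
      SS w * exp ((Real.pi : ℂ) ^ 2 / (6 * w) + (x : ℂ) * w)
        * PP (exp (-(4 * (Real.pi : ℂ) ^ 2) / w)) := by
  have h : (Real.pi : ℂ) ^ 2 / (6 * w) + (x : ℂ) * w
      = ((Real.pi : ℂ) ^ 2 / (6 * w) - w / 24) + m * w := by
    rw [← hx]; push_cast; ring
  rw [h4 w hw, h, Complex.exp_add]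
  ring

lemma expo_HR {w0 : ℝ} (hw : 0 < w0) :
    Real.pi ^ 2 / 6 * (1 / (49 / 50 * w0)) + Real.pi ^ 2 / 6 / w0 ^ 2 * (49 / 50 * w0)
      = 4901 / 2450 * (Real.pi ^ 2 / 6 / w0) := by
  field_simp
  ring

lemma lam_le_HR {w0 : ℝ} (hw : 0 < w0) : 0.6 * (Real.pi ^ 2 / 6 / w0) ≤ 1 / w0 := by
  have h := pi_sq_HR.2
  rw [← mul_div_assoc]
  exact div_le_div_of_nonneg_right (by linarith) hw.le

lemma mid_HR (h4 : ModularStmt) (h5 : SSStmt) {K : ℝ} (hK : 0 < K)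
    (hs : ∀ z : ℂ, ‖z‖ ≤ 1 / 2 → ‖PP z - 1‖ ≤ K * ‖z‖) {w0 θ : ℝ} {m : ℕ} (hw : 0 < w0)
    (hw1 : w0 ≤ 1) (hm : (m : ℝ) - 1 / 24 = Real.pi ^ 2 / 6 / w0 ^ 2)
    (hθ : θ ^ 2 ≤ 99 / 2500 * w0 ^ 2) :
    ‖PP (exp (-(((49 / 50 * w0 : ℝ) : ℂ) + θ * I))) * exp (m * (((49 / 50 * w0 : ℝ) : ℂ) + θ * I))
      - SS (((49 / 50 * w0 : ℝ) : ℂ) + θ * I) *
        exp ((Real.pi : ℂ) ^ 2 / (6 * (((49 / 50 * w0 : ℝ) : ℂ) + θ * I)) +
          ((Real.pi ^ 2 / 6 / w0 ^ 2 : ℝ) : ℂ) * (((49 / 50 * w0 : ℝ) : ℂ) + θ * I))‖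
      ≤ 2 * (1 + K) * Real.exp (1.9993 * (Real.pi ^ 2 / 6 / w0)) := by
  have he := expo_HR hw
  have hl := lam_le_HR hw
  have hp := pi_sq_HR
  set t : ℝ := 49 / 50 * w0 with ht
  have ht0 : 0 < t := by positivity
  have hre : 0 < ((t : ℂ) + θ * I).re := by simpa using ht0
  have hn : t ^ 2 + θ ^ 2 ≤ w0 ^ 2 := by rw [ht]; nlinarith
  have hn0 : 0 < t ^ 2 + θ ^ 2 := by positivity
  have hnorm : ‖(t : ℂ) + θ * I‖ ≤ 1 := by
    rw [Complex.norm_add_mul_I, Real.sqrt_le_one]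
    nlinarith
  have hr1 : t / (t ^ 2 + θ ^ 2) ≤ 1 / t := by
    rw [div_le_div_iff₀ hn0 ht0]; nlinarith [sq_nonneg θ]
  have hr2 : 49 / 50 * (1 / w0) ≤ t / (t ^ 2 + θ ^ 2) := by
    have h1 : t / w0 ^ 2 ≤ t / (t ^ 2 + θ ^ 2) := div_le_div_of_nonneg_left ht0.le hn0 hn
    have h2 : t / w0 ^ 2 = 49 / 50 * (1 / w0) := by rw [ht]; field_simp
    linarith
  have hw2 : 1 ≤ 1 / w0 := by rw [le_div_iff₀ hw]; linarith
  have hdual : -(4 * Real.pi ^ 2) * (t / (t ^ 2 + θ ^ 2)) ≤ -(38 * (1 / w0)) := by nlinarith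
  have hq : ‖exp (-(4 * (Real.pi : ℂ) ^ 2) / ((t : ℂ) + θ * I))‖ ≤ Real.exp (-(38 * (1 / w0))) := by
    rw [Complex.norm_exp, re_dual_HR]
    exact Real.exp_le_exp.2 hdual
  have hq2 := hq.trans (exp_half_HR (by linarith))
  have h6 := (hs _ hq2).trans (mul_le_mul_of_nonneg_left hq hK.le)
  rw [fact_HR h4 _ hre _ m hm, ← mul_sub_one, norm_mul, norm_mul, Complex.norm_exp, re_main_HR]
  have h7 : Real.pi ^ 2 / 6 * (t / (t ^ 2 + θ ^ 2)) ≤ Real.pi ^ 2 / 6 * (1 / t) :=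
    mul_le_mul_of_nonneg_left hr1 (by positivity)
  have hlam : 0 < Real.pi ^ 2 / 6 / w0 := by positivity
  calc _ ≤ 1 * Real.exp (4901 / 2450 * (Real.pi ^ 2 / 6 / w0)) * (K * Real.exp (-(38 * (1 / w0)))) := by
        gcongr
        · exact norm_SS_HR h5 hnorm
        · linarith
    _ = K * Real.exp (4901 / 2450 * (Real.pi ^ 2 / 6 / w0) + -(38 * (1 / w0))) := by
        rw [Real.exp_add]; ring
    _ ≤ 2 * (1 + K) * Real.exp (1.9993 * (Real.pi ^ 2 / 6 / w0)) := by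
        gcongr
        · linarith
        · linarith

lemma save_HR {w0 θ : ℝ} (hw : 0 < w0) (hθ : 99 / 2500 * w0 ^ 2 ≤ θ ^ 2) :
    1 / √((49 / 50 * w0) ^ 2 + 4 * θ ^ 2 / Real.pi ^ 2) ≤ 1.01203 * (1 / w0) := by
  have hp := pi_sq_HR
  have h1 : 0.016 * w0 ^ 2 ≤ 4 * θ ^ 2 / Real.pi ^ 2 := by
    rw [le_div_iff₀ (by linarith)]
    nlinarith [sq_nonneg w0]
  have h2 : 0.98812 * w0 ≤ √((49 / 50 * w0) ^ 2 + 4 * θ ^ 2 / Real.pi ^ 2) := by
    apply Real.le_sqrt_of_sq_le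
    nlinarith [sq_nonneg w0]
  have h3 := one_div_le_one_div_of_le (by positivity) h2
  refine h3.trans ?_
  rw [div_le_iff₀ (by positivity)]
  have : 1.01203 * (1 / w0) * (0.98812 * w0) = 1.01203 * 0.98812 := by field_simp
  rw [this]; norm_num

lemma out_HR (h3 : MinorStmt) (h4 : ModularStmt) (h5 : SSStmt) {K : ℝ} (hK : 0 < K)
    (hs : ∀ z : ℂ, ‖z‖ ≤ 1 / 2 → ‖PP z - 1‖ ≤ K * ‖z‖) {w0 θ : ℝ} {m : ℕ} (hw : 0 < w0)
    (hw1 : w0 ≤ 1) (hm : (m : ℝ) - 1 / 24 = Real.pi ^ 2 / 6 / w0 ^ 2)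
    (hθ : 99 / 2500 * w0 ^ 2 ≤ θ ^ 2) (hπ : |θ| ≤ Real.pi) :
    ‖PP (exp (-(((49 / 50 * w0 : ℝ) : ℂ) + θ * I))) * exp (m * (((49 / 50 * w0 : ℝ) : ℂ) + θ * I))‖
      ≤ 2 * (1 + K) * Real.exp (1.9993 * (Real.pi ^ 2 / 6 / w0)) := by
  have he := expo_HR hw
  have hl := lam_le_HR hw
  have hp := pi_sq_HR
  have hsv := save_HR hw hθ
  have hti : 1 / (49 / 50 * w0) = 50 / 49 * (1 / w0) := by field_simp
  set t : ℝ := 49 / 50 * w0 with ht
  have ht0 : 0 < t := by positivity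
  have hw2 : 1 ≤ 1 / w0 := by rw [le_div_iff₀ hw]; linarith
  have hm3 := h3 t θ ht0 hπ
  have e0 : (t : ℂ) = (t : ℂ) + (0 : ℝ) * I := by simp
  have hre : 0 < ((t : ℂ) + (0 : ℝ) * I).re := by simpa using ht0
  have hr : t / (t ^ 2 + 0 ^ 2) = 1 / t := by field_simp; ring
  have hq : ‖exp (-(4 * (Real.pi : ℂ) ^ 2) / ((t : ℂ) + (0 : ℝ) * I))‖ ≤ 1 / 2 := by
    rw [Complex.norm_exp, re_dual_HR, hr, hti]
    apply exp_half_HR
    nlinarith
  have h6 : ‖PP (exp (-(4 * (Real.pi : ℂ) ^ 2) / ((t : ℂ) + (0 : ℝ) * I)))‖ ≤ 1 + K := by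
    have a1 := hs _ hq
    have a2 := norm_le_norm_add_norm_sub' (PP (exp (-(4 * (Real.pi : ℂ) ^ 2) / ((t : ℂ) + (0 : ℝ) * I)))) 1
    have a3 := mul_le_mul_of_nonneg_left hq hK.le
    rw [norm_one] at a2
    linarith
  have hnorm : ‖(t : ℂ) + (0 : ℝ) * I‖ ≤ 1 := by
    rw [← e0, Complex.norm_real, Real.norm_eq_abs, abs_of_pos ht0, ht]; linarith
  have h7 : ‖PP (exp (-(t : ℂ)))‖ * Real.exp (m * t)
      ≤ 1 * Real.exp (4901 / 2450 * (Real.pi ^ 2 / 6 / w0)) * (1 + K) := by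
    have a1 := congrArg norm (fact_HR h4 _ hre _ m hm)
    rw [norm_mul, norm_mul, norm_mul, Complex.norm_exp, Complex.norm_exp, re_main_HR, hr, he] at a1
    have a2 : ((m : ℂ) * ((t : ℂ) + (0 : ℝ) * I)).re = m * t := by simp
    rw [a2] at a1
    nth_rewrite 1 [e0]
    rw [a1]
    gcongr
    exact norm_SS_HR h5 hnorm
  have a3 : ((m : ℂ) * ((t : ℂ) + θ * I)).re = m * t := by simp
  rw [norm_mul, Complex.norm_exp, a3]
  have h8 : Real.exp (-(1 / 4) * (1 / t - 1 - 1 / √(t ^ 2 + 4 * θ ^ 2 / Real.pi ^ 2)))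
      ≤ 2 * Real.exp (-(0.0012 * (Real.pi ^ 2 / 6 / w0))) := by
    have b1 : Real.exp (1 / 4) ≤ 2 := by
      have := Real.log_two_gt_d9
      rw [← Real.exp_log (show (0 : ℝ) < 2 by norm_num)]
      exact Real.exp_le_exp.2 (by linarith)
    calc _ ≤ Real.exp (1 / 4 + -(0.0012 * (Real.pi ^ 2 / 6 / w0))) := by
          apply Real.exp_le_exp.2
          rw [hti]
          linarith
      _ ≤ _ := by
          rw [Real.exp_add]
          gcongr
  have hlam : 0 < Real.pi ^ 2 / 6 / w0 := by positivity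
  calc _ ≤ ‖PP (exp (-(t : ℂ)))‖ * (2 * Real.exp (-(0.0012 * (Real.pi ^ 2 / 6 / w0))))
          * Real.exp (m * t) := by
        gcongr
        exact hm3.trans (mul_le_mul_of_nonneg_left h8 (norm_nonneg _))
    _ = ‖PP (exp (-(t : ℂ)))‖ * Real.exp (m * t)
          * (2 * Real.exp (-(0.0012 * (Real.pi ^ 2 / 6 / w0)))) := by ring
    _ ≤ 1 * Real.exp (4901 / 2450 * (Real.pi ^ 2 / 6 / w0)) * (1 + K)
          * (2 * Real.exp (-(0.0012 * (Real.pi ^ 2 / 6 / w0)))) := by gcongr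
    _ = 2 * (1 + K) * Real.exp (4901 / 2450 * (Real.pi ^ 2 / 6 / w0)
          + -(0.0012 * (Real.pi ^ 2 / 6 / w0))) := by rw [Real.exp_add]; ring
    _ ≤ _ := by
        gcongr
        linarith

lemma core_HR (h0 : GenStmt) (h1 : CoeffStmt) (h2 : SmallStmt) (h3 : MinorStmt)
    (h4 : ModularStmt) (h5 : SSStmt) (h6 : ChordStmt) (h7 : GaussStmt) :
    ∃ K : ℝ, 0 < K ∧ ∀ (w0 : ℝ) (m : ℕ), 0 < w0 → w0 ≤ 1 →
      (m : ℝ) - 1 / 24 = Real.pi ^ 2 / 6 / w0 ^ 2 →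
      |2 * Real.pi * pp m - 2 * w0 * √(w0 / (2 * Real.pi)) * Real.exp (2 * (Real.pi ^ 2 / 6 / w0)) *
        ((1 - 1 / (2 * (Real.pi ^ 2 / 6 / w0))) * √(Real.pi / (4 * (Real.pi ^ 2 / 6 / w0))))|
        ≤ K * Real.exp (1.9993 * (Real.pi ^ 2 / 6 / w0)) := by
  obtain ⟨K, hK, hs⟩ := h2
  refine ⟨16 * (1 + K) + 6, by positivity, fun w0 m hw hw1 hm => ?_⟩
  have hp := pi_sq_HR
  have hpi3 := Real.pi_gt_three
  have hpi4 := Real.pi_lt_four
  have hc := h1 (49 / 50 * w0) m (by positivity)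
  have hch := h6 w0 hw
  have hlam1 : 1 ≤ Real.pi ^ 2 / 6 / w0 := by rw [le_div_iff₀ hw]; linarith
  have hg := h7 _ hlam1
  have hmid := fun (θ : ℝ) (hθ : θ ^ 2 ≤ 99 / 2500 * w0 ^ 2) => mid_HR h4 h5 hK hs hw hw1 hm hθ
  have hout := fun (θ : ℝ) (hθ : 99 / 2500 * w0 ^ 2 ≤ θ ^ 2) (hπ : |θ| ≤ Real.pi) =>
    out_HR h3 h4 h5 hK hs hw hw1 hm hθ hπ
  set lam : ℝ := Real.pi ^ 2 / 6 / w0 with hlam
  set B : ℝ := 2 * (1 + K) * Real.exp (1.9993 * lam) with hB
  have hB0 : 0 ≤ B := by positivity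
  set T : ℝ := 1 / 5 * √(99 / 100) * w0 with hT
  have hT0 : 0 ≤ T := by positivity
  have hT2 : T ^ 2 = 99 / 2500 * w0 ^ 2 := by
    rw [hT, mul_pow, mul_pow, Real.sq_sqrt (by norm_num)]; ring
  have hT1 : T ≤ 1 := by nlinarith
  set t : ℝ := 49 / 50 * w0 with ht
  have ht0 : 0 < t := by positivity
  set F : ℝ → ℂ := fun θ => PP (exp (-((t : ℂ) + θ * I))) * exp (m * ((t : ℂ) + θ * I)) with hF
  set M : ℝ → ℂ := fun θ => SS ((t : ℂ) + θ * I) *
        exp ((Real.pi : ℂ) ^ 2 / (6 * ((t : ℂ) + θ * I)) +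
          ((Real.pi ^ 2 / 6 / w0 ^ 2 : ℝ) : ℂ) * ((t : ℂ) + θ * I)) with hM
  have hWc : Continuous fun θ : ℝ => (t : ℂ) + θ * I := by fun_prop
  have hW0 : ∀ θ : ℝ, 0 < ((t : ℂ) + θ * I).re := fun θ => by simpa using ht0
  have hFc : Continuous F := by
    apply Continuous.mul
    · refine h0.2.comp_continuous (by fun_prop) fun θ => ?_
      rw [mem_ball_zero_iff, Complex.norm_exp, Complex.neg_re, Real.exp_lt_one_iff]
      linarith [hW0 θ]
    · fun_prop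
  have hMc : Continuous M := by
    apply Continuous.mul
    · exact h5.2.1.continuousOn.comp_continuous hWc hW0
    · refine Complex.continuous_exp.comp (Continuous.add ?_ (by fun_prop))
      refine Continuous.div continuous_const (by fun_prop) fun θ => ?_
      refine mul_ne_zero (by norm_num) fun h => ?_
      have := hW0 θ
      rw [h] at this
      simp at this
  have hsplit : ∫ θ in (-Real.pi)..Real.pi, F θ
      = (∫ θ in (-Real.pi)..(-T), F θ) + ((∫ θ in (-T)..T, (F θ - M θ)) + ∫ θ in (-T)..T, M θ)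
        + ∫ θ in T..Real.pi, F θ := by
    rw [intervalIntegral.integral_sub (hFc.intervalIntegrable _ _) (hMc.intervalIntegrable _ _),
      sub_add_cancel,
      intervalIntegral.integral_add_adjacent_intervals (hFc.intervalIntegrable _ _)
        (hFc.intervalIntegrable _ _),
      intervalIntegral.integral_add_adjacent_intervals (hFc.intervalIntegrable _ _)
        (hFc.intervalIntegrable _ _)]
  have b1 : ‖∫ θ in (-Real.pi)..(-T), F θ‖ ≤ B * |-T - -Real.pi| := by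
    refine intervalIntegral.norm_integral_le_of_norm_le_const fun θ hθ => ?_
    rw [Set.uIoc_of_le (by linarith)] at hθ
    refine hout θ ?_ (abs_le.2 ⟨hθ.1.le, by linarith [hθ.2]⟩)
    rw [← hT2]
    nlinarith [hθ.2]
  have b2 : ‖∫ θ in (-T)..T, (F θ - M θ)‖ ≤ B * |T - -T| := by
    refine intervalIntegral.norm_integral_le_of_norm_le_const fun θ hθ => ?_
    rw [Set.uIoc_of_le (by linarith)] at hθ
    refine hmid θ ?_
    rw [← hT2]
    nlinarith [hθ.1, hθ.2]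
  have b3 : ‖∫ θ in T..Real.pi, F θ‖ ≤ B * |Real.pi - T| := by
    refine intervalIntegral.norm_integral_le_of_norm_le_const fun θ hθ => ?_
    rw [Set.uIoc_of_le (by linarith)] at hθ
    refine hout θ ?_ (abs_le.2 ⟨by linarith [hθ.1], hθ.2⟩)
    rw [← hT2]
    nlinarith [hθ.1]
  rw [abs_of_nonneg (by linarith)] at b1 b2 b3
  have hc2 : ((2 * Real.pi * pp m : ℝ) : ℂ) = ∫ θ in (-Real.pi)..Real.pi, F θ := by
    have hne : (Real.pi : ℂ) ≠ 0 := by exact_mod_cast Real.pi_ne_zero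
    push_cast
    rw [hc]
    field_simp
  have hc3 : 2 * Real.pi * pp m - (∫ θ in (-T)..T, M θ).re
      = ((∫ θ in (-Real.pi)..(-T), F θ) + (∫ θ in (-T)..T, (F θ - M θ))
        + ∫ θ in T..Real.pi, F θ).re := by
    have := congrArg Complex.re hc2
    rw [Complex.ofReal_re, hsplit] at this
    rw [this]
    simp only [Complex.add_re]
    ring
  have hc4 : |2 * Real.pi * pp m - (∫ θ in (-T)..T, M θ).re| ≤ 8 * B := by
    rw [hc3]
    refine (Complex.abs_re_le_norm _).trans (norm_add₃_le.trans ?_)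
    nlinarith
  rw [hch] at hc4
  set A : ℝ := 2 * w0 * √(w0 / (2 * Real.pi)) * Real.exp (2 * lam) with hA
  have hA0 : 0 ≤ A := by positivity
  have hA1 : A ≤ 2 * Real.exp (2 * lam) := by
    have : √(w0 / (2 * Real.pi)) ≤ 1 := by
      rw [Real.sqrt_le_one, div_le_one (by positivity)]; linarith
    calc A ≤ 2 * 1 * 1 * Real.exp (2 * lam) := by rw [hA]; gcongr
      _ = _ := by ring
  set G : ℝ := ∫ s in (-(1 / 10) : ℝ)..(1 / 10), (1 - 4 * s ^ 2) * Real.exp (-4 * lam * s ^ 2)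
  set G0 : ℝ := (1 - 1 / (2 * lam)) * √(Real.pi / (4 * lam))
  have hc5 : |A * G - A * G0| ≤ 6 * Real.exp (1.9993 * lam) := by
    rw [← mul_sub, abs_mul, abs_of_nonneg hA0]
    calc _ ≤ 2 * Real.exp (2 * lam) * (3 * Real.exp (-lam / 50)) := by gcongr
      _ = 6 * Real.exp (2 * lam + -lam / 50) := by rw [Real.exp_add]; ring
      _ ≤ _ := by
          gcongr
          linarith
  have hc6 := abs_sub_le (2 * Real.pi * pp m) (A * G) (A * G0)
  rw [hB] at hc4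
  linarith

lemma log_near_HR {y : ℝ} (hy : |y - 1| ≤ 1 / 2) : |Real.log y| ≤ 2 * |y - 1| := by
  have h1 := abs_le.1 hy
  have hy0 : 0 < y := by linarith
  have h2 := Real.log_le_sub_one_of_pos hy0
  have h3 := Real.one_sub_inv_le_log_of_pos hy0
  have h4 := le_abs_self (y - 1)
  have h5 := neg_abs_le (y - 1)
  have h6 := abs_nonneg (y - 1)
  have h7 : -(2 * |y - 1|) ≤ 1 - y⁻¹ := by
    have : 1 - y⁻¹ = (y - 1) / y := by field_simp
    rw [this, le_div_iff₀ hy0]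
    nlinarith
  exact abs_le.2 ⟨by linarith, by linarith⟩

lemma tail_HR {K lam : ℝ} (hK : 0 < K) (hl : 0 < lam) (h : 10 ^ 12 * K ≤ lam) :
    2 * (K * lam ^ 2 * Real.exp (-(0.0007 * lam))) ≤ Real.exp (-(0.0003 * lam)) := by
  have h1 : (0.0004 * lam) ^ 3 / (Nat.factorial 3 : ℕ) ≤ Real.exp (0.0004 * lam) :=
    Real.pow_div_factorial_le_exp _ (by positivity) 3
  have h2 : 2 * K * lam ^ 2 ≤ Real.exp (0.0004 * lam) := by
    refine le_trans ?_ h1
    have : ((Nat.factorial 3 : ℕ) : ℝ) = 6 := by norm_num [Nat.factorial]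
    rw [this]
    have h3 : 0 < lam ^ 2 := by positivity
    nlinarith
  have h4 : Real.exp (-(0.0003 * lam)) = Real.exp (0.0004 * lam) * Real.exp (-(0.0007 * lam)) := by
    rw [← Real.exp_add]; congr 1; ring
  rw [h4]
  have h5 := Real.exp_pos (-(0.0007 * lam))
  nlinarith

theorem hr (h0 : GenStmt) (h1 : CoeffStmt) (h2 : SmallStmt) (h3 : MinorStmt) (h4 : ModularStmt)
    (h5 : SSStmt) (h6 : ChordStmt) (h7 : GaussStmt) : HRStmt := by
  obtain ⟨K, hK, hcore⟩ := core_HR h0 h1 h2 h3 h4 h5 h6 h7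
  have hp := pi_sq_HR
  have hpi := Real.pi_pos
  set a : ℝ := Real.pi ^ 2 / 6 with ha
  have ha1 : 1.6 ≤ a := by rw [ha]; linarith
  have ha2 : a ≤ 2 := by rw [ha]; linarith
  have ha0 : 0 < a := by linarith
  set s : ℝ := √(a / 8) with hs
  have hs0 : 0 < s := by positivity
  set K' : ℝ := K / (a * s) with hK'
  have hK0 : 0 < K' := by positivity
  refine ⟨0.0003, Real.log (s / Real.pi), by norm_num, ⌈(10 ^ 12 * K' + 2) ^ 2⌉₊, fun m hm => ?_⟩
  have hm1 : (10 ^ 12 * K' + 2) ^ 2 ≤ (m : ℝ) := Nat.ceil_le.1 hm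
  have hm2 : 10 ^ 12 * K' + 2 ≤ √(m : ℝ) := Real.le_sqrt_of_sq_le hm1
  have hm3 : (4 : ℝ) ≤ m := by nlinarith
  set x : ℝ := (m : ℝ) - 1 / 24 with hx
  have hx0 : 0 < x := by rw [hx]; linarith
  set lam : ℝ := √(a * x) with hlam
  have hl2 : lam ^ 2 = a * x := Real.sq_sqrt (by positivity)
  have hlm : √(m : ℝ) ≤ lam := Real.sqrt_le_sqrt (by rw [hx]; nlinarith)
  have hl3 : 2 ≤ lam := by linarith [mul_pos (show (0 : ℝ) < 10 ^ 12 by positivity) hK0]
  have hl0 : 0 < lam := by linarith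
  have hw : 0 < a / lam := by positivity
  have hw1 : a / lam ≤ 1 := by rw [div_le_one hl0]; linarith
  have e1 : a / (a / lam) = lam := by field_simp
  have e2 : x = a / (a / lam) ^ 2 := by
    rw [div_pow, hl2]; field_simp
  have hc := hcore (a / lam) m hw hw1 e2
  rw [e1] at hc
  have e3 : √(a / lam / (2 * Real.pi)) * √(Real.pi / (4 * lam)) = s / lam := by
    rw [← Real.sqrt_mul (by positivity), hs, ← Real.sqrt_sq hl0.le, ← Real.sqrt_div (by positivity),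
      Real.sqrt_sq hl0.le]
    congr 1
    field_simp
    ring
  have hu : 1 / 2 ≤ 1 - 1 / (2 * lam) := by
    have : 1 / (2 * lam) ≤ 1 / 2 := one_div_le_one_div_of_le (by norm_num) (by linarith)
    linarith
  set u : ℝ := 1 - 1 / (2 * lam) with hu'
  have hu0 : 0 < u := by linarith
  have e4 : 2 * (a / lam) * √(a / lam / (2 * Real.pi)) * Real.exp (2 * lam) *
      (u * √(Real.pi / (4 * lam))) = 2 * (a * s) * Real.exp (2 * lam) * u / lam ^ 2 := by
    have : 2 * (a / lam) * √(a / lam / (2 * Real.pi)) * Real.exp (2 * lam) *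
        (u * √(Real.pi / (4 * lam))) = 2 * (a / lam) * Real.exp (2 * lam) * u *
          (√(a / lam / (2 * Real.pi)) * √(Real.pi / (4 * lam))) := by ring
    rw [this, e3]; field_simp
  rw [e4] at hc
  set T0 : ℝ := 2 * (a * s) * Real.exp (2 * lam) * u / lam ^ 2 with hT0
  have hT0p : 0 < T0 := by positivity
  have hy : |2 * Real.pi * pp m / T0 - 1| ≤ K' * lam ^ 2 * Real.exp (-(0.0007 * lam)) := by
    have a1 : 2 * Real.pi * pp m / T0 - 1 = (2 * Real.pi * pp m - T0) / T0 := by field_simp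
    rw [a1, abs_div, abs_of_pos hT0p, div_le_iff₀ hT0p]
    refine hc.trans ?_
    have a2 : K' * lam ^ 2 * Real.exp (-(0.0007 * lam)) * T0
        = K * (Real.exp (-(0.0007 * lam)) * Real.exp (2 * lam)) * (2 * u) := by
      rw [hK', hT0]; field_simp
    have a3 : Real.exp (-(0.0007 * lam)) * Real.exp (2 * lam) = Real.exp (1.9993 * lam) := by
      rw [← Real.exp_add]; congr 1; ring
    rw [a2, a3]
    have a4 : 0 < K * Real.exp (1.9993 * lam) := by positivity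
    nlinarith
  have ht := tail_HR hK0 hl0 (by linarith)
  have ht1 : Real.exp (-(0.0003 * lam)) ≤ 1 := Real.exp_le_one_iff.2 (by linarith)
  have hy2 : |2 * Real.pi * pp m / T0 - 1| ≤ 1 / 2 := by linarith
  have hlog := log_near_HR hy2
  have hy0 : 0 < 2 * Real.pi * pp m / T0 := by linarith [(abs_le.1 hy2).1]
  have hpp : (0 : ℝ) < pp m := by
    by_contra hneg
    have : (pp m : ℝ) = 0 := le_antisymm (not_lt.1 hneg) (Nat.cast_nonneg _)
    rw [this] at hy0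
    simp at hy0
  have hCC : CC * √x = 2 * lam := by
    unfold CC
    rw [mul_assoc, ← Real.sqrt_mul (by norm_num), hlam, ← Real.sqrt_sq hpi.le,
      ← Real.sqrt_mul (by positivity), ← Real.sqrt_sq (show (0 : ℝ) ≤ 2 by norm_num),
      ← Real.sqrt_mul (by positivity), Real.sqrt_sq (show (0 : ℝ) ≤ 2 by norm_num)]
    congr 1
    rw [ha]; ring
  have e5 : 2 * Real.pi * pp m / T0 = pp m / (s / Real.pi * (Real.exp (2 * lam) * u / x)) := by
    rw [hT0, hl2]; field_simp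
  have e6 : Real.log (2 * Real.pi * pp m / T0)
      = Real.log (pp m) - ff x - Real.log (s / Real.pi) := by
    unfold ff
    rw [e5, hCC, Real.log_div hpp.ne' (by positivity), Real.log_mul (by positivity) (by positivity),
      Real.log_div (by positivity) hx0.ne', Real.log_mul (by positivity) hu0.ne', Real.log_exp]
    ring
  rw [← e6]
  have ht2 : Real.exp (-(0.0003 * lam)) ≤ Real.exp (-0.0003 * √(m : ℝ)) :=
    Real.exp_le_exp.2 (by linarith)
  linarith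

end Pool.Agent.MP_9cfd17_nt

end

section

namespace Pool.Agent.MP_9cfd17_nt

theorem cc_Asym : 5 / 2 ≤ CC ∧ CC ≤ 3 := by
  have h1 : (0.81 : ℝ) ≤ √(2 / 3) := Real.le_sqrt_of_sq_le (by norm_num)
  have h2 : √(2 / 3) ≤ (0.9 : ℝ) := Real.sqrt_le_iff.2 (by norm_num)
  have h3 := Real.pi_gt_d2
  have h4 := Real.pi_lt_d2
  unfold CC
  constructor <;> nlinarith

theorem log_Asym {t : ℝ} (h1 : 1 / 2 ≤ t) (h2 : t ≤ 1) :
    -(2 * (1 - t)) ≤ Real.log t ∧ Real.log t ≤ 0 := by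
  have h0 : 0 < t := by linarith
  refine ⟨le_trans ?_ (Real.one_sub_inv_le_log_of_pos h0), Real.log_nonpos h0.le h2⟩
  have : t⁻¹ ≤ 3 - 2 * t := by
    rw [inv_le_iff_one_le_mul₀ h0]
    nlinarith
  linarith

theorem ff_Asym {s : ℝ} (hs : 3 ≤ s) :
    19 / 8 * s - 34 ≤ ff (s ^ 2 - 1 / 24) ∧ ff (s ^ 2 - 1 / 24) ≤ 3 * s := by
  obtain ⟨c1, c2⟩ := cc_Asym
  have hx : 1 ≤ s ^ 2 - 1 / 24 := by nlinarith
  have y1 : s - 1 ≤ √(s ^ 2 - 1 / 24) := Real.le_sqrt_of_sq_le (by nlinarith)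
  have y2 : √(s ^ 2 - 1 / 24) ≤ s := Real.sqrt_le_iff.2 ⟨by linarith, by linarith⟩
  have l0 := Real.log_nonneg hx
  have l1 : Real.log (s ^ 2 - 1 / 24) ≤ s / 8 + 30 := by
    have a1 : Real.log (s ^ 2 - 1 / 24) ≤ Real.log (s ^ 2) :=
      Real.log_le_log (by linarith) (by linarith)
    have a2 := Real.log_le_sub_one_of_pos (show 0 < s / 16 by linarith)
    have a3 := Real.log_le_sub_one_of_pos (show (0 : ℝ) < 16 by norm_num)
    rw [Real.log_div (by linarith) (by norm_num)] at a2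
    rw [Real.log_pow] at a1
    push_cast at a1
    linarith
  unfold ff
  generalize √(s ^ 2 - 1 / 24) = y at *
  have p1 : 5 / 2 * y ≤ CC * y := by nlinarith
  have p2 : CC * y ≤ 3 * y := by nlinarith
  have p3 : 0 < CC * y := by linarith
  have p4 : 1 / (CC * y) ≤ 1 / 2 := one_div_le_one_div_of_le two_pos (by linarith)
  have p5 : 0 < 1 / (CC * y) := one_div_pos.2 p3
  obtain ⟨q1, q2⟩ := log_Asym (t := 1 - 1 / (CC * y)) (by linarith) (by linarith)
  constructor <;> linarith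

theorem asym (h1 : HRStmt) (h2 : QStmt) : AsymStmt := by
  obtain ⟨c, κ, hc, m0, h⟩ := h1
  obtain ⟨d, d0, d1, d2⟩ : ∃ d : ℝ, 0 < d ∧ d ≤ c ∧ d ≤ 1 / 4 :=
    ⟨min c (1 / 4), by positivity, min_le_left _ _, min_le_right _ _⟩
  refine ⟨d / 2, 2 * κ, by positivity, max m0 ⌈(300 + 8 * |κ| + 10 / d) ^ 2⌉₊, fun m hm => ?_⟩
  have h := h m (le_of_max_le_left hm)
  obtain ⟨q1, q2, q3⟩ := h2 m
  have hs : 300 + 8 * |κ| + 10 / d ≤ √m :=
    Real.le_sqrt_of_sq_le (Nat.ceil_le.1 (le_of_max_le_right hm))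
  have e : (m : ℝ) = √m ^ 2 := (Real.sq_sqrt m.cast_nonneg).symm
  have k0 := abs_nonneg κ
  have k1 := le_abs_self κ
  have k2 := neg_abs_le κ
  have k3 : 0 < 10 / d := by positivity
  obtain ⟨f1, f2⟩ := ff_Asym (s := √m) (by linarith)
  rw [← e] at f1 f2
  have q0 : (0 : ℝ) < qq m := Nat.cast_pos.2 q1
  have p0 : (0 : ℝ) < pp m := Nat.cast_pos.2 (q1.trans q2)
  have r0 : (0 : ℝ) < qq m / pp m := div_pos q0 p0
  have r1 : (qq m / pp m : ℝ) ≤ 1 := (div_le_one p0).2 (Nat.cast_le.2 q2)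
  have eF : (FF m : ℝ) = pp m ^ 2 * (1 - 2 * (qq m / pp m) + 2 * (qq m / pp m) ^ 2) := by
    rw [FF]
    push_cast [Nat.cast_sub q2]
    field_simp
    ring
  generalize √(m : ℝ) = s at *
  have s0 : 0 ≤ s := by linarith
  have m1 := mul_le_mul_of_nonneg_right d1 s0
  have m2 := mul_le_mul_of_nonneg_right d2 s0
  have m3 := mul_nonneg d0.le s0
  have m4 := mul_le_mul_of_nonneg_left (show 8 + 2 * |κ| ≤ s by linarith) s0
  have m5 := mul_le_mul_of_nonneg_right (show 1 ≤ s by linarith) k0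
  have e1 : Real.exp (-c * s) ≤ Real.exp (-d * s) := Real.exp_le_exp.2 (by linarith)
  have e2 : Real.exp (-d * s) ≤ 1 := Real.exp_le_one_iff.2 (by linarith)
  obtain ⟨a1, a2⟩ := abs_le.1 h
  have r2 : (qq m / pp m : ℝ) ≤ Real.exp (-d * s) := by
    rw [div_le_iff₀ p0, ← Real.exp_log p0, ← Real.exp_add]
    exact q3.trans (Real.exp_le_exp.2 (by linarith))
  have e3 : 6 * Real.exp (-d * s) ≤ Real.exp (-(d / 2) * s) := by
    have b1 : 10 ≤ s * d := (div_le_iff₀ d0).1 (by linarith)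
    have b2 := Real.add_one_le_exp (d / 2 * s)
    rw [show -(d / 2) * s = d / 2 * s + -d * s by ring, Real.exp_add]
    exact mul_le_mul_of_nonneg_right (by linarith) (Real.exp_pos _).le
  generalize (qq m / pp m : ℝ) = r at *
  have t1 : 1 / 2 ≤ 1 - 2 * r + 2 * r ^ 2 := by linarith [sq_nonneg (2 * r - 1)]
  obtain ⟨l1, l2⟩ := log_Asym t1 (by linarith [mul_le_mul_of_nonneg_left r1 r0.le])
  have eL : Real.log (FF m) = 2 * Real.log (pp m) + Real.log (1 - 2 * r + 2 * r ^ 2) := by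
    rw [eF, Real.log_mul (by positivity) (by linarith), Real.log_pow]
    norm_num
  refine ⟨Nat.cast_pos.1 (eF ▸ mul_pos (by positivity) (by linarith) : (0 : ℝ) < FF m), ?_, ?_⟩
  · rw [eL]
    linarith
  · rw [eL, abs_le]
    constructor <;> linarith [sq_nonneg r]

end Pool.Agent.MP_9cfd17_nt

end

section

/-! Few vanishing moments for integer weights at well separated points. -/

namespace Pool.Agent.MP_9cfd17_nt

open Polynomial

theorem vanish : VanishStmt := by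
  classical
  intro ι T s Q α V B j hα hV hs hQ hB hm
  obtain ⟨i₀, h₀, hmin⟩ := (T.filter fun i => Q i ≠ 0).exists_min_image s
    (by obtain ⟨i, hi, h⟩ := hQ; exact ⟨i, Finset.mem_filter.2 ⟨hi, h⟩⟩)
  obtain ⟨hT, hQ₀⟩ := Finset.mem_filter.1 h₀
  have q1 : (1 : ℝ) ≤ |(Q i₀ : ℝ)| := by exact_mod_cast Int.one_le_abs hQ₀
  have hsum := Finset.add_sum_erase T (fun i => |(Q i : ℝ)|) hT
  have e0 : 0 ≤ ∑ i ∈ T.erase i₀, |(Q i : ℝ)| := Finset.sum_nonneg fun _ _ => abs_nonneg _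
  have r1 : 1 ≤ √V := Real.one_le_sqrt.2 hV
  have r0 : 0 < √V := by linarith
  rcases j with _ | k
  · have := mul_nonneg r0.le (Real.log_nonneg (show 1 ≤ 2 * B by linarith))
    push_cast
    linarith
  set θ := (√V)⁻¹ with hθ
  set c := Real.cosh θ with hc
  have c1 : 1 ≤ c := Real.one_le_cosh θ
  have t2 : θ ^ 2 * V = 1 := by
    rw [hθ, inv_pow, Real.sq_sqrt (by linarith), inv_mul_cancel₀ (by linarith)]
  have c2 : (c - 1) * V ≤ 1 := by
    have h1 : |θ ^ 2 / 2| = θ ^ 2 / 2 := abs_of_nonneg (by positivity)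
    have h2 := Real.abs_exp_sub_one_le (x := θ ^ 2 / 2) (by rw [h1]; nlinarith [sq_nonneg θ])
    have h3 := (Real.cosh_le_exp_half_sq θ).trans_eq' hc
    have h4 := le_abs_self (Real.exp (θ ^ 2 / 2) - 1)
    nlinarith
  set P : ℝ[X] := (Chebyshev.T ℝ k).comp (C (-((c - 1) / α)) * X + C (c + (c - 1) / α * s i₀))
    with hP
  have dP : P.natDegree < k + 1 := by
    refine Nat.lt_succ_of_le (natDegree_comp_le.trans ?_)
    rw [Chebyshev.natDegree_T, Int.natAbs_natCast]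
    exact mul_le_of_le_one_right' natDegree_linear_le
  have eP : ∀ x, P.eval x = (Chebyshev.T ℝ k).eval (c - (c - 1) * ((x - s i₀) / α)) := fun x => by
    rw [hP, eval_comp]
    congr 1
    simp only [eval_add, eval_mul, eval_C, eval_X]
    ring
  have z : ∑ i ∈ T, (Q i : ℝ) * P.eval (s i) = 0 := by
    simp only [eval_eq_sum_range' dP, Finset.mul_sum]
    rw [Finset.sum_comm]
    refine Finset.sum_eq_zero fun l hl => ?_
    simp only [mul_left_comm _ (P.coeff l), ← Finset.mul_sum, hm l (Finset.mem_range.1 hl),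
      mul_zero]
  have b : |∑ i ∈ T.erase i₀, (Q i : ℝ) * P.eval (s i)| ≤ ∑ i ∈ T.erase i₀, |(Q i : ℝ)| := by
    refine (Finset.abs_sum_le_sum_abs _ _).trans (Finset.sum_le_sum fun i hi => ?_)
    obtain ⟨hne, hi⟩ := Finset.mem_erase.1 hi
    rcases eq_or_ne (Q i) 0 with h | h
    · simp [h]
    obtain ⟨a1, a2⟩ := hs i hi i₀ hT hne
    rw [abs_of_nonneg (sub_nonneg.2 (hmin i (Finset.mem_filter.2 ⟨hi, h⟩)))] at a1 a2
    have d1 : 1 ≤ (s i - s i₀) / α := (one_le_div hα).2 a1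
    have d2 : (s i - s i₀) / α ≤ V := (div_le_iff₀' hα).2 a2
    rw [abs_mul, eP]
    exact mul_le_of_le_one_right (abs_nonneg _)
      (Chebyshev.abs_eval_T_real_le_one _ (abs_le.2 ⟨by nlinarith, by nlinarith⟩))
  rw [← Finset.add_sum_erase T _ hT, eP, sub_self, zero_div, mul_zero, sub_zero, hc,
    Chebyshev.T_real_cosh, add_eq_zero_iff_neg_eq] at z
  rw [← z, abs_neg, abs_mul, abs_of_pos (Real.cosh_pos _), Int.cast_natCast] at b
  have x : Real.exp (k * θ) ≤ 2 * B := by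
    have h1 := Real.cosh_eq (k * θ)
    nlinarith [Real.exp_pos (-(k * θ)), Real.cosh_pos (k * θ)]
  have y := (Real.le_log_iff_exp_le ((Real.exp_pos _).trans_le x)).2 x
  rw [hθ, ← div_eq_mul_inv, div_le_iff₀' r0] at y
  push_cast
  linarith

end Pool.Agent.MP_9cfd17_nt

end

section

/-! A Schwarz lemma with approximate zeros, by the Cauchy formula. -/

namespace Pool.Agent.MP_9cfd17_nt

open Complex Metric Filter Topology

theorem pf0_Schwarz {ι : Type} [DecidableEq ι] (T : Finset ι) (ω : ι → ℂ) (hi : Set.InjOn ω T)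
    (hT : T.Nonempty) (u : ℂ) (hu : ∀ i ∈ T, u ≠ ω i) :
    (∏ i ∈ T, (u - ω i))⁻¹ = ∑ i ∈ T, Lagrange.nodalWeight T ω i * (u - ω i)⁻¹ := by
  have e := Lagrange.eval_interpolate_not_at_node (s := T) (v := ω) 1 hu
  rw [Lagrange.interpolate_one hi hT, Polynomial.eval_one, Lagrange.eval_nodal] at e
  simp only [Pi.one_apply, mul_one] at e
  exact inv_eq_of_mul_eq_one_right e.symm

theorem pf_Schwarz {ι : Type} [DecidableEq ι] (T : Finset ι) (ω : ι → ℂ) (hi : Set.InjOn ω T)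
    (h0 : ∀ i ∈ T, ω i ≠ 0) (u : ℂ) (hu0 : u ≠ 0) (hu : ∀ i ∈ T, u ≠ ω i) :
    u⁻¹ * (∏ i ∈ T, (u - ω i))⁻¹ = (∏ i ∈ T, (0 - ω i))⁻¹ * (u - 0)⁻¹ +
      ∑ i ∈ T, Lagrange.nodalWeight T ω i / ω i * (u - ω i)⁻¹ := by
  rcases T.eq_empty_or_nonempty with rfl | hT
  · simp
  rw [pf0_Schwarz T ω hi hT u hu, pf0_Schwarz T ω hi hT 0 fun i h => (h0 i h).symm,
    Finset.mul_sum, Finset.sum_mul, ← Finset.sum_add_distrib]
  refine Finset.sum_congr rfl fun i h => ?_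
  have a := h0 i h
  have b := sub_ne_zero.2 (hu i h)
  rw [zero_sub, sub_zero]
  field_simp
  ring

theorem cau_Schwarz {ι : Type} [DecidableEq ι] (T : Finset ι) (ω : ι → ℂ) (g : ℂ → ℂ) (ρ : ℝ)
    (hρ : 0 < ρ) (hc : ContinuousOn g (closedBall 0 ρ))
    (hd : ∀ x ∈ ball (0 : ℂ) ρ \ {0}, DifferentiableAt ℂ g x) (hi : Set.InjOn ω T)
    (h0 : ∀ i ∈ T, ω i ≠ 0 ∧ ‖ω i‖ < ρ) :
    (∮ u in C(0, ρ), u⁻¹ * (∏ i ∈ T, (u - ω i))⁻¹ * g u) =
      (2 * Real.pi * I) * ((∏ i ∈ T, (0 - ω i))⁻¹ * g 0 +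
        ∑ i ∈ T, Lagrange.nodalWeight T ω i / ω i * g (ω i)) := by
  have cf : ∀ w : ℂ, ‖w‖ < ρ → (∮ u in C(0, ρ), (u - w)⁻¹ * g u) = (2 * Real.pi * I) * g w :=
    fun w hw => circleIntegral_sub_inv_smul_of_differentiable_on_off_countable
      (Set.countable_singleton 0) (mem_ball_zero_iff.2 hw) hc hd
  have ne : ∀ w : ℂ, ‖w‖ < ρ → ∀ u ∈ sphere (0 : ℂ) ρ, u ≠ w := fun w hw u hu e => by
    rw [mem_sphere_zero_iff_norm, e] at hu
    exact hw.ne hu
  have ci : ∀ c w : ℂ, ‖w‖ < ρ → ContinuousOn (fun u => c * ((u - w)⁻¹ * g u)) (sphere 0 ρ) :=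
    fun c w hw => continuousOn_const.mul (((continuousOn_id.sub continuousOn_const).inv₀
      fun u hu => sub_ne_zero.2 (ne w hw u hu)).mul (hc.mono sphere_subset_closedBall))
  have z0 : ‖(0 : ℂ)‖ < ρ := by simpa using hρ
  rw [circleIntegral.integral_congr hρ.le (g := fun u =>
    (∏ i ∈ T, (0 - ω i))⁻¹ * ((u - 0)⁻¹ * g u) +
      ∑ i ∈ T, Lagrange.nodalWeight T ω i / ω i * ((u - ω i)⁻¹ * g u)) fun u hu => by
      beta_reduce
      rw [pf_Schwarz T ω hi (fun i h => (h0 i h).1) u (ne 0 z0 u hu)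
        fun i h => ne _ (h0 i h).2 u hu, add_mul, Finset.sum_mul]
      simp only [mul_assoc],
    circleIntegral.integral_add ((ci _ 0 z0).circleIntegrable hρ.le)
      ((continuousOn_finsetSum T fun i h => ci _ _ (h0 i h).2).circleIntegrable hρ.le),
    circleIntegral.integral_fun_sum fun i h => (ci _ _ (h0 i h).2).circleIntegrable hρ.le,
    circleIntegral.integral_const_mul, cf 0 z0, mul_add, Finset.mul_sum]
  congr 1
  · ring
  · refine Finset.sum_congr rfl fun i h => ?_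
    rw [circleIntegral.integral_const_mul, cf _ (h0 i h).2]
    ring

theorem schwarz : SchwarzStmt := by
  intro ι _ T ω Φ ρ σ M κ a hσ hρ hd hM ha hi hω
  have hρ0 : 0 < ρ := by linarith
  set g : ℂ → ℂ := Function.update (fun u => Φ u / u ^ κ) 0 a with hg
  have g0 : g 0 = a := Function.update_self ..
  have g1 : ∀ u : ℂ, u ≠ 0 → g u = Φ u / u ^ κ := fun u hu => Function.update_of_ne hu ..
  have gd : ∀ x : ℂ, ‖x‖ ≤ ρ → x ≠ 0 → DifferentiableAt ℂ g x := fun x hx h0 => by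
    have e : g =ᶠ[𝓝 x] fun u => Φ u / u ^ κ :=
      (eventually_ne_nhds h0).mono fun u hu => g1 u hu
    refine DifferentiableAt.congr_of_eventuallyEq ?_ e
    exact (hd.differentiableAt (isOpen_ball.mem_nhds (mem_ball_zero_iff.2 (by linarith)))).div
      (by fun_prop) (pow_ne_zero _ h0)
  have gc : ContinuousOn g (closedBall 0 ρ) := fun x hx => by
    by_cases h0 : x = 0
    · subst h0
      exact (continuousAt_update_same.2 ha).continuousWithinAt
    · exact (gd x (mem_closedBall_zero_iff.1 hx) h0).continuousAt.continuousWithinAt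
  have key := cau_Schwarz T ω g ρ hρ0 gc
    (fun x hx => gd x (mem_ball_zero_iff.1 hx.1).le hx.2) hi
    fun i h => ⟨(hω i h).1, by linarith [(hω i h).2]⟩
  have bd := circleIntegral.norm_integral_le_of_norm_le_const (c := 0) hρ0.le
    (f := fun u => u⁻¹ * (∏ i ∈ T, (u - ω i))⁻¹ * g u)
    (C := ρ⁻¹ * ((ρ / 2) ^ T.card)⁻¹ * (M / ρ ^ κ)) fun u hu => by
      have nu := mem_sphere_zero_iff_norm.1 hu
      have u0 : u ≠ 0 := fun e => by
        rw [e, norm_zero] at nu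
        exact hρ0.ne nu
      have l : (ρ / 2) ^ T.card ≤ ‖∏ i ∈ T, (u - ω i)‖ := by
        rw [norm_prod, ← Finset.prod_const]
        refine Finset.prod_le_prod (fun _ _ => by positivity) fun i h => ?_
        have := norm_sub_norm_le u (ω i)
        linarith [(hω i h).2]
      rw [norm_mul, norm_mul, norm_inv, norm_inv, g1 u u0, norm_div, norm_pow, nu]
      have := hM u hu
      gcongr
  have M0 : 0 ≤ M := (norm_nonneg _).trans (hM ρ (by simp [abs_of_pos hρ0]))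
  rw [key, norm_mul, g0] at bd
  have n2 : ‖(2 * Real.pi * I : ℂ)‖ = 2 * Real.pi := by
    simp [abs_of_pos Real.pi_pos]
  rw [n2, mul_assoc (2 * Real.pi), mul_le_mul_iff_right₀ (by positivity)] at bd
  set N : ℂ := ∏ i ∈ T, (0 - ω i) with hN
  have N0 : N ≠ 0 := Finset.prod_ne_zero_iff.2 fun i h => by simpa using (hω i h).1
  have nN : ‖N‖ = ∏ i ∈ T, ‖ω i‖ := by
    rw [hN, norm_prod]
    simp
  have Nle : ‖N‖ ≤ σ ^ T.card := by
    rw [nN, ← Finset.prod_const]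
    exact Finset.prod_le_prod (fun _ _ => norm_nonneg _) fun i h => (hω i h).2
  set S : ℂ := ∑ i ∈ T, Lagrange.nodalWeight T ω i / ω i * g (ω i) with hS
  have e : a = N * (N⁻¹ * a + S) - N * S := by
    field_simp
    ring
  rw [e]
  refine (norm_sub_le _ _).trans (add_le_add ?_ ?_)
  · rw [norm_mul]
    calc ‖N‖ * ‖N⁻¹ * a + S‖ ≤ σ ^ T.card * (ρ * (ρ⁻¹ * ((ρ / 2) ^ T.card)⁻¹ * (M / ρ ^ κ))) := by
          gcongr
      _ = _ := by
          rw [div_pow, div_pow, mul_pow]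
          field_simp
  · rw [hS, Finset.mul_sum]
    refine (norm_sum_le _ _).trans (Finset.sum_le_sum fun i h => le_of_eq ?_)
    have w0 : ‖ω i‖ ≠ 0 := norm_ne_zero_iff.2 (hω i h).1
    rw [norm_mul, norm_mul, norm_div, nN, g1 _ (hω i h).1, norm_div, norm_pow,
      ← Finset.mul_prod_erase T _ h, Lagrange.nodalWeight, norm_prod, Finset.prod_div_distrib]
    simp only [norm_inv, Finset.prod_inv_distrib]
    field_simp

end Pool.Agent.MP_9cfd17_nt

end

section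

/-! Elementary facts about the logarithmic correction, and the lemma of Siegel. -/

namespace Pool.Agent.MP_9cfd17_nt

open Complex Metric

theorem norm_LgS (u : ℂ) : ‖sq u‖ = √‖1 + u‖ := by
  rw [sq, Real.sqrt_eq_rpow, ← norm_cpow_real]
  norm_num

theorem diff_LgS {u : ℂ} (h : ‖u‖ < 1) : DifferentiableAt ℂ sq u :=
  (differentiableAt_id.const_add 1).cpow_const (mem_slitPlane_of_norm_lt_one h)

theorem half_LgS {u : ℂ} (h : ‖u‖ ≤ 3 / 4) : 1 / 2 ≤ ‖sq u‖ := by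
  rw [norm_LgS]
  refine Real.le_sqrt_of_sq_le ?_
  have := norm_sub_le (1 + u) u
  rw [add_sub_cancel_right, norm_one] at this
  linarith

theorem div_LgS {e u : ℂ} (he : ‖e‖ ≤ 1 / 4) (h : ‖u‖ ≤ 3 / 4) : ‖-(e / sq u)‖ ≤ 1 / 2 := by
  have := half_LgS h
  rw [norm_neg, norm_div, div_le_iff₀ (by linarith)]
  linarith

theorem CC_LgS : 5 / 2 ≤ CC ∧ CC ≤ 3 := by
  have a : (4 / 5 : ℝ) ≤ √(2 / 3) := Real.le_sqrt_of_sq_le (by norm_num)
  have b : √(2 / 3) ≤ (9 / 10 : ℝ) := Real.sqrt_le_iff.2 (by norm_num)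
  unfold CC
  constructor <;> nlinarith [Real.pi_gt_d2, Real.pi_lt_d2]

theorem lgs : LgStmt := by
  refine ⟨fun u hu => (diff_LgS ((mem_ball_zero_iff.1 hu).trans
    (by norm_num))).differentiableWithinAt, fun u hu => ?_, fun e u he hu => ?_,
    fun e u he hu => ?_, fun X u hX hu => ?_, CC_LgS⟩
  · rw [norm_LgS, Real.sqrt_le_iff]
    have := norm_add_le 1 u
    rw [norm_one] at this
    exact ⟨by norm_num, by linarith [mem_closedBall_zero_iff.1 hu]⟩
  · have h1 : ‖u‖ < 1 := by linarith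
    have c : DifferentiableAt ℂ (fun p : ℂ × ℂ => sq p.2) (e, u) :=
      DifferentiableAt.comp (g := sq) (f := Prod.snd) (e, u) (diff_LgS h1) differentiableAt_snd
    have a : DifferentiableAt ℂ (fun p : ℂ × ℂ => 1 - p.1 / sq p.2) (e, u) :=
      (differentiableAt_fst.mul (c.inv
        (norm_pos_iff.1 ((half_LgS hu.le).trans_lt' (by norm_num))))).const_sub 1
    have b : DifferentiableAt ℂ (fun p : ℂ × ℂ => 1 + p.2) (e, u) := by fun_prop
    exact (a.clog (mem_slitPlane_of_norm_lt_one ((div_LgS he.le hu.le).trans_lt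
      (by norm_num)))).sub (b.clog (mem_slitPlane_of_norm_lt_one h1))
  · have a := div_LgS he (hu.trans (by norm_num))
    have b := norm_log_one_add_half_le_self a
    have c := norm_log_one_add_half_le_self hu
    rw [← sub_eq_add_neg] at b
    exact (norm_sub_le _ _).trans (by linarith)
  · have h1 : 1 / 2 ≤ 1 + u := by linarith [(abs_le.1 hu).1]
    have a : (2 : ℝ) ≤ √X := Real.le_sqrt_of_sq_le (by linarith)
    have b : 1 / 2 ≤ √(1 + u) := Real.le_sqrt_of_sq_le (by linarith)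
    have c : sq u = (√(1 + u) : ℝ) := by
      rw [sq, Real.sqrt_eq_rpow, ofReal_cpow (by linarith)]
      norm_num
    have d : 1 ≤ CC * (√X * √(1 + u)) := by
      nlinarith [CC_LgS.1, mul_le_mul a b (by norm_num) (by linarith)]
    rw [ff, Lg, c, Real.sqrt_mul (by linarith), Real.log_mul (by linarith) (by linarith),
      ofReal_sub, ofReal_add, ofReal_add, ofReal_log (sub_nonneg.2 (div_le_one_of_le₀ d
        (by linarith))), ofReal_log (x := 1 + u) (by linarith)]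
    push_cast
    rw [div_div, mul_assoc]
    ring

theorem fac_LgS {a : ℕ} {L : ℝ} (h1 : 1 ≤ L) (h : 0 < a) (hL : Real.log a ≤ L) (p : ℕ) :
    (a.factorization p : ℝ) ≤ 2 * L := by
  by_cases hp : p.Prime
  · have : ((2 ^ a.factorization p : ℕ) : ℝ) ≤ a := Nat.cast_le.2
      ((Nat.pow_le_pow_left hp.two_le _).trans (Nat.ordProj_le p h.ne'))
    have := Real.log_le_log (by positivity) this
    rw [Nat.cast_pow, Real.log_pow, Nat.cast_ofNat] at this
    nlinarith [Real.log_two_gt_d9, Nat.cast_nonneg (α := ℝ) (a.factorization p)]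
  · rw [Nat.factorization_eq_zero_of_not_prime _ hp, Nat.cast_zero]
    linarith

theorem siegel : SiegelStmt := by
  intro ι τ T Y S a L hL ha hc
  classical
  have c1 : Fintype.card (Option (S × Y)) = S.card * Y.card + 1 := by simp
  obtain ⟨t, t0, t1, t2⟩ := Int.Matrix.exists_ne_zero_int_vec_norm_le
    (Matrix.of fun (r : Option (S × Y)) (i : T) =>
      r.elim (1 : ℤ) fun q => ((a i q.2).factorization q.1 : ℤ))
    (by rw [c1, Fintype.card_coe]; omega) Fintype.card_pos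
  rw [c1, Fintype.card_coe] at t2
  have hc' : 2 * ((S.card * Y.card + 1 : ℕ) : ℝ) ≤ T.card := by exact_mod_cast hc
  have m0 : (1 : ℝ) ≤ (S.card * Y.card + 1 : ℕ) := by exact_mod_cast Nat.le_add_left 1 _
  have t3 : ‖t‖ ≤ T.card * (2 * L) := t2.trans ((Real.rpow_le_self_of_one_le
    (one_le_mul_of_one_le_of_one_le (by linarith) (le_max_left _ _))
    (div_le_one_of_le₀ (by linarith) (by linarith))).trans
    (mul_le_mul_of_nonneg_left (max_le (by linarith) ((Matrix.norm_le_iff (by linarith)).2 (by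
      rintro (_ | q) i
      · simp only [Matrix.of_apply, Option.elim, norm_one]
        linarith
      · simpa using fac_LgS hL (ha i i.2 _ q.2.2).1 (ha i i.2 _ q.2.2).2.1 _))) (by positivity)))
  have e : ∀ i : T, (if h : i.1 ∈ T then t ⟨i, h⟩ else 0) = t i := fun i => dif_pos i.2
  refine ⟨fun i => if h : i ∈ T then t ⟨i, h⟩ else 0, ?_, ?_, ?_, fun y hy => ?_⟩
  · obtain ⟨i, hi⟩ := Function.ne_iff.1 t0
    exact ⟨i, i.2, (e i).trans_ne hi⟩
  · rw [← Finset.sum_coe_sort]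
    refine (Finset.sum_le_card_nsmul _ _ _ fun i _ => ?_).trans_eq
      (show _ • (T.card * (2 * L)) = _ by simp; ring)
    simp only [e]
    exact (norm_le_pi_norm t i).trans t3
  · rw [← Finset.sum_coe_sort]
    simpa [Matrix.mulVec, dotProduct] using congrFun t1 none
  · rw [← Finset.sum_coe_sort]
    have f : ∀ i : T, Real.log (a i y) = ∑ p : S, (a i y).factorization p * Real.log p :=
      fun i => by
        rw [Real.log_nat_eq_sum_factorization, Finsupp.sum_of_support_subset _ (s := S)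
          (fun p hp => (ha i i.2 y hy).2.2 p (Nat.prime_of_mem_primeFactors hp)
            (Nat.dvd_of_mem_primeFactors hp)) _ (by simp), ← Finset.sum_coe_sort]
    simp only [e, f, Finset.mul_sum]
    rw [Finset.sum_comm]
    refine Finset.sum_eq_zero fun p _ => ?_
    have : ∑ i : T, ((a i y).factorization p : ℤ) * t i = 0 := congrFun t1 (some (p, ⟨y, hy⟩))
    simp only [mul_comm] at this
    have : ∑ i : T, t i * ((a i y).factorization p : ℝ) = 0 := by exact_mod_cast this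
    simp only [← mul_assoc, ← Finset.sum_mul, this, zero_mul]

end Pool.Agent.MP_9cfd17_nt

end

section

/-! The asymptotic formula with exponentially small relative error, unconditionally. -/

namespace Pool.Agent.MP_9cfd17_nt

theorem hr_main : HRStmt :=
  hr gen (coeff gen) (small gen) minor modular ss (chord ss) gauss

theorem asym_main : AsymStmt := asym hr_main qst

end Pool.Agent.MP_9cfd17_nt

end
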