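import Mathlib

section

/-! Definitions and stub statements for MP_9cfd17_nt (many prime factors of `q² + q̄²`). -/

namespace Pool.Agent.MP_9cfd17_nt

open Complex Metric Filter Topology

/-- number of partitions -/
def pp (m : ℕ) : ℕ := Fintype.card (Nat.Partition m)
/-- number of partitions into distinct parts -/
def qq (m : ℕ) : ℕ := (Nat.Partition.distincts m).card
/-- `q(m)² + q̄(m)²` -/
def FF (m : ℕ) : ℕ := qq m ^ 2 + (pp m - qq m) ^ 2

noncomputable def CC : ℝ := Real.pi * √(2 / 3)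
/-- logarithm of the Hardy-Ramanujan main term, up to a constant -/
noncomputable def ff (x : ℝ) : ℝ := CC * √x + Real.log (1 - 1 / (CC * √x)) - Real.log x
/-- the partition generating function -/
noncomputable def PP (z : ℂ) : ℂ := (∏' n : ℕ, (1 - z ^ (n + 1)))⁻¹
/-- a holomorphic square root of `w / (2π)` on the right half plane -/
noncomputable def SS (w : ℂ) : ℂ := Complex.sqrt (I * w / (2 * Real.pi)) / Complex.sqrt I
noncomputable def sq (u : ℂ) : ℂ := (1 + u) ^ (1 / 2 : ℂ)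
noncomputable def Lg (e u : ℂ) : ℂ := Complex.log (1 - e / sq u) - Complex.log (1 + u)

def GenStmt : Prop :=
  (∀ z : ℂ, ‖z‖ < 1 → HasSum (fun n : ℕ => (pp n : ℂ) * z ^ n) (PP z)) ∧
  ContinuousOn PP (ball 0 1)

def CoeffStmt : Prop :=
  ∀ (t : ℝ) (n : ℕ), 0 < t → (pp n : ℂ) = (1 / (2 * Real.pi) : ℂ) *
    ∫ θ in (-Real.pi)..Real.pi, PP (exp (-(t + θ * I))) * exp (n * (t + θ * I))

def SmallStmt : Prop :=
  ∃ K : ℝ, 0 < K ∧ ∀ z : ℂ, ‖z‖ ≤ 1 / 2 → ‖PP z - 1‖ ≤ K * ‖z‖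

def MinorStmt : Prop :=
  ∀ t θ : ℝ, 0 < t → |θ| ≤ Real.pi →
    ‖PP (exp (-(t + θ * I)))‖ ≤ ‖PP (exp (-(t : ℂ)))‖ *
      Real.exp (-(1 / 4) * (1 / t - 1 - 1 / √(t ^ 2 + 4 * θ ^ 2 / Real.pi ^ 2)))

def ModularStmt : Prop :=
  ∀ w : ℂ, 0 < w.re → PP (exp (-w)) =
    SS w * exp ((Real.pi : ℂ) ^ 2 / (6 * w) - w / 24) * PP (exp (-(4 * (Real.pi : ℂ) ^ 2) / w))

def SSStmt : Prop :=
  (∀ w : ℂ, ‖SS w‖ = √(‖w‖ / (2 * Real.pi))) ∧
  DifferentiableOn ℂ SS {w : ℂ | 0 < w.re} ∧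
  (∀ (r : ℝ) (e : ℂ), 0 < r → |e.im| < e.re → SS (r * e ^ 2) = (√(r / (2 * Real.pi)) : ℝ) * e)

def ChordStmt : Prop :=
  ∀ w0 : ℝ, 0 < w0 →
    (∫ θ in (-(1 / 5 * √(99 / 100) * w0))..(1 / 5 * √(99 / 100) * w0),
      SS ((49 / 50 * w0 : ℝ) + θ * I) *
        exp ((Real.pi : ℂ) ^ 2 / (6 * ((49 / 50 * w0 : ℝ) + θ * I)) +
          ((Real.pi ^ 2 / 6 / w0 ^ 2 : ℝ) : ℂ) * ((49 / 50 * w0 : ℝ) + θ * I))).re =
    2 * w0 * √(w0 / (2 * Real.pi)) * Real.exp (2 * (Real.pi ^ 2 / 6 / w0)) *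
      ∫ s in (-(1 / 10) : ℝ)..(1 / 10), (1 - 4 * s ^ 2) * Real.exp (-4 * (Real.pi ^ 2 / 6 / w0) * s ^ 2)

def GaussStmt : Prop :=
  ∀ l : ℝ, 1 ≤ l →
    |(∫ s in (-(1 / 10) : ℝ)..(1 / 10), (1 - 4 * s ^ 2) * Real.exp (-4 * l * s ^ 2)) -
      (1 - 1 / (2 * l)) * √(Real.pi / (4 * l))| ≤ 3 * Real.exp (-l / 50)

def HRStmt : Prop :=
  ∃ c κ : ℝ, 0 < c ∧ ∃ m0 : ℕ, ∀ m : ℕ, m0 ≤ m →
    |Real.log (pp m) - ff (m - 1 / 24) - κ| ≤ Real.exp (-c * √m)

def QStmt : Prop := ∀ m : ℕ, 1 ≤ qq m ∧ qq m ≤ pp m ∧ (qq m : ℝ) ≤ Real.exp (2 * √m)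

def AsymStmt : Prop :=
  ∃ c κ : ℝ, 0 < c ∧ ∃ m0 : ℕ, ∀ m : ℕ, m0 ≤ m →
    0 < FF m ∧ Real.log (FF m) ≤ m ∧
    |Real.log (FF m) - 2 * ff (m - 1 / 24) - κ| ≤ Real.exp (-c * √m)

def VanishStmt : Prop :=
  ∀ (ι : Type) (T : Finset ι) (s : ι → ℝ) (Q : ι → ℤ) (α V B : ℝ) (j : ℕ),
    0 < α → 1 ≤ V →
    (∀ i ∈ T, ∀ i' ∈ T, i ≠ i' → α ≤ |s i - s i'| ∧ |s i - s i'| ≤ α * V) →
    (∃ i ∈ T, Q i ≠ 0) → (∑ i ∈ T, |(Q i : ℝ)|) ≤ B →
    (∀ l < j, ∑ i ∈ T, (Q i : ℝ) * s i ^ l = 0) →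
    (j : ℝ) ≤ 2 + √V * Real.log (2 * B)

def SchwarzStmt : Prop :=
  ∀ (ι : Type) [DecidableEq ι] (T : Finset ι) (ω : ι → ℂ) (Φ : ℂ → ℂ) (ρ σ M : ℝ) (κ : ℕ) (a : ℂ),
    0 < σ → 2 * σ ≤ ρ → DifferentiableOn ℂ Φ (ball 0 (6 / 5 * ρ)) →
    (∀ u ∈ sphere (0 : ℂ) ρ, ‖Φ u‖ ≤ M) →
    Tendsto (fun u => Φ u / u ^ κ) (𝓝[≠] 0) (𝓝 a) →
    Set.InjOn ω T → (∀ i ∈ T, ω i ≠ 0 ∧ ‖ω i‖ ≤ σ) →
    ‖a‖ ≤ M / ρ ^ κ * (2 * σ / ρ) ^ T.card +
      ∑ i ∈ T, ‖Φ (ω i)‖ / ‖ω i‖ ^ κ * ∏ i' ∈ T.erase i, ‖ω i'‖ / ‖ω i - ω i'‖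

def TaylorStmt : Prop :=
  ∀ (G : ℂ → ℂ) (M : ℝ) (j : ℕ), DifferentiableOn ℂ G (ball 0 (3 / 4)) →
    (∀ u ∈ closedBall (0 : ℂ) (1 / 2), ‖G u‖ ≤ M) →
    ‖iteratedDeriv j G 0 / (j.factorial : ℂ)‖ ≤ M * 2 ^ j ∧
    ∀ u : ℂ, ‖u‖ ≤ 1 / 4 →
      ‖G u - ∑ l ∈ Finset.range (j + 1), iteratedDeriv l G 0 / (l.factorial : ℂ) * u ^ l‖ ≤
        2 * M * (2 * ‖u‖) ^ (j + 1)

def CoefStmt : Prop :=
  ∀ j : ℕ, 1 ≤ j →
    1 / (4 * (j : ℝ) ^ 2) ≤ ‖iteratedDeriv j sq 0 / (j.factorial : ℂ)‖ ∧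
    ∀ e : ℂ, ‖e‖ ≤ 1 / (4 * ((j : ℝ) + 1)) →
      ‖iteratedDeriv j (Lg e) 0 / (j.factorial : ℂ)‖ ≤ 30 * j

def LgStmt : Prop :=
  DifferentiableOn ℂ sq (ball 0 (3 / 4)) ∧
  (∀ u ∈ closedBall (0 : ℂ) (1 / 2), ‖sq u‖ ≤ 2) ∧
  (∀ e u : ℂ, ‖e‖ < 1 / 4 → ‖u‖ < 3 / 4 →
    DifferentiableAt ℂ (fun p : ℂ × ℂ => Lg p.1 p.2) (e, u)) ∧
  (∀ e u : ℂ, ‖e‖ ≤ 1 / 4 → ‖u‖ ≤ 1 / 2 → ‖Lg e u‖ ≤ 5) ∧
  (∀ X u : ℝ, 4 ≤ X → |u| ≤ 1 / 2 →
    (ff (X * (1 + u)) : ℂ) =
      ((CC * √X : ℝ) : ℂ) * sq u + Lg ((1 / (CC * √X) : ℝ) : ℂ) u - (Real.log X : ℝ)) ∧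
  (5 / 2 ≤ CC ∧ CC ≤ 3)

def SiegelStmt : Prop :=
  ∀ (ι τ : Type) (T : Finset ι) (Y : Finset τ) (S : Finset ℕ) (a : ι → τ → ℕ) (L : ℝ),
    1 ≤ L → (∀ i ∈ T, ∀ y ∈ Y, 0 < a i y ∧ Real.log (a i y) ≤ L ∧
      ∀ p : ℕ, p.Prime → p ∣ a i y → p ∈ S) →
    2 * (S.card * Y.card + 1) ≤ T.card →
    ∃ Q : ι → ℤ, (∃ i ∈ T, Q i ≠ 0) ∧ (∑ i ∈ T, |(Q i : ℝ)|) ≤ 2 * L * (T.card : ℝ) ^ 2 ∧
      ∑ i ∈ T, Q i = 0 ∧ ∀ y ∈ Y, ∑ i ∈ T, (Q i : ℝ) * Real.log (a i y) = 0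

end Pool.Agent.MP_9cfd17_nt

end

section

/-! The generating function of the partition numbers on the unit disc. -/

namespace Pool.Agent.MP_9cfd17_nt

open Complex Metric Filter Topology PowerSeries PowerSeries.WithPiTopology

/-- absolute convergence of a power series at `z` with sum `s` -/
def Ev_Gen (F : PowerSeries ℂ) (z s : ℂ) : Prop :=
  Summable (fun n : ℕ => ‖coeff n F * z ^ n‖) ∧ HasSum (fun n : ℕ => coeff n F * z ^ n) s

lemma ev_one_Gen (z : ℂ) : Ev_Gen 1 z 1 := by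
  have h : HasSum (fun n : ℕ => coeff n (1 : PowerSeries ℂ) * z ^ n) 1 := by
    have := hasSum_single (f := fun n : ℕ => coeff n (1 : PowerSeries ℂ) * z ^ n) 0
      (fun b hb => by simp [coeff_one, hb])
    simpa using this
  exact ⟨h.summable.norm, h⟩

lemma ev_mul_Gen {F G : PowerSeries ℂ} {z s t : ℂ} (hF : Ev_Gen F z s) (hG : Ev_Gen G z t) :
    Ev_Gen (F * G) z (s * t) := by
  have key : (fun n : ℕ => coeff n (F * G) * z ^ n) = fun n : ℕ =>
      ∑ kl ∈ Finset.HasAntidiagonal.antidiagonal n,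
        (coeff kl.1 F * z ^ kl.1) * (coeff kl.2 G * z ^ kl.2) := by
    funext n
    rw [coeff_mul, Finset.sum_mul]
    refine Finset.sum_congr rfl fun kl hkl => ?_
    rw [← Finset.HasAntidiagonal.mem_antidiagonal.mp hkl, pow_add]
    ring
  have h1 := summable_norm_sum_mul_antidiagonal_of_summable_norm hF.1 hG.1
  have h2 := tsum_mul_tsum_eq_tsum_sum_antidiagonal_of_summable_norm hF.1 hG.1
  rw [hF.2.tsum_eq, hG.2.tsum_eq] at h2
  have h : HasSum (fun n : ℕ => coeff n (F * G) * z ^ n) (s * t) := by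
    rw [key, h2]
    exact h1.of_norm.hasSum
  exact ⟨h.summable.norm, h⟩

lemma coeff_geom_Gen (i n : ℕ) :
    coeff n (∑' j : ℕ, (X : PowerSeries ℂ) ^ ((i + 1) * j)) =
      ∑' j : ℕ, if n = (i + 1) * j then (1 : ℂ) else 0 := by
  have hs : Summable (fun j : ℕ => (X : PowerSeries ℂ) ^ ((i + 1) * j)) := by
    simp_rw [pow_mul]
    exact summable_pow_of_constantCoeff_eq_zero (by simp)
  have h := hs.hasSum.map (coeff (R := ℂ) n) (continuous_coeff ℂ n)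
  rw [← h.tsum_eq]
  refine tsum_congr fun j => ?_
  simp [coeff_X_pow]

lemma ev_geom_Gen (i : ℕ) {z : ℂ} (hz : ‖z‖ < 1) :
    Ev_Gen (∑' j : ℕ, (X : PowerSeries ℂ) ^ ((i + 1) * j)) z (1 - z ^ (i + 1))⁻¹ := by
  have hinj : Function.Injective (fun j : ℕ => (i + 1) * j) := fun a b h =>
    Nat.eq_of_mul_eq_mul_left (Nat.succ_pos i) h
  have hz' : ‖z ^ (i + 1)‖ < 1 := by
    rw [norm_pow]
    exact pow_lt_one₀ (norm_nonneg _) hz (Nat.succ_ne_zero i)
  have h : HasSum (fun n : ℕ => coeff n (∑' j : ℕ, (X : PowerSeries ℂ) ^ ((i + 1) * j)) * z ^ n)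
      (1 - z ^ (i + 1))⁻¹ := by
    rw [← hinj.hasSum_iff]
    · have h0 := hasSum_geometric_of_norm_lt_one hz'
      have e : ((fun n : ℕ => coeff n (∑' j : ℕ, (X : PowerSeries ℂ) ^ ((i + 1) * j)) * z ^ n) ∘
          fun j : ℕ => (i + 1) * j) = fun j : ℕ => (z ^ (i + 1)) ^ j := by
        funext j
        simp only [Function.comp_apply]
        rw [coeff_geom_Gen, tsum_eq_single j, if_pos rfl, one_mul, pow_mul]
        intro b hb
        rw [if_neg]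
        intro h
        exact hb (hinj h).symm
      rw [e]
      exact h0
    · intro n hn
      rw [coeff_geom_Gen]
      have : ∀ j : ℕ, ¬ n = (i + 1) * j := fun j hj => hn ⟨j, hj.symm⟩
      simp [this]
  exact ⟨h.summable.norm, h⟩

/-- partitions with all parts at most `K` -/
def aa_Gen (K n : ℕ) : ℕ := (Nat.Partition.restricted n (fun i => i ≤ K)).card

lemma aa_le_Gen (K n : ℕ) : aa_Gen K n ≤ pp n := Finset.card_le_univ _

lemma aa_eq_Gen {K n : ℕ} (h : n ≤ K) : aa_Gen K n = pp n := by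
  unfold aa_Gen pp Nat.Partition.restricted
  rw [Finset.filter_true_of_mem, Finset.card_univ]
  intro x _ i hi
  exact (Nat.Partition.le_of_mem_parts hi).trans h

lemma mk_aa_Gen (K : ℕ) : (PowerSeries.mk fun n => (aa_Gen K n : ℂ)) =
    ∏ i ∈ Finset.range K, ∑' j : ℕ, (X : PowerSeries ℂ) ^ ((i + 1) * j) := by
  have h1 := Nat.Partition.hasProd_powerSeriesMk_card_restricted ℂ (fun i => i ≤ K)
  have h2 := hasProd_prod_of_ne_finset_one (L := SummationFilter.unconditional ℕ)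
    (f := fun i : ℕ => if i + 1 ≤ K then ∑' j : ℕ, (X : PowerSeries ℂ) ^ ((i + 1) * j) else 1)
    (s := Finset.range K) (fun b hb => by
      rw [if_neg]
      intro h
      exact hb (Finset.mem_range.mpr h))
  have h3 := h1.unique h2
  unfold aa_Gen
  rw [h3]
  refine Finset.prod_congr rfl fun i hi => ?_
  exact if_pos (Finset.mem_range.mp hi)

lemma hasSum_aa_Gen (K : ℕ) {z : ℂ} (hz : ‖z‖ < 1) :
    HasSum (fun n : ℕ => (aa_Gen K n : ℂ) * z ^ n)
      (∏ i ∈ Finset.range K, (1 - z ^ (i + 1)))⁻¹ := by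
  have h : Ev_Gen (∏ i ∈ Finset.range K, ∑' j : ℕ, (X : PowerSeries ℂ) ^ ((i + 1) * j)) z
      (∏ i ∈ Finset.range K, (1 - z ^ (i + 1)))⁻¹ := by
    induction K with
    | zero => simpa using ev_one_Gen z
    | succ K ih =>
      rw [Finset.prod_range_succ, Finset.prod_range_succ, mul_inv]
      exact ev_mul_Gen ih (ev_geom_Gen K hz)
  rw [← mk_aa_Gen] at h
  simpa using h.2

lemma tprod_ne_Gen {z : ℂ} (hz : ‖z‖ < 1) : ∏' n : ℕ, (1 - z ^ (n + 1)) ≠ 0 := by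
  simp_rw [sub_eq_add_neg]
  refine tprod_one_add_ne_zero_of_summable (f := fun n : ℕ => -z ^ (n + 1)) ?_ ?_
  · intro i h
    have h1 : z ^ (i + 1) = 1 := by linear_combination -h
    have h2 : ‖z ^ (i + 1)‖ < 1 := by
      rw [norm_pow]
      exact pow_lt_one₀ (norm_nonneg _) hz (Nat.succ_ne_zero i)
    rw [h1] at h2
    simp at h2
  · simpa using (summable_nat_add_iff 1).mpr (summable_geometric_of_lt_one (norm_nonneg _) hz)

lemma tendsto_prod_Gen {z : ℂ} (hz : ‖z‖ < 1) :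
    Tendsto (fun K : ℕ => (∏ i ∈ Finset.range K, (1 - z ^ (i + 1)))⁻¹) atTop (𝓝 (PP z)) :=
  (ModularForm.multipliable_one_sub_pow hz).hasProd.tendsto_prod_nat.inv₀ (tprod_ne_Gen hz)

lemma summable_pp_Gen {r : ℝ} (h0 : 0 ≤ r) (h1 : r < 1) :
    Summable (fun n : ℕ => (pp n : ℝ) * r ^ n) := by
  have hz : ‖(r : ℂ)‖ < 1 := by
    rw [Complex.norm_real, Real.norm_eq_abs, abs_of_nonneg h0]
    exact h1
  obtain ⟨B, hB⟩ := (tendsto_prod_Gen hz).norm.bddAbove_range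
  refine summable_of_sum_range_le (c := B) (fun n => by positivity) fun N => ?_
  have hs := Complex.hasSum_re (hasSum_aa_Gen N hz)
  have e : (fun n : ℕ => ((aa_Gen N n : ℂ) * (r : ℂ) ^ n).re) =
      fun n : ℕ => (aa_Gen N n : ℝ) * r ^ n := by
    funext n
    have : (aa_Gen N n : ℂ) * (r : ℂ) ^ n = (((aa_Gen N n : ℝ) * r ^ n : ℝ) : ℂ) := by
      push_cast
      rfl
    rw [this, Complex.ofReal_re]
  rw [e] at hs
  calc ∑ n ∈ Finset.range N, (pp n : ℝ) * r ^ n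
      = ∑ n ∈ Finset.range N, (aa_Gen N n : ℝ) * r ^ n := by
        refine Finset.sum_congr rfl fun n hn => ?_
        rw [aa_eq_Gen (Finset.mem_range.mp hn).le]
    _ ≤ _ := sum_le_hasSum _ (fun n _ => by positivity) hs
    _ ≤ _ := Complex.re_le_norm _
    _ ≤ B := hB ⟨N, rfl⟩

theorem gen : GenStmt := by
  constructor
  · intro z hz
    have hb := summable_pp_Gen (norm_nonneg z) hz
    have hsum : Summable (fun n : ℕ => (pp n : ℂ) * z ^ n) := by
      refine Summable.of_norm ?_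
      simpa using hb
    have hT := tendsto_tsum_of_dominated_convergence (𝓕 := atTop)
      (f := fun K n : ℕ => (aa_Gen K n : ℂ) * z ^ n) (g := fun n : ℕ => (pp n : ℂ) * z ^ n) hb
      (fun n => by
        refine tendsto_const_nhds.congr' ?_
        filter_upwards [eventually_ge_atTop n] with K hK
        rw [aa_eq_Gen hK])
      (Eventually.of_forall fun K n => by
        rw [norm_mul, norm_pow, Complex.norm_natCast]
        exact mul_le_mul_of_nonneg_right (by exact_mod_cast aa_le_Gen K n) (by positivity))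
    have hT' : Tendsto (fun K : ℕ => (∏ i ∈ Finset.range K, (1 - z ^ (i + 1)))⁻¹) atTop
        (𝓝 (∑' n : ℕ, (pp n : ℂ) * z ^ n)) :=
      hT.congr fun K => (hasSum_aa_Gen K hz).tsum_eq
    rw [← tendsto_nhds_unique hT' (tendsto_prod_Gen hz)]
    exact hsum.hasSum
  · exact ModularForm.differentiableOn_tprod_one_sub_pow.continuousOn.inv₀
      fun z hz => tprod_ne_Gen (by simpa using hz)

end Pool.Agent.MP_9cfd17_nt

end

section

/-! The minor arc bound for the partition generating function. -/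

namespace Pool.Agent.MP_9cfd17_nt

open Complex Metric Filter Topology

theorem one_Minor {u : ℂ} (hu : ‖u‖ ≤ 1) :
    (1 - ‖u‖) * Real.exp (1 / 4 * (‖u‖ - u.re)) ≤ ‖1 - u‖ := by
  have h1 := abs_le.mp (Complex.abs_re_le_norm u)
  have h0 := norm_nonneg u
  set d := ‖u‖ - u.re with hd
  have hd0 : 0 ≤ d := by linarith [h1.2]
  have hd2 : d ≤ 2 := by linarith [h1.1]
  have h2 := abs_le.mp (Real.abs_exp_sub_one_sub_id_le (x := d / 2)
    (abs_le.mpr ⟨by linarith, by linarith⟩))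
  have h3 : Real.exp (d / 2) ≤ 1 + 2 * d := by nlinarith [h2.2]
  have h4 : Real.exp (1 / 4 * d) ^ 2 = Real.exp (d / 2) := by
    rw [← Real.exp_nat_mul]
    congr 1
    push_cast
    ring
  have h5 : ‖1 - u‖ ^ 2 = (1 - ‖u‖) ^ 2 + 2 * d := by
    have e1 := Complex.sq_norm (1 - u)
    have e2 := Complex.sq_norm u
    simp only [normSq_apply, sub_re, sub_im, one_re, one_im] at e1 e2
    rw [e1, hd]
    nlinarith
  refine (pow_le_pow_iff_left₀ (mul_nonneg (by linarith) (Real.exp_pos _).le) (norm_nonneg _)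
    two_ne_zero).mp ?_
  rw [mul_pow, h4, h5]
  have h6 : (1 - ‖u‖) ^ 2 ≤ 1 := by nlinarith
  have h7 := mul_le_mul_of_nonneg_left h3 (sq_nonneg (1 - ‖u‖))
  nlinarith

theorem ne_Minor {z : ℂ} (hz : ‖z‖ < 1) : ∏' n : ℕ, (1 - z ^ (n + 1)) ≠ 0 := by
  refine tprod_one_add_ne_zero_of_summable (f := fun n => -z ^ (n + 1)) (fun n h => ?_) ?_
  · have h1 : z ^ (n + 1) = 1 := by linear_combination -h
    have h2 : ‖z‖ ^ (n + 1) < 1 := pow_lt_one₀ (norm_nonneg z) hz (Nat.succ_ne_zero n)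
    rw [← norm_pow, h1, norm_one] at h2
    exact lt_irrefl _ h2
  · simpa using (summable_nat_add_iff 1).mpr (summable_geometric_of_lt_one (norm_nonneg _) hz)

theorem prod_Minor {z : ℂ} (hz : ‖z‖ < 1) :
    ‖PP z‖ ≤ ‖PP (‖z‖ : ℂ)‖ *
      Real.exp (-(1 / 4) * (‖z‖ * (1 - ‖z‖)⁻¹ - (z * (1 - z)⁻¹).re)) := by
  have hr : ‖(‖z‖ : ℂ)‖ < 1 := by simpa using hz
  have s1 : HasSum (fun k : ℕ => ‖z‖ ^ (k + 1)) (‖z‖ * (1 - ‖z‖)⁻¹) := by
    simpa only [pow_succ'] using (hasSum_geometric_of_lt_one (norm_nonneg z) hz).mul_left ‖z‖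
  have s2 : HasSum (fun k : ℕ => z ^ (k + 1)) (z * (1 - z)⁻¹) := by
    simpa only [pow_succ'] using (hasSum_geometric_of_norm_lt_one hz).mul_left z
  have t1 := ((ModularForm.multipliable_one_sub_pow hr).hasProd.tendsto_prod_nat.norm).mul
    ((Real.continuous_exp.tendsto _).comp
      (((s1.sub (Complex.hasSum_re s2)).mul_left (1 / 4)).tendsto_sum_nat))
  have t2 := (ModularForm.multipliable_one_sub_pow hz).hasProd.tendsto_prod_nat.norm
  have key := le_of_tendsto_of_tendsto' t1 t2 fun K => by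
    simp only [Function.comp_apply, norm_prod, Real.exp_sum, ← Finset.prod_mul_distrib]
    refine Finset.prod_le_prod (fun k _ => by positivity) fun k _ => ?_
    have h2 : ‖z‖ ^ (k + 1) ≤ 1 := pow_le_one₀ (norm_nonneg z) hz.le
    have h3 := one_Minor (u := z ^ (k + 1)) (by rwa [norm_pow])
    rw [norm_pow] at h3
    have h4 : ‖1 - (‖z‖ : ℂ) ^ (k + 1)‖ = 1 - ‖z‖ ^ (k + 1) := by
      rw [← Real.norm_of_nonneg (sub_nonneg.mpr h2), ← Complex.norm_real]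
      push_cast
      rfl
    rwa [h4]
  have hp := norm_pos_iff.mpr (ne_Minor hr)
  rw [PP, PP, norm_inv, norm_inv, neg_mul, Real.exp_neg, ← mul_inv]
  exact inv_anti₀ (mul_pos hp (Real.exp_pos _)) key

theorem minor : MinorStmt := by
  intro t θ ht hθ
  have hn : ‖exp (-(t + θ * I))‖ = Real.exp (-t) := by simp [Complex.norm_exp]
  have hr1 : Real.exp (-t) < 1 := Real.exp_lt_one_iff.mpr (by linarith)
  have h := prod_Minor (z := exp (-(t + θ * I))) (hn.trans_lt hr1)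
  rw [hn] at h
  have e0 : ((Real.exp (-t) : ℝ) : ℂ) = exp (-(t : ℂ)) := by push_cast; rfl
  rw [e0] at h
  refine h.trans (mul_le_mul_of_nonneg_left (Real.exp_le_exp.mpr ?_) (norm_nonneg _))
  have a1 : 1 / t - 1 ≤ Real.exp (-t) * (1 - Real.exp (-t))⁻¹ := by
    have b1 := Real.add_one_le_exp (-t)
    have b2 : t⁻¹ ≤ (1 - Real.exp (-t))⁻¹ := inv_anti₀ (by linarith) (by linarith)
    have b3 := mul_inv_cancel₀ (sub_pos.mpr hr1).ne'
    rw [one_div]
    linarith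
  have hs : 0 < √(t ^ 2 + 4 * θ ^ 2 / Real.pi ^ 2) := Real.sqrt_pos.mpr (by positivity)
  have a2 : √(t ^ 2 + 4 * θ ^ 2 / Real.pi ^ 2) ≤ ‖exp (t + θ * I) - 1‖ := by
    refine Real.sqrt_le_iff.mpr ⟨norm_nonneg _, ?_⟩
    have b1 := Real.add_one_le_exp t
    have b2 := Real.cos_le_one_sub_mul_cos_sq hθ
    have b3 := Real.sin_sq_add_cos_sq θ
    have b4 : 0 ≤ 2 / Real.pi ^ 2 * θ ^ 2 := by positivity
    have b5 : ‖exp (t + θ * I) - 1‖ ^ 2 =
        (Real.exp t - 1) ^ 2 + 2 * Real.exp t * (1 - Real.cos θ) := by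
      rw [Complex.sq_norm, normSq_apply]
      simp only [sub_re, sub_im, one_re, one_im, exp_re, exp_im, add_re, add_im, ofReal_re,
        ofReal_im, mul_re, mul_im, I_re, I_im, mul_zero, mul_one, sub_zero, add_zero, zero_add]
      linear_combination Real.exp t ^ 2 * b3
    have b6 : 4 * θ ^ 2 / Real.pi ^ 2 = 2 * (2 / Real.pi ^ 2 * θ ^ 2) := by ring
    rw [b5, b6]
    nlinarith
  have a3 : exp (-(t + θ * I)) * (1 - exp (-(t + θ * I)))⁻¹ = (exp (t + θ * I) - 1)⁻¹ := by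
    rw [Complex.exp_neg, ← mul_inv, mul_sub, mul_one, mul_inv_cancel₀ (Complex.exp_ne_zero _)]
  have a4 : (exp (t + θ * I) - 1)⁻¹.re ≤ 1 / √(t ^ 2 + 4 * θ ^ 2 / Real.pi ^ 2) := by
    refine (Complex.re_le_norm _).trans ?_
    rw [norm_inv, one_div]
    exact inv_anti₀ hs a2
  rw [a3]
  linarith

end Pool.Agent.MP_9cfd17_nt

end

section

/-! The modular transformation of the partition generating function. -/

namespace Pool.Agent.MP_9cfd17_nt

open Complex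

theorem im_Modular {w : ℂ} (h : 0 < w.re) : 0 < (I * w / (2 * Real.pi)).im := by
  rw [show (2 * Real.pi : ℂ) = (2 * Real.pi : ℝ) by push_cast; rfl, div_ofReal_im]
  simpa using div_pos h Real.two_pi_pos

theorem modular : ModularStmt := by
  intro w hw
  have h1 := im_Modular hw
  have w0 : w ≠ 0 := fun h => by simp [h] at hw
  have p0 : (Real.pi : ℂ) ≠ 0 := ofReal_ne_zero.2 Real.pi_ne_zero
  have a1 : 2 * Real.pi * I * (I * w / (2 * Real.pi)) = -w := by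
    field_simp
    rw [I_sq]
  have a2 : 2 * Real.pi * I * (-1 / (I * w / (2 * Real.pi))) = -(4 * (Real.pi : ℂ) ^ 2) / w := by
    field_simp
    norm_num
  have n1 := ModularForm.eta_tprod_ne_zero h1
  have e := ModularForm.eta_comp_eq_csqrt_I_inv h1
  have n2 : ModularForm.eta (-1 / (I * w / (2 * Real.pi))) ≠ 0 := fun h => by
    refine mul_ne_zero (inv_ne_zero ?_) (mul_ne_zero ?_ (ModularForm.eta_ne_zero h1))
      (e.symm.trans h)
    · exact cpow_ne_zero_iff.2 (.inl I_ne_zero)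
    · exact cpow_ne_zero_iff.2 (.inl fun k => by simp [k] at h1)
  simp only [Function.comp_apply, Pi.smul_apply, Pi.mul_apply, smul_eq_mul, ModularForm.eta,
    ModularForm.eta_q_eq_pow, Function.Periodic.qParam, a1, a2, ofReal_ofNat] at n1 n2 e
  replace n2 := right_ne_zero_of_mul n2
  have k : exp ((Real.pi : ℂ) ^ 2 / (6 * w) - w / 24) * exp (-(4 * (Real.pi : ℂ) ^ 2) / w / 24) =
      exp (-w / 24) := by
    rw [← exp_add]
    congr 1
    ring
  unfold PP SS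
  rw [eq_mul_inv_iff_mul_eq₀ n2, inv_mul_eq_iff_eq_mul₀ n1]
  refine mul_left_cancel₀ (exp_ne_zero (-(4 * (Real.pi : ℂ) ^ 2) / w / 24)) ?_
  rw [e, ← k]
  ring

theorem norm_Modular (a : ℂ) : ‖a.sqrt‖ = √‖a‖ := by
  rw [Complex.sqrt, Real.sqrt_eq_rpow, ← norm_cpow_real]
  norm_num

theorem ss : SSStmt := by
  refine ⟨fun w => ?_, fun w hw => ?_, fun r e hr he => ?_⟩
  · simp [SS, norm_Modular, abs_of_pos Real.pi_pos]
  · exact (((differentiableAt_sqrt (.inr (im_Modular hw).ne')).comp w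
      (f := fun w => I * w / (2 * Real.pi)) (by fun_prop)).div_const _).differentiableWithinAt
  · have s0 : I.sqrt ≠ 0 := cpow_ne_zero_iff.2 (.inl I_ne_zero)
    have s2 : I.sqrt ^ 2 = I := cpow_ofNat_inv_pow I 2
    have q : 0 < r / (2 * Real.pi) := div_pos hr Real.two_pi_pos
    have c : ((√(r / (2 * Real.pi)) : ℝ) : ℂ) ^ 2 = r / (2 * Real.pi) := by
      exact_mod_cast Real.sq_sqrt q.le
    rw [SS, div_eq_iff s0, show I * (r * e ^ 2) / (2 * Real.pi) =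
      ((√(r / (2 * Real.pi)) : ℝ) * e * I.sqrt) ^ 2 by rw [mul_pow, mul_pow, s2, c]; ring]
    refine sq_cpow_two_inv ?_
    rw [mul_assoc, re_ofReal_mul, Complex.sqrt_I, mul_left_comm, re_ofReal_mul]
    refine mul_pos (Real.sqrt_pos.2 q) (mul_pos (by positivity) ?_)
    simpa using (le_abs_self _).trans_lt he

end Pool.Agent.MP_9cfd17_nt

end

section

/-! A truncated Gaussian integral and a bound for partitions into distinct parts. -/

namespace Pool.Agent.MP_9cfd17_nt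

open MeasureTheory Set

theorem tail_Gauss {l : ℝ} (hl : 1 ≤ l) :
    0 ≤ √(Real.pi / (4 * l)) - ∫ s in (-(1 / 10) : ℝ)..(1 / 10), Real.exp (-(4 * l) * s ^ 2) ∧
    √(Real.pi / (4 * l)) - ∫ s in (-(1 / 10) : ℝ)..(1 / 10), Real.exp (-(4 * l) * s ^ 2) ≤
      2 * Real.exp (-l / 50) := by
  have i4 := integrable_exp_neg_mul_sq (show 0 < 4 * l by linarith)
  have i2 := (integrable_exp_neg_mul_sq (show 0 < 2 * l by linarith)).const_mul (Real.exp (-l / 50))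
  rw [← integral_gaussian, intervalIntegral.integral_of_le (by norm_num),
    ← integral_add_compl (s := Ioc (-(1 / 10) : ℝ) (1 / 10)) measurableSet_Ioc i4,
    add_sub_cancel_left]
  refine ⟨integral_nonneg fun _ => (Real.exp_pos _).le, ?_⟩
  calc _ ≤ ∫ s in (Ioc (-(1 / 10) : ℝ) (1 / 10))ᶜ,
        Real.exp (-l / 50) * Real.exp (-(2 * l) * s ^ 2) := by
        refine setIntegral_mono_on i4.integrableOn i2.integrableOn measurableSet_Ioc.compl
          fun s hs => ?_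
        have h1 : 1 / 100 ≤ s ^ 2 := by
          rw [mem_compl_iff, mem_Ioc, not_and_or, not_lt, not_le] at hs
          rcases hs with h | h <;> nlinarith
        rw [← Real.exp_add]
        exact Real.exp_le_exp.2 (by nlinarith)
    _ ≤ ∫ s : ℝ, Real.exp (-l / 50) * Real.exp (-(2 * l) * s ^ 2) :=
        setIntegral_le_integral i2 (.of_forall fun s => by positivity)
    _ ≤ _ := by
        rw [integral_const_mul, integral_gaussian, mul_comm]
        refine mul_le_mul_of_nonneg_right (Real.sqrt_le_iff.2 ⟨by norm_num, ?_⟩) (Real.exp_pos _).le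
        rw [div_le_iff₀ (by linarith)]
        linarith [Real.pi_le_four]

theorem gauss : GaussStmt := by
  intro l hl
  have hl0 : 0 < l := by linarith
  obtain ⟨t1, t2⟩ := tail_Gauss hl
  have d : ∀ s : ℝ, HasDerivAt (fun s : ℝ => s * Real.exp (-(4 * l) * s ^ 2))
      ((1 - 8 * l * s ^ 2) * Real.exp (-(4 * l) * s ^ 2)) s := fun s => by
    have := (hasDerivAt_id' s).fun_mul (((hasDerivAt_pow 2 s).const_mul (-(4 * l))).exp)
    refine this.congr_deriv ?_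
    push_cast
    ring
  have c1 : Continuous fun s : ℝ => (1 - 8 * l * s ^ 2) * Real.exp (-(4 * l) * s ^ 2) := by fun_prop
  have c2 : Continuous fun s : ℝ => Real.exp (-(4 * l) * s ^ 2) := by fun_prop
  have e1 := intervalIntegral.integral_eq_sub_of_hasDerivAt (a := -(1 / 10)) (b := 1 / 10)
    (fun s _ => d s) (c1.intervalIntegrable _ _)
  have e2 : ∀ s : ℝ, (1 - 4 * s ^ 2) * Real.exp (-4 * l * s ^ 2) =
      (1 - 1 / (2 * l)) * Real.exp (-(4 * l) * s ^ 2) +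
        1 / (2 * l) * ((1 - 8 * l * s ^ 2) * Real.exp (-(4 * l) * s ^ 2)) := fun s => by
    rw [neg_mul 4 l]
    field_simp
    ring
  simp only [e2]
  rw [intervalIntegral.integral_add ((c2.intervalIntegrable _ _).const_mul _)
    ((c1.intervalIntegrable _ _).const_mul _), intervalIntegral.integral_const_mul,
    intervalIntegral.integral_const_mul, e1, neg_sq]
  have h1 : Real.exp (-(4 * l) * (1 / 10) ^ 2) ≤ Real.exp (-l / 50) :=
    Real.exp_le_exp.2 (by linarith)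
  have h2 := Real.exp_pos (-(4 * l) * (1 / 10) ^ 2)
  have h3 : 0 < 1 / (2 * l) := by positivity
  have h4 : 1 / (2 * l) ≤ 1 := by
    rw [div_le_one (by linarith)]
    linarith
  generalize 1 / (2 * l) = a at h3 h4
  generalize Real.exp (-(4 * l) * (1 / 10) ^ 2) = b at h1 h2
  rw [abs_le]
  constructor <;> nlinarith [mul_nonneg h3.le t1, mul_pos h3 h2]

theorem geom_Gauss {r : ℝ} (n : ℕ) : (1 - r) * ∑ k ∈ Finset.Icc 1 n, r ^ k = r - r ^ (n + 1) := by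
  induction n with
  | zero => simp
  | succ n ih =>
    rw [Finset.sum_Icc_succ_top (by omega), mul_add, ih]
    ring

theorem gen_Gauss (m : ℕ) {r : ℝ} (hr : 0 ≤ r) :
    (qq m : ℝ) * r ^ m ≤ Real.exp (∑ k ∈ Finset.Icc 1 m, r ^ k) := by
  have inj : Set.InjOn (fun p : Nat.Partition m => p.parts.toFinset)
      (Nat.Partition.distincts m) := fun p hp p' hp' h => by
    have h1 : p.parts.Nodup := (Finset.mem_filter.1 hp).2
    have h2 : p'.parts.Nodup := (Finset.mem_filter.1 hp').2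
    exact Nat.Partition.ext (Multiset.Nodup.toFinset_inj h1 h2 h)
  calc (qq m : ℝ) * r ^ m
      = ∑ p ∈ Nat.Partition.distincts m, ∏ k ∈ p.parts.toFinset, r ^ k := by
        rw [qq, ← nsmul_eq_mul, ← Finset.sum_const]
        refine Finset.sum_congr rfl fun p hp => ?_
        have h1 : p.parts.Nodup := (Finset.mem_filter.1 hp).2
        rw [Finset.prod_pow_eq_pow_sum, Finset.sum_eq_multiset_sum, Multiset.toFinset_val,
          h1.dedup, Multiset.map_id', p.parts_sum]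
    _ = ∑ t ∈ (Nat.Partition.distincts m).image fun p => p.parts.toFinset, ∏ k ∈ t, r ^ k :=
        (Finset.sum_image (f := fun t : Finset ℕ => ∏ k ∈ t, r ^ k) inj).symm
    _ ≤ ∑ t ∈ (Finset.Icc 1 m).powerset, ∏ k ∈ t, r ^ k := by
        refine Finset.sum_le_sum_of_subset_of_nonneg (fun t ht => ?_)
          fun t _ _ => Finset.prod_nonneg fun k _ => pow_nonneg hr k
        obtain ⟨p, -, rfl⟩ := Finset.mem_image.1 ht
        refine Finset.mem_powerset.2 fun k hk => ?_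
        rw [Multiset.mem_toFinset] at hk
        exact Finset.mem_Icc.2 ⟨p.parts_pos hk, Nat.Partition.le_of_mem_parts hk⟩
    _ = ∏ k ∈ Finset.Icc 1 m, (r ^ k + 1) := (Finset.prod_add_one _).symm
    _ ≤ _ := by
        rw [Real.exp_sum]
        exact Finset.prod_le_prod (fun k _ => by positivity) fun k _ => Real.add_one_le_exp _

theorem qst : QStmt := by
  intro m
  have h2 : qq m ≤ pp m := Finset.card_le_univ _
  refine ⟨Finset.card_pos.2 ⟨Nat.Partition.indiscrete m, Finset.mem_filter.2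
    ⟨Finset.mem_univ _, (Multiset.nodup_singleton m).filter _⟩⟩, h2, ?_⟩
  rcases Nat.eq_zero_or_pos m with rfl | hm
  · have : pp 0 = 1 := Fintype.card_unique
    simpa [this] using h2
  have hs : 0 < √(m : ℝ) := Real.sqrt_pos.2 (by exact_mod_cast hm)
  have hsq : √(m : ℝ) * √(m : ℝ) = m := Real.mul_self_sqrt (Nat.cast_nonneg m)
  set r : ℝ := Real.exp (-(1 / √(m : ℝ))) with hr
  have hr0 : 0 < r := Real.exp_pos _
  have hr1 : r < 1 := Real.exp_lt_one_iff.2 (neg_lt_zero.2 (by positivity))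
  have h3 : r * (1 / √(m : ℝ) + 1) ≤ 1 := by
    have := mul_le_mul_of_nonneg_left (Real.add_one_le_exp (1 / √(m : ℝ))) hr0.le
    rwa [hr, ← Real.exp_add, neg_add_cancel, Real.exp_zero] at this
  have h4 : ∑ k ∈ Finset.Icc 1 m, r ^ k ≤ √(m : ℝ) := by
    refine le_of_mul_le_mul_left ?_ (sub_pos.2 hr1)
    have h5 := mul_le_mul_of_nonneg_right h3 hs.le
    have h6 : r * (1 / √(m : ℝ) + 1) * √(m : ℝ) = r + r * √(m : ℝ) := by field_simp
    have h7 := pow_pos hr0 (m + 1)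
    rw [geom_Gauss]
    linarith
  have h8 : r ^ m * Real.exp √(m : ℝ) = 1 := by
    rw [hr, ← Real.exp_nat_mul, ← Real.exp_add, Real.exp_eq_one_iff]
    have : (m : ℝ) * (1 / √(m : ℝ)) = √(m : ℝ) := by
      rw [mul_one_div, div_eq_iff hs.ne', hsq]
    linarith
  have h9 := mul_le_mul_of_nonneg_right ((gen_Gauss m hr0.le).trans (Real.exp_le_exp.2 h4))
    (Real.exp_pos √(m : ℝ)).le
  rwa [mul_assoc, h8, mul_one, ← Real.exp_add, ← two_mul] at h9

end Pool.Agent.MP_9cfd17_nt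

end

section

/-! Taylor expansions with explicit remainders and the size of two coefficient sequences. -/

namespace Pool.Agent.MP_9cfd17_nt

open Complex Metric Filter Topology

theorem cauchy_Taylor {G : ℂ → ℂ} {M r R : ℝ} (j : ℕ) (hr : 0 < r)
    (hd : ∀ u ∈ closedBall (0 : ℂ) r, DifferentiableAt ℂ G u)
    (hM : ∀ u ∈ closedBall (0 : ℂ) r, ‖G u‖ ≤ M) (hR : M / r ^ j ≤ R) :
    ‖iteratedDeriv j G 0 / (j.factorial : ℂ)‖ ≤ R := by
  have h := norm_iteratedDeriv_le_of_forall_mem_sphere_norm_le (c := 0) (f := G) (C := M) j hr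
    (DifferentiableOn.diffContOnCl fun u hu =>
      (hd u (closure_ball_subset_closedBall hu)).differentiableWithinAt)
    fun z hz => hM z (sphere_subset_closedBall hz)
  have hf : (0 : ℝ) < j.factorial := by exact_mod_cast j.factorial_pos
  rw [norm_div, norm_natCast, div_le_iff₀' hf]
  rw [mul_div_assoc] at h
  exact h.trans (mul_le_mul_of_nonneg_left hR hf.le)

theorem taylor : TaylorStmt := by
  intro G M j hd hM
  have hc : ∀ l : ℕ, ‖iteratedDeriv l G 0 / (l.factorial : ℂ)‖ ≤ M * 2 ^ l := fun l =>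
    cauchy_Taylor l one_half_pos (fun u hu => hd.differentiableAt
      (isOpen_ball.mem_nhds (closedBall_subset_ball (by norm_num) hu))) hM (le_of_eq (by
        rw [one_div, inv_pow, div_inv_eq_mul]))
  refine ⟨hc j, fun u hu => ?_⟩
  have M0 : 0 ≤ M := (norm_nonneg _).trans (hM 0 (mem_closedBall_self (by norm_num)))
  have hs := hasSum_taylorSeries_on_ball hd (z := u) (by
    rw [mem_ball_zero_iff]
    linarith)
  have e : (fun n : ℕ => (n.factorial : ℂ)⁻¹ • (u - 0) ^ n • iteratedDeriv n G 0) =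
      fun n : ℕ => iteratedDeriv n G 0 / (n.factorial : ℂ) * u ^ n := by
    ext n
    rw [sub_zero, smul_eq_mul, smul_eq_mul]
    ring
  rw [e] at hs
  rw [← ((hasSum_nat_add_iff' (j + 1)).2 hs).tsum_eq]
  have hg := hasSum_geometric_two.mul_left (M * (2 * ‖u‖) ^ (j + 1))
  refine (tsum_of_norm_bounded hg fun i => ?_).trans (le_of_eq (by ring))
  rw [norm_mul, norm_pow]
  refine (mul_le_mul_of_nonneg_right (hc _) (by positivity)).trans ?_
  rw [mul_assoc, ← mul_pow, pow_add, mul_assoc, mul_comm ((2 * ‖u‖) ^ i)]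
  exact mul_le_mul_of_nonneg_left (mul_le_mul_of_nonneg_left
    (pow_le_pow_left₀ (by positivity) (by linarith) i) (by positivity)) M0

theorem der_Taylor (j : ℕ) : ∀ u : ℂ, ‖u‖ < 1 → iteratedDeriv j sq u =
    (∏ i ∈ Finset.range j, (1 / 2 - (i : ℂ))) * (1 + u) ^ (1 / 2 - (j : ℂ)) := by
  induction j with
  | zero =>
    intro u _
    simp [sq]
  | succ j ih =>
    intro u hu
    have e : iteratedDeriv j sq =ᶠ[𝓝 u] fun v =>
        (∏ i ∈ Finset.range j, (1 / 2 - (i : ℂ))) * (1 + v) ^ (1 / 2 - (j : ℂ)) :=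
      (continuous_norm.continuousAt.eventually (gt_mem_nhds hu)).mono ih
    have d := (((hasDerivAt_id' u).const_add 1).cpow_const (c := 1 / 2 - (j : ℂ))
      (mem_slitPlane_of_norm_lt_one hu)).const_mul (∏ i ∈ Finset.range j, (1 / 2 - (i : ℂ)))
    rw [iteratedDeriv_succ, e.deriv_eq, d.deriv, Finset.prod_range_succ, Nat.cast_succ, ← sub_sub]
    ring

theorem low_Taylor (j : ℕ) (hj : 1 ≤ j) :
    1 / (4 * (j : ℝ) ^ 2) ≤ ‖(∏ i ∈ Finset.range j, (1 / 2 - (i : ℂ))) / (j.factorial : ℂ)‖ := by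
  induction j, hj using Nat.le_induction with
  | base => norm_num
  | succ j hj ih =>
    have j1 : (1 : ℝ) ≤ j := by exact_mod_cast hj
    have e : (∏ i ∈ Finset.range (j + 1), (1 / 2 - (i : ℂ))) / ((j + 1).factorial : ℂ) =
        (∏ i ∈ Finset.range j, (1 / 2 - (i : ℂ))) / (j.factorial : ℂ) *
          ((-((j - 1 / 2) / (j + 1)) : ℝ) : ℂ) := by
      rw [Finset.prod_range_succ, Nat.factorial_succ]
      push_cast
      rw [← neg_div, neg_sub, div_mul_div_comm, mul_comm (j.factorial : ℂ)]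
    have p : (0 : ℝ) ≤ (j - 1 / 2) / (j + 1) := div_nonneg (by linarith) (by linarith)
    rw [e, norm_mul, norm_real, norm_neg, Real.norm_of_nonneg p]
    refine le_trans ?_ (mul_le_mul_of_nonneg_right ih p)
    rw [div_mul_div_comm, Nat.cast_succ, div_le_div_iff₀ (by positivity) (by positivity)]
    nlinarith [mul_nonneg (sub_nonneg.2 j1) (show (0 : ℝ) ≤ j + 1 by linarith)]

theorem coef : CoefStmt := by
  intro j hj
  have j1 : (1 : ℝ) ≤ j := by exact_mod_cast hj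
  refine ⟨?_, fun e he => ?_⟩
  · rw [der_Taylor j 0 (by simp), add_zero, one_cpow, mul_one]
    exact low_Taylor j hj
  have key : ∀ u ∈ closedBall (0 : ℂ) (j / (j + 1)), ‖u‖ < 1 ∧ 1 / ((j : ℝ) + 1) ≤ ‖1 + u‖ ∧
      sq u ≠ 0 ∧ ‖e / sq u‖ ≤ 1 / 4 := by
    intro u hu
    rw [mem_closedBall_zero_iff] at hu
    have a0 : (0 : ℝ) < 1 / (j + 1) := by positivity
    have a1 : (j : ℝ) / (j + 1) = 1 - 1 / (j + 1) := by field_simp; ring
    have a2 : 1 / ((j : ℝ) + 1) ≤ ‖1 + u‖ := by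
      have := norm_sub_norm_le (1 : ℂ) (-u)
      rw [norm_one, norm_neg, sub_neg_eq_add] at this
      linarith
    have a3 : ‖sq u‖ = ‖1 + u‖ ^ (1 / 2 : ℝ) := by
      rw [← norm_cpow_real, sq]
      norm_num
    have a4 : 1 / ((j : ℝ) + 1) ≤ ‖sq u‖ := by
      rw [a3]
      refine le_trans ?_ (Real.rpow_le_rpow a0.le a2 (by norm_num))
      refine Real.self_le_rpow_of_le_one a0.le ?_ (by norm_num)
      rw [div_le_one (by linarith)]
      linarith
    refine ⟨by linarith, a2, norm_pos_iff.1 (a0.trans_le a4), ?_⟩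
    rw [norm_div, div_le_iff₀ (a0.trans_le a4)]
    refine he.trans (le_trans (le_of_eq ?_) (mul_le_mul_of_nonneg_left a4 (by norm_num)))
    rw [div_mul_div_comm, one_mul]
  refine cauchy_Taylor (M := j + 5) (r := j / (j + 1)) j (by positivity) (fun u hu => ?_)
    (fun u hu => ?_) ?_
  · obtain ⟨k1, -, k3, k4⟩ := key u hu
    have s1 := mem_slitPlane_of_norm_lt_one k1
    have d1 : DifferentiableAt ℂ sq u := (differentiableAt_id.const_add 1).cpow_const s1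
    have s2 : 1 - e / sq u ∈ slitPlane := by
      rw [sub_eq_add_neg]
      exact mem_slitPlane_of_norm_lt_one (by rw [norm_neg]; linarith)
    exact ((((differentiableAt_const e).div d1 k3).const_sub 1).clog s2).sub
      ((differentiableAt_id.const_add 1).clog s1)
  · obtain ⟨k1, k2, -, k4⟩ := key u hu
    have b1 := norm_log_one_add_half_le_self (z := -(e / sq u)) (by rw [norm_neg]; linarith)
    rw [norm_neg, ← sub_eq_add_neg] at b1
    have b2 := norm_le_abs_re_add_abs_im (log (1 + u))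
    rw [log_re, log_im] at b2
    have b3 := abs_arg_le_pi (1 + u)
    have a0 : (0 : ℝ) < 1 / (j + 1) := by positivity
    have b4 : |Real.log ‖1 + u‖| ≤ j := by
      refine abs_le.2 ⟨?_, ?_⟩
      · have c1 := Real.log_le_log a0 k2
        rw [one_div, Real.log_inv] at c1
        linarith [Real.log_le_sub_one_of_pos (show (0 : ℝ) < j + 1 by linarith)]
      · have c1 := norm_add_le (1 : ℂ) u
        rw [norm_one] at c1
        linarith [Real.log_le_sub_one_of_pos (a0.trans_le k2)]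
    refine (norm_sub_le _ _).trans ?_
    linarith [Real.pi_le_four]
  · have c1 := (Real.one_add_inv_pow_le_exp (n := j)).trans Real.exp_one_lt_three.le
    have c2 : ((j : ℝ) / (j + 1))⁻¹ = 1 + (j : ℝ)⁻¹ := by field_simp
    rw [div_eq_mul_inv, ← inv_pow, c2]
    nlinarith

end Pool.Agent.MP_9cfd17_nt

end

section

/-! Shared lemmas for the two assemblies. -/

namespace Pool.Agent.MP_9cfd17_nt

open Complex Metric Filter Topology

theorem order_core (hV : VanishStmt) {ι : Type} (T : Finset ι) (s : ι → ℕ) (Q : ι → ℤ)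
    (α V B : ℝ) (hα : 0 < α) (hV1 : 1 ≤ V)
    (hgap : ∀ i ∈ T, ∀ i' ∈ T, i ≠ i' → α ≤ |(s i : ℝ) - s i'| ∧ |(s i : ℝ) - s i'| ≤ α * V)
    (hQ : ∃ i ∈ T, Q i ≠ 0) (hB : (∑ i ∈ T, |(Q i : ℝ)|) ≤ B) (h0 : ∑ i ∈ T, Q i = 0) :
    ∃ j : ℕ, 1 ≤ j ∧ (j : ℝ) ≤ 2 + √V * Real.log (2 * B) ∧
      (∀ l < j, ∑ i ∈ T, Q i * (s i : ℤ) ^ l = 0) ∧ ∑ i ∈ T, Q i * (s i : ℤ) ^ j ≠ 0 := by
  classical
  have key : ∀ j : ℕ, (∀ l < j, ∑ i ∈ T, Q i * (s i : ℤ) ^ l = 0) →
      (j : ℝ) ≤ 2 + √V * Real.log (2 * B) := by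
    intro j hj
    refine hV ι T (fun i => (s i : ℝ)) Q α V B j hα hV1 hgap hQ hB ?_
    intro l hl
    have := hj l hl
    exact_mod_cast this
  have hex : ∃ l : ℕ, ∑ i ∈ T, Q i * (s i : ℤ) ^ l ≠ 0 := by
    by_contra hcon
    push Not at hcon
    obtain ⟨j, hj⟩ := exists_nat_gt (2 + √V * Real.log (2 * B))
    exact absurd (key j (fun l _ => hcon l)) (not_le.mpr hj)
  refine ⟨Nat.find hex, ?_, key _ (fun l hl => ?_), fun l hl => ?_, Nat.find_spec hex⟩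
  · rcases Nat.eq_zero_or_pos (Nat.find hex) with h | h
    · have := Nat.find_spec hex
      rw [h] at this
      simp [h0] at this
    · exact h
  · simpa using Nat.find_min hex hl
  · simpa using Nat.find_min hex hl

theorem comb_core (hT : TaylorStmt) {ι : Type} (T : Finset ι) (s : ι → ℕ) (Q : ι → ℤ)
    (B S M : ℝ) (j : ℕ) (G : ℂ → ℂ) (hG : DifferentiableOn ℂ G (ball 0 (3 / 4)))
    (hM : ∀ u ∈ closedBall (0 : ℂ) (1 / 2), ‖G u‖ ≤ M)
    (hs : ∀ i ∈ T, (s i : ℝ) ≤ S) (hB : (∑ i ∈ T, |(Q i : ℝ)|) ≤ B)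
    (hmom : ∀ l < j, ∑ i ∈ T, Q i * (s i : ℤ) ^ l = 0) (v : ℂ) (hS : 0 ≤ S)
    (hv : S * ‖v‖ ≤ 1 / 4) :
    ‖∑ i ∈ T, (Q i : ℂ) * G (s i * v) -
      iteratedDeriv j G 0 / (j.factorial : ℂ) * ((∑ i ∈ T, Q i * (s i : ℤ) ^ j : ℤ) : ℂ) * v ^ j‖ ≤
      B * (2 * M * (2 * S * ‖v‖) ^ (j + 1)) := by
  have hM0 : 0 ≤ M := le_trans (norm_nonneg _) (hM 0 (by simp))
  set c : ℕ → ℂ := fun l => iteratedDeriv l G 0 / (l.factorial : ℂ) with hc
  have h1 : ∑ i ∈ T, (Q i : ℂ) * ∑ l ∈ Finset.range (j + 1), c l * ((s i : ℂ) * v) ^ l =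
      c j * ((∑ i ∈ T, Q i * (s i : ℤ) ^ j : ℤ) : ℂ) * v ^ j := by
    simp_rw [Finset.mul_sum]
    rw [Finset.sum_comm, Finset.sum_range_succ]
    have h2 : ∀ l : ℕ, ∑ i ∈ T, (Q i : ℂ) * (c l * ((s i : ℂ) * v) ^ l) =
        c l * ((∑ i ∈ T, Q i * (s i : ℤ) ^ l : ℤ) : ℂ) * v ^ l := by
      intro l
      push_cast
      rw [Finset.mul_sum, Finset.sum_mul]
      refine Finset.sum_congr rfl fun i _ => ?_
      ring
    rw [Finset.sum_eq_zero, zero_add, h2]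
    intro l hl
    rw [h2, hmom l (Finset.mem_range.mp hl)]
    simp
  rw [← h1, ← Finset.sum_sub_distrib]
  calc _ ≤ ∑ i ∈ T, ‖(Q i : ℂ) * G (s i * v) -
        (Q i : ℂ) * ∑ l ∈ Finset.range (j + 1), c l * ((s i : ℂ) * v) ^ l‖ := norm_sum_le _ _
    _ ≤ ∑ i ∈ T, |(Q i : ℝ)| * (2 * M * (2 * S * ‖v‖) ^ (j + 1)) := by
        refine Finset.sum_le_sum fun i hi => ?_
        rw [← mul_sub, norm_mul]
        have hn : ‖(s i : ℂ) * v‖ ≤ S * ‖v‖ := by
          rw [norm_mul, Complex.norm_natCast]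
          exact mul_le_mul_of_nonneg_right (hs i hi) (norm_nonneg _)
        have h3 := (hT G M j hG hM).2 ((s i : ℂ) * v) (hn.trans hv)
        have h4 : (2 * ‖(s i : ℂ) * v‖) ^ (j + 1) ≤ (2 * S * ‖v‖) ^ (j + 1) :=
          pow_le_pow_left₀ (by positivity) (by linarith) _
        rw [Complex.norm_intCast]
        refine mul_le_mul_of_nonneg_left (h3.trans ?_) (abs_nonneg _)
        exact mul_le_mul_of_nonneg_left h4 (by positivity)
    _ ≤ _ := by
        rw [← Finset.sum_mul]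
        exact mul_le_mul_of_nonneg_right hB (by positivity)

theorem tendsto_core (Φ : ℂ → ℂ) (a : ℂ) (κ : ℕ) (K δ : ℝ) (hδ : 0 < δ)
    (h : ∀ u : ℂ, ‖u‖ ≤ δ → ‖Φ u - a * u ^ κ‖ ≤ K * ‖u‖ ^ (κ + 1)) :
    Tendsto (fun u => Φ u / u ^ κ) (𝓝[≠] 0) (𝓝 a) := by
  rw [tendsto_iff_norm_sub_tendsto_zero]
  have h1 : Tendsto (fun u : ℂ => K * ‖u‖) (𝓝[≠] 0) (𝓝 0) := by
    have : Tendsto (fun u : ℂ => K * ‖u‖) (𝓝 0) (𝓝 (K * ‖(0 : ℂ)‖)) :=
      (continuous_const.mul continuous_norm).tendsto 0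
    simpa using this.mono_left nhdsWithin_le_nhds
  refine squeeze_zero' (Eventually.of_forall fun _ => norm_nonneg _) ?_ h1
  have h2 : ∀ᶠ u : ℂ in 𝓝[≠] 0, ‖u‖ ≤ δ := by
    refine Filter.Eventually.filter_mono nhdsWithin_le_nhds ?_
    filter_upwards [closedBall_mem_nhds (0 : ℂ) hδ] with u hu
    simpa using hu
  filter_upwards [h2, self_mem_nhdsWithin] with u hu hu0
  have hu0' : u ≠ 0 := hu0
  have hp : 0 < ‖u‖ ^ κ := pow_pos (norm_pos_iff.mpr hu0') _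
  have : Φ u / u ^ κ - a = (Φ u - a * u ^ κ) / u ^ κ := by
    field_simp
  rw [this, norm_div, norm_pow, div_le_iff₀ hp]
  calc _ ≤ K * ‖u‖ ^ (κ + 1) := h u hu
    _ = _ := by ring

theorem one_le_norm_int_core (z : ℤ) (hz : z ≠ 0) : 1 ≤ ‖(z : ℂ)‖ := by
  rw [Complex.norm_intCast]
  exact_mod_cast Int.one_le_abs hz

theorem lg_diff_core (hL : LgStmt) (e : ℂ) (he : ‖e‖ < 1 / 4) :
    DifferentiableOn ℂ (Lg e) (ball 0 (3 / 4)) := by
  intro u hu
  have hu' : ‖u‖ < 3 / 4 := by simpa using hu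
  have h := hL.2.2.1 e u he hu'
  have h2 : DifferentiableAt ℂ (fun u : ℂ => ((e, u) : ℂ × ℂ)) u := by fun_prop
  exact (h.comp u h2).differentiableWithinAt

theorem sum_bound_core {ι : Type} (T : Finset ι) (Q : ι → ℤ) (B M : ℝ) (g : ι → ℂ) (hM : 0 ≤ M)
    (hB : (∑ i ∈ T, |(Q i : ℝ)|) ≤ B) (hg : ∀ i ∈ T, ‖g i‖ ≤ M) :
    ‖∑ i ∈ T, (Q i : ℂ) * g i‖ ≤ B * M := by
  calc _ ≤ ∑ i ∈ T, ‖(Q i : ℂ) * g i‖ := norm_sum_le _ _
    _ ≤ ∑ i ∈ T, |(Q i : ℝ)| * M := by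
        refine Finset.sum_le_sum fun i hi => ?_
        rw [norm_mul, Complex.norm_intCast]
        exact mul_le_mul_of_nonneg_left (hg i hi) (abs_nonneg _)
    _ ≤ _ := by
        rw [← Finset.sum_mul]
        exact mul_le_mul_of_nonneg_right hB hM

/-- from the multiplicative relation to the approximate relation for `ff` -/
theorem approx_core {ι : Type} (T : Finset ι) (Q : ι → ℤ) (B κ η : ℝ) (m : ι → ℕ) (hη : 0 ≤ η)
    (hB : (∑ i ∈ T, |(Q i : ℝ)|) ≤ B) (h0 : ∑ i ∈ T, Q i = 0)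
    (hrel : ∑ i ∈ T, (Q i : ℝ) * Real.log (FF (m i)) = 0)
    (happ : ∀ i ∈ T, |Real.log (FF (m i)) - 2 * ff (m i - 1 / 24) - κ| ≤ η) :
    |∑ i ∈ T, (Q i : ℝ) * ff (m i - 1 / 24)| ≤ B * η := by
  have h0' : ∑ i ∈ T, (Q i : ℝ) = 0 := by exact_mod_cast h0
  have h1 : ∑ i ∈ T, (Q i : ℝ) * (Real.log (FF (m i)) - 2 * ff (m i - 1 / 24) - κ) =
      -2 * ∑ i ∈ T, (Q i : ℝ) * ff (m i - 1 / 24) := by
    have : ∀ i, (Q i : ℝ) * (Real.log (FF (m i)) - 2 * ff (m i - 1 / 24) - κ) =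
        (Q i : ℝ) * Real.log (FF (m i)) + (-2 * ((Q i : ℝ) * ff (m i - 1 / 24)) + (-κ) * Q i) := by
      intro i; ring
    simp_rw [this, Finset.sum_add_distrib, ← Finset.mul_sum, hrel, h0']
    ring
  have h2 : |∑ i ∈ T, (Q i : ℝ) * (Real.log (FF (m i)) - 2 * ff (m i - 1 / 24) - κ)| ≤ B * η := by
    calc _ ≤ ∑ i ∈ T, |(Q i : ℝ) * (Real.log (FF (m i)) - 2 * ff (m i - 1 / 24) - κ)| :=
          Finset.abs_sum_le_sum_abs _ _
      _ ≤ ∑ i ∈ T, |(Q i : ℝ)| * η := by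
          refine Finset.sum_le_sum fun i hi => ?_
          rw [abs_mul]
          exact mul_le_mul_of_nonneg_left (happ i hi) (abs_nonneg _)
      _ ≤ _ := by
          rw [← Finset.sum_mul]
          exact mul_le_mul_of_nonneg_right hB hη
  rw [h1, abs_mul] at h2
  have h3 := abs_nonneg (∑ i ∈ T, (Q i : ℝ) * ff (m i - 1 / 24))
  have h4 : |(-2 : ℝ)| = 2 := by norm_num
  rw [h4] at h2
  linarith

end Pool.Agent.MP_9cfd17_nt

end
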