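import Pool.Agent.Mg.F9cfd17.Ga63bb6

section

/-! Numerical and arithmetic lemmas for Theorem A. -/

namespace Pool.Agent.MP_9cfd17_nt

open Filter Topology

theorem numA (c v B x0 S R η : ℝ) (j J : ℕ) (hv : 400 ≤ v) (hvc : 84 ≤ c * v)
    (hB : B ≤ 2 * v ^ 22) (hx1 : v ^ 14 / 2 ≤ x0) (hx2 : x0 ≤ v ^ 14)
    (hS0 : 0 ≤ S) (hS : S ≤ v ^ 6) (hR0 : 0 ≤ R) (hR : R ≤ v ^ 2) (hJ1 : 11 ≤ J)
    (hJ2 : (J : ℝ) ≤ v ^ 2) (hj : (j : ℝ) ≤ 2 + J / 10) (hη0 : 0 ≤ η)
    (hη : η ≤ B * Real.exp (-c * (v ^ 7 / 2))) :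
    B * (9 * √x0) * (2 * S) ^ j * (4 * S * R / x0) ^ J + J * (η * x0 ^ j * R ^ J) < 1 := by
  have hv0 : 0 < v := by linarith
  have hv1 : 1 ≤ v := by linarith
  have hx0 : 0 < x0 := lt_of_lt_of_le (by positivity) hx1
  have hj' : 10 * j ≤ 20 + J := by
    have : (10 * j : ℝ) ≤ 20 + J := by linarith
    exact_mod_cast this
  have hsx : √x0 ≤ v ^ 7 := by
    rw [Real.sqrt_le_left (by positivity)]
    calc x0 ≤ v ^ 14 := hx2
      _ = _ := by ring
  have h1 : B * (9 * √x0) ≤ v ^ 30 := by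
    calc B * (9 * √x0) ≤ 2 * v ^ 22 * (9 * v ^ 7) :=
          mul_le_mul hB (by linarith) (by positivity) (by positivity)
      _ = 18 * v ^ 29 := by ring
      _ ≤ v * v ^ 29 := mul_le_mul_of_nonneg_right (by linarith) (by positivity)
      _ = _ := by ring
  have h2 : 2 * S ≤ v ^ 7 := by
    calc 2 * S ≤ v * v ^ 6 := mul_le_mul (by linarith) hS hS0 hv0.le
      _ = _ := by ring
  have h3 : 4 * S * R / x0 ≤ 1 / v ^ 5 := by
    rw [div_le_div_iff₀ hx0 (by positivity)]
    calc 4 * S * R * v ^ 5 ≤ 4 * v ^ 6 * v ^ 2 * v ^ 5 := by gcongr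
      _ = 8 * v ^ 13 / 2 := by ring
      _ ≤ v * v ^ 13 / 2 := by gcongr; linarith
      _ = v ^ 14 / 2 := by ring
      _ ≤ _ := by linarith
  have hA : B * (9 * √x0) * (2 * S) ^ j * (4 * S * R / x0) ^ J ≤ 1 / v := by
    calc _ ≤ v ^ 30 * (v ^ 7) ^ j * (1 / v ^ 5) ^ J := by gcongr
      _ = v ^ (30 + 7 * j) / v ^ (5 * J) := by
          rw [one_div, inv_pow, ← pow_mul, ← pow_mul, ← pow_add, div_eq_mul_inv]
      _ ≤ _ := by
          rw [div_le_div_iff₀ (by positivity) hv0, one_mul, ← pow_succ]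
          exact pow_le_pow_right₀ hv1 (by omega)
  have hB' : B ≤ v ^ 23 := by
    calc B ≤ 2 * v ^ 22 := hB
      _ ≤ v * v ^ 22 := mul_le_mul_of_nonneg_right (by linarith) (by positivity)
      _ = _ := by ring
  have hC : J * (η * x0 ^ j * R ^ J) ≤ Real.exp (-1) := by
    have h4 : v ^ (25 + 16 * J) ≤ Real.exp (41 * v ^ 3) := by
      calc v ^ (25 + 16 * J) ≤ Real.exp v ^ (25 + 16 * J) :=
            pow_le_pow_left₀ hv0.le (by linarith [Real.add_one_le_exp v]) _
        _ = Real.exp (((25 + 16 * J : ℕ) : ℝ) * v) := by rw [Real.exp_nat_mul]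
        _ ≤ _ := by
            refine Real.exp_le_exp.mpr ?_
            push_cast
            have h5 : 1 ≤ v ^ 2 := one_le_pow₀ hv1
            nlinarith
    calc J * (η * x0 ^ j * R ^ J)
        ≤ v ^ 2 * (v ^ 23 * Real.exp (-c * (v ^ 7 / 2)) * (v ^ 14) ^ j * (v ^ 2) ^ J) := by
          gcongr
          exact hη.trans (mul_le_mul_of_nonneg_right hB' (Real.exp_pos _).le)
      _ = v ^ (25 + 14 * j + 2 * J) * Real.exp (-c * (v ^ 7 / 2)) := by ring
      _ ≤ v ^ (25 + 16 * J) * Real.exp (-c * (v ^ 7 / 2)) :=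
          mul_le_mul_of_nonneg_right (pow_le_pow_right₀ hv1 (by omega)) (Real.exp_pos _).le
      _ ≤ Real.exp (41 * v ^ 3) * Real.exp (-c * (v ^ 7 / 2)) :=
          mul_le_mul_of_nonneg_right h4 (Real.exp_pos _).le
      _ ≤ _ := by
          rw [← Real.exp_add]
          refine Real.exp_le_exp.mpr ?_
          have h5 : 1 ≤ v ^ 3 := one_le_pow₀ hv1
          have h6 : 84 * v ^ 6 ≤ c * v * v ^ 6 := mul_le_mul_of_nonneg_right hvc (by positivity)
          have h7 : v ^ 3 ≤ v ^ 6 := pow_le_pow_right₀ hv1 (by norm_num)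
          nlinarith
  have hD : Real.exp (-1) ≤ 1 / 2 := by
    rw [Real.exp_neg, one_div]
    exact inv_anti₀ (by norm_num) (by linarith [Real.add_one_le_exp (1 : ℝ)])
  have hE : 1 / v ≤ 1 / 400 := one_div_le_one_div_of_le (by norm_num) hv
  linarith

theorem piLow (W : ℕ) (hW : 200 ≤ W) : (W : ℝ) / (2 * Real.log W) ≤ Nat.primeCounting W := by
  refine le_trans ?_ (Chebyshev.pi_ge W)
  have hW' : (200 : ℝ) ≤ W := by exact_mod_cast hW
  have hl : 0 < Real.log W := Real.log_pos (by linarith)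
  rw [mul_comm (2 : ℝ), ← div_div, div_right_comm]
  refine div_le_div_of_nonneg_right ?_ hl.le
  have h1 : Real.log (W + 1) ≤ 2 * √(W + 1) := by
    have h2 := Real.log_le_sub_one_of_pos (show 0 < √((W : ℝ) + 1) by positivity)
    rw [Real.log_sqrt (by positivity)] at h2
    linarith
  have h3 : √((W : ℝ) + 1) ≤ W / 12 := by
    rw [Real.sqrt_le_left (by positivity)]
    nlinarith
  have h4 := Real.log_two_gt_d9
  nlinarith

theorem totient_mul_dvd (M y : ℕ) (hy : 0 < y) (h : y ∣ M) :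
    Nat.totient (M * y) = y * Nat.totient M := by
  have h1 := Nat.totient_gcd_mul_totient_mul M y
  rw [Nat.gcd_eq_right h] at h1
  have h2 : 0 < Nat.totient y := Nat.totient_pos.mpr hy
  refine Nat.eq_of_mul_eq_mul_left h2 ?_
  rw [h1]; ring

theorem node_eq (z h l y n : ℕ) (hh : Nat.totient (primorial z) = 2 * h) (hl : l.Prime)
    (hz : z < l) (hy0 : 0 < y) (hy : y ∣ primorial z) (hn : primorial z * l * y ≤ n) :
    (n - primorial z * l * y) + Nat.totient (n - (n - primorial z * l * y)) / 2 +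
      y * ((primorial z - h) * l + h) = n := by
  have hco : (primorial z).Coprime l := by
    refine ((Nat.Prime.coprime_iff_not_dvd hl).mpr ?_).symm
    rw [hl.dvd_primorial_iff]; omega
  have hle : h ≤ primorial z := by have := Nat.totient_le (primorial z); omega
  rw [Nat.sub_sub_self hn, totient_mul_dvd _ y hy0 (hy.mul_right l), Nat.totient_mul hco,
    Nat.totient_prime hl, hh]
  obtain ⟨a, ha⟩ := Nat.exists_eq_add_of_le hle
  obtain ⟨b, hb⟩ : ∃ b, l = b + 1 := ⟨l - 1, by have := hl.pos; omega⟩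
  obtain ⟨d, hd⟩ := Nat.exists_eq_add_of_le hn
  have h1 : y * (2 * h * (l - 1)) / 2 = y * h * b := by
    rw [hb, Nat.add_sub_cancel, show y * (2 * h * b) = 2 * (y * h * b) by ring]
    exact Nat.mul_div_cancel_left _ (by norm_num)
  rw [h1]
  have h2 : n - primorial z * l * y = d := by omega
  rw [h2, hd, ha, Nat.add_sub_cancel_left, hb]
  ring

theorem card_div_primorial (z : ℕ) :
    2 ^ Nat.primeCounting z ≤ (primorial z).divisors.card := by
  rw [Nat.card_divisors (primorial_ne_zero z), ← Nat.primesLE_card_eq_primeCounting,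
    ← primeFactors_primorial]
  refine Finset.pow_card_le_prod _ _ _ fun p hp => ?_
  have := (Nat.prime_of_mem_primeFactors hp).factorization_pos_of_dvd (primorial_ne_zero z)
    (Nat.dvd_of_mem_primeFactors hp)
  omega

theorem growA (l : ℝ) (hl : 10 ^ 60 ≤ l) :
    12800 * l ^ 3 ≤ Real.exp (1 / 160 * l / Real.log l) := by
  have hl0 : 0 < l := by linarith
  have hlog : 0 < Real.log l := Real.log_pos (by linarith)
  obtain ⟨u, hu0, rfl⟩ : ∃ u : ℝ, 0 < u ∧ l = u ^ 2 :=
    ⟨√l, by positivity, (Real.sq_sqrt hl0.le).symm⟩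
  have hu : 10 ^ 30 ≤ u := by
    by_contra h
    have : u ^ 2 < (10 ^ 30) ^ 2 := pow_lt_pow_left₀ (not_le.mp h) hu0.le (by norm_num)
    linarith
  have h1 : Real.log (u ^ 2) ≤ 2 * u := by
    rw [Real.log_pow]
    have := Real.log_le_sub_one_of_pos hu0
    push_cast; linarith
  have h2 : u / 320 ≤ 1 / 160 * u ^ 2 / Real.log (u ^ 2) := by
    rw [le_div_iff₀ hlog]
    nlinarith
  refine le_trans ?_ (Real.exp_le_exp.mpr h2)
  refine le_trans ?_ (Real.pow_div_factorial_le_exp (u / 320) (by positivity) 7)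
  have h3 : (u / 320) ^ 7 / ((7 : ℕ).factorial : ℝ) = u / (320 ^ 7 * 5040) * (u ^ 2) ^ 3 := by
    simp only [Nat.factorial]; push_cast; ring
  rw [h3]
  refine mul_le_mul_of_nonneg_right ?_ (by positivity)
  rw [le_div_iff₀ (by norm_num)]
  linarith

theorem paramA (l : ℝ) (hl : 10 ^ 60 ≤ l) :
    ∃ z W : ℕ, 3 ≤ z ∧ (primorial z : ℝ) ≤ Real.exp (l / 14) ^ 2 ∧
      11 ≤ (primorial z).divisors.card ∧ (1 : ℝ) ≤ W ∧ (W : ℝ) ≤ Real.exp (l / 14) ^ 4 ∧
      √W * (2 * l) ≤ (primorial z).divisors.card / 10 ∧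
      4 * Real.exp (1 / 160 * l / Real.log l) * (primorial z).divisors.card ≤
        ((Nat.primesLE W).filter (fun p => z < p)).card := by
  have hl0 : 0 < l := by linarith
  have hlog : 0 < Real.log l := Real.log_pos (by linarith)
  have hE := growA l hl
  set E := Real.exp (1 / 160 * l / Real.log l) with hEdef
  set z := ⌊l / 10⌋₊ with hz
  have hz1 : (z : ℝ) ≤ l / 10 := Nat.floor_le (by positivity)
  have hz2 : l / 10 < z + 1 := Nat.lt_floor_add_one _
  have hz3 : 200 ≤ z := by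
    have : (200 : ℝ) ≤ z := by linarith
    exact_mod_cast this
  have hz3' : (200 : ℝ) ≤ z := by exact_mod_cast hz3
  set J := (primorial z).divisors.card with hJ
  have hR : (primorial z : ℝ) ≤ Real.exp (l / 14) ^ 2 := by
    have h1 : (primorial z : ℝ) ≤ 4 ^ z := by exact_mod_cast primorial_le_four_pow z
    refine h1.trans ?_
    have h2 : (4 : ℝ) = Real.exp (2 * Real.log 2) := by
      rw [show (2 : ℝ) * Real.log 2 = Real.log (2 ^ 2) by rw [Real.log_pow]; norm_num,
        Real.exp_log (by norm_num)]; norm_num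
    rw [h2, ← Real.exp_nat_mul, ← Real.exp_nat_mul]
    refine Real.exp_le_exp.mpr ?_
    have h3 := Real.log_two_lt_d9
    push_cast
    nlinarith
  have hJR : (J : ℝ) ≤ primorial z := by exact_mod_cast Nat.card_divisors_le_self _
  have hEJ : E ^ 2 ≤ J := by
    have h1 : (2 : ℝ) ^ Nat.primeCounting z ≤ J := by exact_mod_cast card_div_primorial z
    refine le_trans ?_ h1
    rw [hEdef, ← Real.exp_nat_mul, ← Real.exp_log (show (0 : ℝ) < 2 by norm_num),
      ← Real.exp_nat_mul]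
    refine Real.exp_le_exp.mpr ?_
    have h2 := piLow z hz3
    have h3 : Real.log z ≤ Real.log l := Real.log_le_log (by linarith) (by linarith)
    have h4 : 0 < Real.log z := Real.log_pos (by linarith)
    have h5 : l / 20 / (2 * Real.log l) ≤ z / (2 * Real.log z) :=
      div_le_div₀ (by positivity) (by linarith) (by positivity) (by linarith)
    have h6 : l / 20 / (2 * Real.log l) = 4 * (1 / 160 * l / Real.log l) := by
      field_simp; ring
    have h7 := Real.log_two_gt_d9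
    have h8 : 0 ≤ 1 / 160 * l / Real.log l := by positivity
    push_cast
    nlinarith
  have hl3 : l ≤ l ^ 3 := by nlinarith [mul_pos hl0 hl0]
  have hE1 : 12800 * l ≤ E := by linarith
  have hE2 : E ≤ E ^ 2 := by nlinarith
  have hJ1 : 12800 * l ≤ J := by linarith
  set X : ℝ := J / (20 * l) with hX
  have hX1 : 640 ≤ X := by rw [hX, le_div_iff₀ (by positivity)]; linarith
  have hX2 : X ≤ J := by
    rw [hX]; exact div_le_self (by positivity) (by linarith)
  set W := ⌊X ^ 2⌋₊ with hW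
  have hW1 : (W : ℝ) ≤ X ^ 2 := Nat.floor_le (by positivity)
  have hW2 : X ^ 2 < W + 1 := Nat.lt_floor_add_one _
  have hW3 : (200 : ℝ) ≤ W := by nlinarith
  have hW4 : (W : ℝ) ≤ Real.exp (l / 14) ^ 4 := by
    calc (W : ℝ) ≤ X ^ 2 := hW1
      _ ≤ (Real.exp (l / 14) ^ 2) ^ 2 := pow_le_pow_left₀ (by positivity) (by linarith) 2
      _ = _ := by ring
  refine ⟨z, W, by omega, hR, ?_, by linarith, hW4, ?_, ?_⟩
  · have : (11 : ℝ) ≤ J := by linarith
    exact_mod_cast this
  · have h1 : √W ≤ X := by rw [Real.sqrt_le_left (by positivity)]; exact hW1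
    calc √W * (2 * l) ≤ X * (2 * l) := mul_le_mul_of_nonneg_right h1 (by positivity)
      _ = _ := by rw [hX]; field_simp; ring
  · have h1 := piLow W (by exact_mod_cast hW3)
    have h2 : Real.log W ≤ l := by
      have := Real.log_le_log (by linarith) hW4
      rw [Real.log_pow, Real.log_exp] at this
      push_cast at this
      linarith
    have h3 : 0 < Real.log W := Real.log_pos (by linarith)
    have h4 : X ^ 2 / 2 / (2 * l) ≤ W / (2 * Real.log W) :=
      div_le_div₀ (by positivity) (by linarith) (by positivity) (by linarith)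
    have h5 : Nat.primeCounting W ≤ ((Nat.primesLE W).filter (fun p => z < p)).card + (z + 1) := by
      rw [← Nat.primesLE_card_eq_primeCounting,
        ← Finset.card_filter_add_card_filter_not (s := Nat.primesLE W) (fun p => z < p)]
      refine Nat.add_le_add_left ?_ _
      refine (Finset.card_le_card ?_).trans (Finset.card_range (z + 1)).le
      intro p hp
      have := (Finset.mem_filter.mp hp).2
      rw [Finset.mem_range]; omega
    have h5' : (Nat.primeCounting W : ℝ) ≤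
        ((Nat.primesLE W).filter (fun p => z < p)).card + (z + 1) := by exact_mod_cast h5
    have h6 : 8 * E * J ≤ X ^ 2 / 2 / (2 * l) := by
      have h7 : X ^ 2 / 2 / (2 * l) = J * J / (1600 * l ^ 3) := by rw [hX]; field_simp; ring
      rw [h7, le_div_iff₀ (by positivity)]
      have h8 : 12800 * l ^ 3 * E ≤ J := by nlinarith
      have h9 : (0 : ℝ) ≤ J := by positivity
      nlinarith
    have h10 : E ≤ E * J := le_mul_of_one_le_right (by positivity) (by linarith)
    show 4 * E * J ≤ _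
    nlinarith

end Pool.Agent.MP_9cfd17_nt

end

section

/-! Numerical and arithmetic lemmas for nodes given by products of two primes. -/

namespace Pool.Agent.MP_9cfd17_nt

open Filter Topology

theorem growA2 (l : ℝ) (hl : 10 ^ 7 ≤ l) : l ^ 4 ≤ Real.exp (l / 6) := by
  refine le_trans ?_ (Real.pow_div_factorial_le_exp (l / 6) (by linarith) 5)
  have h3 : (l / 6) ^ 5 / ((5 : ℕ).factorial : ℝ) = l / 933120 * l ^ 4 := by
    simp only [Nat.factorial]; push_cast; ring
  rw [h3]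
  refine le_mul_of_one_le_left (by positivity) ?_
  rw [le_div_iff₀ (by norm_num)]
  linarith

theorem numA2 (c l v B x0 S R η : ℝ) (j J : ℕ) (hl : 10 ^ 7 ≤ l) (hv : v = Real.exp (l / 6))
    (hc : 20 ≤ c * l) (_hB0 : 0 ≤ B) (hB : B ≤ 2 * v ^ 18) (hx1 : v ^ 6 ≤ x0) (hx2 : x0 ≤ 2 * v ^ 6)
    (hS0 : 0 ≤ S) (hS : S ≤ v ^ 4 / l ^ 4) (hR0 : 0 ≤ R) (hR : R ≤ 16 * v ^ 2 * l)
    (hJ1 : 6 * v ^ 2 ≤ J) (hJ2 : (J : ℝ) ≤ 7 * v ^ 2) (hj : (j : ℝ) * l ≤ 5 * v ^ 2) (hη0 : 0 ≤ η)
    (hη : η ≤ B * Real.exp (-c * (v ^ 3 / 2))) :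
    B * (9 * √x0) * (2 * S) ^ j * (4 * S * R / x0) ^ J + J * (η * x0 ^ j * R ^ J) < 1 := by
  have hl0 : 0 < l := by linarith
  have hl1 : 1 ≤ l := by linarith
  have hg : l ^ 4 ≤ v := hv ▸ growA2 l hl
  have hl4 : l ≤ l ^ 4 := le_self_pow₀ hl1 (by norm_num)
  have hlv : l ≤ v := hl4.trans hg
  have hv0 : 0 < v := by linarith
  have hv1 : 1 ≤ v := by linarith
  have hx0 : 0 < x0 := lt_of_lt_of_le (by positivity) hx1
  have he : ∀ k : ℕ, v ^ (6 * k) = Real.exp (k * l) := fun k => by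
    rw [hv, ← Real.exp_nat_mul]; congr 1; push_cast; ring
  have he1 : v ^ 6 = Real.exp l := by simpa using he 1
  have hm : ∀ (a : ℝ) (k m : ℕ), a ≤ v → k + 1 ≤ m → a * v ^ k ≤ v ^ m := fun a k m h1 h2 =>
    calc a * v ^ k ≤ v * v ^ k := mul_le_mul_of_nonneg_right h1 (by positivity)
      _ = v ^ (k + 1) := by ring
      _ ≤ _ := pow_le_pow_right₀ hv1 h2
  have hsx : √x0 ≤ 2 * v ^ 3 := by
    rw [Real.sqrt_le_left (by positivity)]
    nlinarith [pow_pos hv0 6]
  have h1 : B * (9 * √x0) ≤ Real.exp (5 * l) := by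
    calc B * (9 * √x0) ≤ 2 * v ^ 18 * (9 * (2 * v ^ 3)) :=
          mul_le_mul hB (by linarith) (by positivity) (by positivity)
      _ = 36 * v ^ 21 := by ring
      _ ≤ v ^ (6 * 5) := hm _ _ _ (by linarith) (by norm_num)
      _ = _ := by rw [he]; norm_num
  have hS4 : S ≤ v ^ 4 := hS.trans (div_le_self (by positivity) (one_le_pow₀ hl1))
  have h2 : (2 * S) ^ j ≤ Real.exp (5 * v ^ 2) := by
    have h3 : 2 * S ≤ Real.exp l := by
      rw [← he1]
      exact le_trans (by linarith) (hm 2 4 6 (by linarith) (by norm_num))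
    refine (pow_le_pow_left₀ (by positivity) h3 j).trans ?_
    rw [← Real.exp_nat_mul]
    exact Real.exp_le_exp.2 hj
  have h3 : 4 * S * R / x0 ≤ Real.exp (-1) := by
    have h4 : 4 * S * R / x0 ≤ 64 / l ^ 3 := by
      rw [div_le_iff₀ hx0]
      calc 4 * S * R ≤ 4 * (v ^ 4 / l ^ 4) * (16 * v ^ 2 * l) := by gcongr
        _ = 64 / l ^ 3 * v ^ 6 := by field_simp; ring
        _ ≤ _ := mul_le_mul_of_nonneg_left hx1 (by positivity)
    have h5 : 64 / l ^ 3 ≤ 1 / 3 := by
      rw [div_le_div_iff₀ (by positivity) (by norm_num)]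
      have : l ≤ l ^ 3 := le_self_pow₀ hl1 (by norm_num)
      linarith
    refine h4.trans (h5.trans ?_)
    rw [Real.exp_neg, one_div]
    exact inv_anti₀ (Real.exp_pos _) Real.exp_one_lt_three.le
  have h4 : (4 * S * R / x0) ^ J ≤ Real.exp (-(6 * v ^ 2)) := by
    refine (pow_le_pow_left₀ (by positivity) h3 J).trans ?_
    rw [← Real.exp_nat_mul]
    exact Real.exp_le_exp.2 (by linarith)
  have hvv : l * l ≤ v ^ 2 := by rw [pow_two]; exact mul_le_mul hlv hlv hl0.le hv0.le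
  have hA : B * (9 * √x0) * (2 * S) ^ j * (4 * S * R / x0) ^ J ≤ Real.exp (-1) := by
    calc _ ≤ Real.exp (5 * l) * Real.exp (5 * v ^ 2) * Real.exp (-(6 * v ^ 2)) := by gcongr
      _ ≤ _ := by
          rw [← Real.exp_add, ← Real.exp_add]
          exact Real.exp_le_exp.2 (by nlinarith)
  have hC : J * (η * x0 ^ j * R ^ J) ≤ Real.exp (-1) := by
    have a1 : (J : ℝ) ≤ Real.exp l := by
      rw [← he1]; exact hJ2.trans (hm 7 2 6 (by linarith) (by norm_num))
    have a2 : B ≤ Real.exp (4 * l) := by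
      have := hm 2 18 (6 * 4) (by linarith) (by norm_num)
      rw [he] at this
      exact hB.trans (by simpa using this)
    have a3 : x0 ^ j ≤ Real.exp (10 * v ^ 2) := by
      have a4 : x0 ≤ Real.exp (2 * l) := by
        have := hm 2 6 (6 * 2) (by linarith) (by norm_num)
        rw [he] at this
        exact hx2.trans (by simpa using this)
      refine (pow_le_pow_left₀ hx0.le a4 j).trans ?_
      rw [← Real.exp_nat_mul]
      exact Real.exp_le_exp.2 (by linarith)
    have a5 : R ^ J ≤ Real.exp (7 * v ^ 2 * l) := by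
      have a6 : R ≤ Real.exp l := by
        rw [← he1]
        calc R ≤ 16 * v ^ 2 * v := hR.trans (mul_le_mul_of_nonneg_left hlv (by positivity))
          _ = 16 * v ^ 3 := by ring
          _ ≤ _ := hm 16 3 6 (by linarith) (by norm_num)
      refine (pow_le_pow_left₀ hR0 a6 J).trans ?_
      rw [← Real.exp_nat_mul]
      exact Real.exp_le_exp.2 (mul_le_mul_of_nonneg_right hJ2 hl0.le)
    have a7 : η ≤ Real.exp (4 * l) * Real.exp (-c * (v ^ 3 / 2)) :=
      hη.trans (mul_le_mul_of_nonneg_right a2 (Real.exp_pos _).le)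
    calc J * (η * x0 ^ j * R ^ J)
        ≤ Real.exp l * (Real.exp (4 * l) * Real.exp (-c * (v ^ 3 / 2)) * Real.exp (10 * v ^ 2) *
          Real.exp (7 * v ^ 2 * l)) := by gcongr
      _ ≤ _ := by
          rw [← Real.exp_add, ← Real.exp_add, ← Real.exp_add, ← Real.exp_add]
          refine Real.exp_le_exp.2 ?_
          have b0 : 0 < c := by
            by_contra h
            nlinarith
          have b1 : l * l ≤ v := by
            have : l ^ 2 ≤ l ^ 4 := pow_le_pow_right₀ hl1 (by norm_num)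
            nlinarith
          have b2 : 20 * l ≤ c * v := by nlinarith
          have b3 : 20 * l * v ^ 2 ≤ c * v * v ^ 2 := mul_le_mul_of_nonneg_right b2 (by positivity)
          have b4 : 10 ^ 7 * v ^ 2 ≤ l * v ^ 2 := mul_le_mul_of_nonneg_right hl (by positivity)
          have b5 : l ≤ v ^ 2 := by nlinarith
          nlinarith
  have hD : Real.exp (-1) < 1 / 2 := by
    rw [Real.exp_neg, one_div]
    exact inv_strictAnti₀ (by norm_num) (by linarith [Real.exp_one_gt_d9])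
  linarith

theorem paramA2 (l v : ℝ) (hl : 10 ^ 7 ≤ l) (hv : v = Real.exp (l / 6)) :
    ∃ (V W : ℕ) (Y : Finset ℕ), 2 ≤ W ∧ (1 : ℝ) ≤ V ∧ (V : ℝ) ≤ v ^ 4 / l ^ 4 ∧
      (W : ℝ) + 1 ≤ 16 * v ^ 2 * l ∧ Y ⊆ Nat.primesLE W ∧ 6 * v ^ 2 ≤ Y.card ∧
      (Y.card : ℝ) ≤ 7 * v ^ 2 ∧
      v ^ 4 / (8 * l ^ 5) ≤ ((Nat.primesLE V).filter (fun p => W < p)).card := by
  have hl0 : 0 < l := by linarith
  have hl1 : 1 ≤ l := by linarith
  have hg : l ^ 4 ≤ v := hv ▸ growA2 l hl
  have hl4 : l ≤ l ^ 4 := le_self_pow₀ hl1 (by norm_num)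
  have hlv : l ≤ v := hl4.trans hg
  have hv0 : 0 < v := by linarith
  have hv1 : 1 ≤ v := by linarith
  have hv2 : v ≤ v ^ 2 := le_self_pow₀ hv1 (by norm_num)
  have he1 : v ^ 6 = Real.exp l := by
    rw [hv, ← Real.exp_nat_mul]; congr 1; push_cast; ring
  have hlog : ∀ x : ℝ, 0 < x → x ≤ v ^ 6 → Real.log x ≤ l := fun x h1 h2 => by
    have := Real.log_le_log h1 h2
    rwa [he1, Real.log_exp] at this
  set W := ⌈14 * v ^ 2 * l⌉₊ with hW
  have hW1 : 14 * v ^ 2 * l ≤ W := Nat.le_ceil _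
  have hW2 : (W : ℝ) < 14 * v ^ 2 * l + 1 := Nat.ceil_lt_add_one (by positivity)
  have hvl : v ≤ v ^ 2 * l := hv2.trans (le_mul_of_one_le_right (by positivity) hl1)
  have hW3 : (200 : ℝ) ≤ W := by linarith
  have hW4 : (W : ℝ) + 1 ≤ 16 * v ^ 2 * l := by linarith
  have hW5 : (W : ℝ) ≤ v ^ 6 := by
    have h1 : 16 * v ^ 2 * l ≤ v * v ^ 2 * v := by gcongr; linarith
    have h2 : v * v ^ 2 * v = v ^ 4 := by ring
    have h3 : v ^ 4 ≤ v ^ 6 := pow_le_pow_right₀ hv1 (by norm_num)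
    linarith
  have hπW : 7 * v ^ 2 ≤ Nat.primeCounting W := by
    refine le_trans ?_ (piLow W (by exact_mod_cast hW3))
    have h1 := hlog W (by linarith) hW5
    have h2 : 0 < Real.log W := Real.log_pos (by linarith)
    rw [le_div_iff₀ (by positivity)]
    nlinarith [mul_le_mul_of_nonneg_left h1 (show 0 ≤ 14 * v ^ 2 by positivity)]
  have hJ1 : 6 * v ^ 2 ≤ (⌈6 * v ^ 2⌉₊ : ℝ) := Nat.le_ceil _
  have hJ2 : (⌈6 * v ^ 2⌉₊ : ℝ) ≤ 7 * v ^ 2 := by
    have := Nat.ceil_lt_add_one (show 0 ≤ 6 * v ^ 2 by positivity)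
    linarith
  obtain ⟨Y, hY1, hY2⟩ := Finset.exists_subset_card_eq (s := Nat.primesLE W) (n := ⌈6 * v ^ 2⌉₊)
    (by rw [Nat.primesLE_card_eq_primeCounting]; exact_mod_cast hJ2.trans hπW)
  set X : ℝ := v ^ 4 / l ^ 4 with hX
  have hX1 : v ^ 3 ≤ X := by
    rw [hX, le_div_iff₀ (by positivity)]
    calc v ^ 3 * l ^ 4 ≤ v ^ 3 * v := by gcongr
      _ = _ := by ring
  have hv3 : v ≤ v ^ 3 := le_self_pow₀ hv1 (by norm_num)
  have hX2 : X ≤ v ^ 6 :=
    (div_le_self (by positivity) (one_le_pow₀ hl1)).trans (pow_le_pow_right₀ hv1 (by norm_num))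
  set V := ⌊X⌋₊ with hV
  have hV1 : (V : ℝ) ≤ X := Nat.floor_le (by positivity)
  have hV2 : X < V + 1 := Nat.lt_floor_add_one _
  have hV3 : (200 : ℝ) ≤ V := by linarith
  refine ⟨V, W, Y, by exact_mod_cast (show (2 : ℝ) ≤ W by linarith), by linarith, hV1, hW4, hY1,
    by rw [hY2]; exact hJ1, by rw [hY2]; exact hJ2, ?_⟩
  have h1 := piLow V (by exact_mod_cast hV3)
  have h2 := hlog V (by linarith) (hV1.trans hX2)
  have h3 : 0 < Real.log V := Real.log_pos (by linarith)
  have h4 : X / 2 / (2 * l) ≤ V / (2 * Real.log V) :=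
    div_le_div₀ (by positivity) (by linarith) (by positivity) (by linarith)
  have h5 : Nat.primeCounting V ≤ ((Nat.primesLE V).filter (fun p => W < p)).card + (W + 1) := by
    rw [← Nat.primesLE_card_eq_primeCounting,
      ← Finset.card_filter_add_card_filter_not (s := Nat.primesLE V) (fun p => W < p)]
    refine Nat.add_le_add_left ?_ _
    refine (Finset.card_le_card ?_).trans (Finset.card_range (W + 1)).le
    intro p hp
    have := (Finset.mem_filter.mp hp).2
    rw [Finset.mem_range]; omega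
  have h5' : (Nat.primeCounting V : ℝ) ≤
      ((Nat.primesLE V).filter (fun p => W < p)).card + (W + 1) := by exact_mod_cast h5
  have h6 : X / 2 / (2 * l) = 2 * (v ^ 4 / (8 * l ^ 5)) := by rw [hX]; field_simp; ring
  have h7 : 16 * v ^ 2 * l ≤ v ^ 4 / (8 * l ^ 5) := by
    rw [le_div_iff₀ (by positivity)]
    have h8 : 128 * l ^ 6 ≤ v ^ 2 := by
      have h9 : (l ^ 4) ^ 2 ≤ v ^ 2 := pow_le_pow_left₀ (by positivity) hg 2
      have h10 : 128 * l ^ 6 ≤ l ^ 2 * l ^ 6 :=
        mul_le_mul_of_nonneg_right (by nlinarith) (by positivity)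
      nlinarith
    calc 16 * v ^ 2 * l * (8 * l ^ 5) = v ^ 2 * (128 * l ^ 6) := by ring
      _ ≤ v ^ 2 * v ^ 2 := by gcongr
      _ = _ := by ring
  linarith

theorem node_eq2 (p q n : ℕ) (hp : p.Prime) (hq : q.Prime) (hqp : q < p) (hn : p * q ≤ n) :
    (n - p * q) + Nat.totient (n - (n - p * q)) / 2 + (q + 1) * ((p + 1) / 2) = n + 1 := by
  obtain ⟨h, rfl⟩ : ∃ h, p = 2 * h + 1 := hp.odd_of_ne_two (by have := hq.two_le; omega)
  obtain ⟨r, rfl⟩ : ∃ r, q = r + 1 := ⟨q - 1, by have := hq.two_le; omega⟩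
  rw [Nat.sub_sub_self hn, Nat.totient_mul ((Nat.coprime_primes hp hq).2 hqp.ne'),
    Nat.totient_prime hp, Nat.totient_prime hq]
  have h1 : (2 * h + 1 - 1) * (r + 1 - 1) / 2 = h * r := by
    rw [Nat.add_sub_cancel, Nat.add_sub_cancel, mul_assoc, Nat.mul_div_cancel_left _ two_pos]
  have h2 : (2 * h + 1 + 1) / 2 = h + 1 := by omega
  rw [h1, h2]
  obtain ⟨d, rfl⟩ := Nat.exists_eq_add_of_le hn
  rw [Nat.add_sub_cancel_left]
  ring

end Pool.Agent.MP_9cfd17_nt

end
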