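import Pool.Agent.Mg.F9cfd17.Ga63bb6
import Pool.Agent.Mg.F9cfd17.Gb86203

section

/-! Sharper bounds for the Taylor coefficients of the square root and of the correction. -/

namespace Pool.Agent.MP_9cfd17_nt

open Complex Metric Filter Topology

theorem low_Coef2 (j : ℕ) (hj : 2 ≤ j) :
    1 ≤ 16 * (j : ℝ) ^ 2 * (j - 1) *
      ‖(∏ i ∈ Finset.range j, (1 / 2 - (i : ℂ))) / (j.factorial : ℂ)‖ ^ 2 := by
  induction j, hj using Nat.le_induction with
  | base => norm_num [Finset.prod_range_succ]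
  | succ j hj ih =>
    have j1 : (2 : ℝ) ≤ j := by exact_mod_cast hj
    have e : (∏ i ∈ Finset.range (j + 1), (1 / 2 - (i : ℂ))) / ((j + 1).factorial : ℂ) =
        (∏ i ∈ Finset.range j, (1 / 2 - (i : ℂ))) / (j.factorial : ℂ) *
          ((-((j - 1 / 2) / (j + 1)) : ℝ) : ℂ) := by
      rw [Finset.prod_range_succ, Nat.factorial_succ]
      push_cast
      rw [← neg_div, neg_sub, div_mul_div_comm, mul_comm (j.factorial : ℂ)]
    have p : (0 : ℝ) ≤ (j - 1 / 2) / (j + 1) := div_nonneg (by linarith) (by linarith)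
    rw [e, norm_mul, norm_real, norm_neg, Real.norm_of_nonneg p, Nat.cast_succ]
    refine ih.trans ?_
    set a := ‖(∏ i ∈ Finset.range j, (1 / 2 - (i : ℂ))) / (j.factorial : ℂ)‖
    have h1 : 16 * ((j : ℝ) + 1) ^ 2 * (j + 1 - 1) * (a * ((j - 1 / 2) / (j + 1))) ^ 2
        = 16 * (j * (j - 1 / 2) ^ 2) * a ^ 2 := by field_simp; ring
    rw [h1]
    refine mul_le_mul_of_nonneg_right ?_ (sq_nonneg a)
    nlinarith

theorem coef2a (j : ℕ) (hj : 1 ≤ j) :
    1 ≤ 16 * (j : ℝ) ^ 3 * ‖iteratedDeriv j sq 0 / (j.factorial : ℂ)‖ ^ 2 := by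
  rw [der_Taylor j 0 (by simp), add_zero, one_cpow, mul_one]
  rcases hj.eq_or_lt with h | h
  · subst h
    norm_num
  · refine (low_Coef2 j h).trans (mul_le_mul_of_nonneg_right ?_ (sq_nonneg _))
    nlinarith [sq_nonneg (j : ℝ)]

theorem coef2b (j : ℕ) (hj : 1 ≤ j) (e : ℂ) (he : ‖e‖ ≤ 1 / (4 * ((j : ℝ) + 1))) :
    ‖iteratedDeriv j (Lg e) 0 / (j.factorial : ℂ)‖ ≤ 3 * Real.log (j + 1) + 18 := by
  have j1 : (1 : ℝ) ≤ j := by exact_mod_cast hj
  have hl : 0 ≤ Real.log (j + 1) := Real.log_nonneg (by linarith)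
  have key : ∀ u ∈ closedBall (0 : ℂ) (j / (j + 1)), ‖u‖ < 1 ∧ 1 / ((j : ℝ) + 1) ≤ ‖1 + u‖ ∧
      sq u ≠ 0 ∧ ‖e / sq u‖ ≤ 1 / 4 := by
    intro u hu
    rw [mem_closedBall_zero_iff] at hu
    have a0 : (0 : ℝ) < 1 / (j + 1) := by positivity
    have a1 : (j : ℝ) / (j + 1) = 1 - 1 / (j + 1) := by field_simp; ring
    have a2 : 1 / ((j : ℝ) + 1) ≤ ‖1 + u‖ := by
      have := norm_sub_norm_le (1 : ℂ) (-u)
      rw [norm_one, norm_neg, sub_neg_eq_add] at this
      linarith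
    have a3 : ‖sq u‖ = ‖1 + u‖ ^ (1 / 2 : ℝ) := by
      rw [← norm_cpow_real, sq]
      norm_num
    have a4 : 1 / ((j : ℝ) + 1) ≤ ‖sq u‖ := by
      rw [a3]
      refine le_trans ?_ (Real.rpow_le_rpow a0.le a2 (by norm_num))
      refine Real.self_le_rpow_of_le_one a0.le ?_ (by norm_num)
      rw [div_le_one (by linarith)]
      linarith
    refine ⟨by linarith, a2, norm_pos_iff.1 (a0.trans_le a4), ?_⟩
    rw [norm_div, div_le_iff₀ (a0.trans_le a4)]
    refine he.trans (le_trans (le_of_eq ?_) (mul_le_mul_of_nonneg_left a4 (by norm_num)))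
    rw [div_mul_div_comm, one_mul]
  refine cauchy_Taylor (M := Real.log (j + 1) + 6) (r := j / (j + 1)) j (by positivity)
    (fun u hu => ?_) (fun u hu => ?_) ?_
  · obtain ⟨k1, -, k3, k4⟩ := key u hu
    have s1 := mem_slitPlane_of_norm_lt_one k1
    have d1 : DifferentiableAt ℂ sq u := (differentiableAt_id.const_add 1).cpow_const s1
    have s2 : 1 - e / sq u ∈ slitPlane := by
      rw [sub_eq_add_neg]
      exact mem_slitPlane_of_norm_lt_one (by rw [norm_neg]; linarith)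
    exact ((((differentiableAt_const e).div d1 k3).const_sub 1).clog s2).sub
      ((differentiableAt_id.const_add 1).clog s1)
  · obtain ⟨k1, k2, -, k4⟩ := key u hu
    have b1 := norm_log_one_add_half_le_self (z := -(e / sq u)) (by rw [norm_neg]; linarith)
    rw [norm_neg, ← sub_eq_add_neg] at b1
    have b2 := norm_le_abs_re_add_abs_im (log (1 + u))
    rw [log_re, log_im] at b2
    have b3 := abs_arg_le_pi (1 + u)
    have a0 : (0 : ℝ) < 1 / (j + 1) := by positivity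
    have b4 : |Real.log ‖1 + u‖| ≤ Real.log (j + 1) + 1 := by
      refine abs_le.2 ⟨?_, ?_⟩
      · have c1 := Real.log_le_log a0 k2
        rw [one_div, Real.log_inv] at c1
        linarith
      · have c1 := norm_add_le (1 : ℂ) u
        rw [norm_one] at c1
        linarith [Real.log_le_sub_one_of_pos (a0.trans_le k2)]
    refine (norm_sub_le _ _).trans ?_
    linarith [Real.pi_le_four]
  · have c1 := (Real.one_add_inv_pow_le_exp (n := j)).trans Real.exp_one_lt_three.le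
    have c2 : ((j : ℝ) / (j + 1))⁻¹ = 1 + (j : ℝ)⁻¹ := by field_simp
    rw [div_eq_mul_inv, ← inv_pow, c2]
    nlinarith

end Pool.Agent.MP_9cfd17_nt

end

section

/-! The extrapolation inequality for dilated nodes `x0 - y * s i`, long range of orders. -/

namespace Pool.Agent.MP_9cfd17_nt

open Complex Metric Filter Topology

theorem keyA2 (hV : VanishStmt) (hS : SchwarzStmt) (hT : TaylorStmt) (hL : LgStmt)
    {ι : Type} (T : Finset ι) (s : ι → ℕ) (Q : ι → ℤ) (α V B S x0 η R : ℝ) (Y : Finset ℕ)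
    (hα : 0 < α) (hV1 : 1 ≤ V)
    (hgap : ∀ i ∈ T, ∀ i' ∈ T, i ≠ i' → α ≤ |(s i : ℝ) - s i'| ∧ |(s i : ℝ) - s i'| ≤ α * V)
    (hQ : ∃ i ∈ T, Q i ≠ 0) (hB : (∑ i ∈ T, |(Q i : ℝ)|) ≤ B) (h0 : ∑ i ∈ T, Q i = 0)
    (hs : ∀ i ∈ T, (s i : ℝ) ≤ S) (hS1 : 1 ≤ S) (hR : 1 ≤ R)
    (hY : ∀ y ∈ Y, 1 ≤ y ∧ (y : ℝ) ≤ R) (hx : 4 * S * R ≤ x0) (hη : 0 ≤ η)
    (happ : ∀ y ∈ Y, |∑ i ∈ T, (Q i : ℝ) * ff (x0 - y * s i)| ≤ η)
    (hj : ∀ j : ℕ, (j : ℝ) ≤ 2 + √V * Real.log (2 * B) →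
      4 * (j : ℝ) ^ 3 * (3 * Real.log (j + 1) + 19) ^ 2 ≤ x0) :
    ∃ j : ℕ, (j : ℝ) ≤ 2 + √V * Real.log (2 * B) ∧
      1 ≤ B * (9 * √x0) * (2 * S) ^ j * (4 * S * R / x0) ^ Y.card +
        Y.card * (η * x0 ^ j * R ^ Y.card) := by
  classical
  obtain ⟨j, hj1, hj2, hmom, hne⟩ := order_core hV T s Q α V B hα hV1 hgap hQ hB h0
  refine ⟨j, hj2, ?_⟩
  obtain ⟨hsqd, hsqb, -, hLb, hff, hC1, hC2⟩ := id hL
  have hx4 : 4 ≤ x0 := by nlinarith
  have hx0 : 0 < x0 := by linarith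
  have hS0 : 0 < S := by linarith
  have hsx : 2 ≤ √x0 := by
    rw [show (2 : ℝ) = √4 by rw [show (4 : ℝ) = 2 ^ 2 by norm_num, Real.sqrt_sq (by norm_num)]]
    exact Real.sqrt_le_sqrt hx4
  have hj1' : (1 : ℝ) ≤ j := by exact_mod_cast hj1
  have hj3 := hj j hj2
  have hlj : 0 ≤ Real.log (j + 1) := Real.log_nonneg (by linarith)
  have hB0 : 0 ≤ B := le_trans (Finset.sum_nonneg fun _ _ => abs_nonneg _) hB
  set lam : ℝ := CC * √x0 with hlam
  have hlam2 : 25 / 4 * x0 ≤ lam ^ 2 := by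
    rw [hlam, mul_pow, Real.sq_sqrt hx0.le]
    exact mul_le_mul_of_nonneg_right (by nlinarith) hx0.le
  have hlamp : 0 ≤ lam := by rw [hlam]; exact mul_nonneg (by linarith) (by linarith)
  have hlam1 : 8 * (j : ℝ) ≤ lam := by
    refine (pow_le_pow_iff_left₀ (by positivity) hlamp two_ne_zero).1 ?_
    have h1 : (j : ℝ) ^ 2 ≤ (j : ℝ) ^ 3 := pow_le_pow_right₀ hj1' (by norm_num)
    have h2 : (19 : ℝ) ^ 2 ≤ (3 * Real.log (j + 1) + 19) ^ 2 :=
      pow_le_pow_left₀ (by norm_num) (by linarith) 2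
    have h3 := mul_le_mul h1 h2 (by norm_num) (by positivity)
    nlinarith [sq_nonneg (j : ℝ)]
  have hlam0 : 0 < lam := by linarith
  set e : ℂ := ((1 / lam : ℝ) : ℂ) with he
  have hen : ‖e‖ = 1 / lam := by
    rw [he, Complex.norm_real, Real.norm_of_nonneg (by positivity)]
  have he1 : ‖e‖ ≤ 1 / (4 * ((j : ℝ) + 1)) := by
    rw [hen]; exact one_div_le_one_div_of_le (by positivity) (by linarith)
  have he2 : ‖e‖ < 1 / 4 := by
    rw [hen]; exact one_div_lt_one_div_of_lt (by norm_num) (by linarith)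
  have hLd := lg_diff_core hL e he2
  set Φ : ℂ → ℂ := fun u => ∑ i ∈ T, (Q i : ℂ) * ((lam : ℂ) * sq (s i * u) + Lg e (s i * u)) with hΦ
  set μ : ℤ := ∑ i ∈ T, Q i * (s i : ℤ) ^ j with hμ
  set c1 : ℂ := iteratedDeriv j sq 0 / (j.factorial : ℂ) with hc1
  set c2 : ℂ := iteratedDeriv j (Lg e) 0 / (j.factorial : ℂ) with hc2
  have hnorm : ∀ i ∈ T, ∀ u : ℂ, ‖(s i : ℂ) * u‖ ≤ S * ‖u‖ := by
    intro i hi u
    rw [norm_mul, Complex.norm_natCast]
    exact mul_le_mul_of_nonneg_right (hs i hi) (norm_nonneg _)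
  have hdiff : DifferentiableOn ℂ Φ (ball 0 (6 / 5 * (1 / (2 * S)))) := by
    refine DifferentiableOn.fun_sum fun i hi => DifferentiableOn.const_mul ?_ _
    have hmaps : Set.MapsTo (fun u : ℂ => (s i : ℂ) * u) (ball 0 (6 / 5 * (1 / (2 * S))))
        (ball 0 (3 / 4)) := by
      intro u hu
      have hu' : ‖u‖ < 6 / 5 * (1 / (2 * S)) := by simpa using hu
      have h1 := hnorm i hi u
      have h2 : S * ‖u‖ ≤ S * (6 / 5 * (1 / (2 * S))) := mul_le_mul_of_nonneg_left hu'.le hS0.le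
      have h3 : S * (6 / 5 * (1 / (2 * S))) = 3 / 5 := by field_simp; ring
      simp only [mem_ball, dist_zero_right]
      linarith
    have hlin : DifferentiableOn ℂ (fun u : ℂ => (s i : ℂ) * u) (ball 0 (6 / 5 * (1 / (2 * S)))) := by
      fun_prop
    exact ((hsqd.comp hlin hmaps).const_mul _).add (hLd.comp hlin hmaps)
  have hbound : ∀ u ∈ sphere (0 : ℂ) (1 / (2 * S)), ‖Φ u‖ ≤ B * (9 * √x0) := by
    intro u hu
    have hu' : ‖u‖ = 1 / (2 * S) := by simpa using hu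
    refine sum_bound_core T Q B _ _ (by positivity) hB fun i hi => ?_
    have h1 : ‖(s i : ℂ) * u‖ ≤ 1 / 2 := by
      refine (hnorm i hi u).trans (le_of_eq ?_)
      rw [hu']; field_simp
    have h2 := hsqb _ (by simpa using h1 : (s i : ℂ) * u ∈ closedBall (0 : ℂ) (1 / 2))
    have h3 := hLb e _ he2.le h1
    calc _ ≤ ‖(lam : ℂ) * sq (s i * u)‖ + ‖Lg e (s i * u)‖ := norm_add_le _ _
      _ ≤ lam * 2 + 5 := by
          rw [norm_mul, Complex.norm_real, Real.norm_of_nonneg hlam0.le]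
          exact add_le_add (mul_le_mul_of_nonneg_left h2 hlam0.le) h3
      _ ≤ _ := by rw [hlam]; nlinarith
  have htend : Tendsto (fun u => Φ u / u ^ j) (𝓝[≠] 0) (𝓝 ((lam * c1 + c2) * μ)) := by
    refine tendsto_core Φ _ j ((lam * (B * (2 * 2)) + B * (2 * 5)) * (2 * S) ^ (j + 1))
      (1 / (4 * S)) (by positivity) fun u hu => ?_
    have hv : S * ‖u‖ ≤ 1 / 4 := by
      refine (mul_le_mul_of_nonneg_left hu hS0.le).trans (le_of_eq ?_)
      field_simp
    have h1 := comb_core hT T s Q B S 2 j sq hsqd hsqb hs hB hmom u hS0.le hv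
    have h2 := comb_core hT T s Q B S 5 j (Lg e) hLd
      (fun w hw => hLb e w he2.le (by simpa using hw)) hs hB hmom u hS0.le hv
    have h3 : Φ u - (lam * c1 + c2) * μ * u ^ j =
        lam * (∑ i ∈ T, (Q i : ℂ) * sq (s i * u) - c1 * μ * u ^ j) +
        (∑ i ∈ T, (Q i : ℂ) * Lg e (s i * u) - c2 * μ * u ^ j) := by
      have : Φ u = lam * ∑ i ∈ T, (Q i : ℂ) * sq (s i * u) + ∑ i ∈ T, (Q i : ℂ) * Lg e (s i * u) := by
        rw [hΦ, Finset.mul_sum, ← Finset.sum_add_distrib]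
        refine Finset.sum_congr rfl fun i _ => ?_
        ring
      rw [this]; ring
    rw [h3]
    calc _ ≤ ‖(lam : ℂ) * (∑ i ∈ T, (Q i : ℂ) * sq (s i * u) - c1 * μ * u ^ j)‖ +
          ‖∑ i ∈ T, (Q i : ℂ) * Lg e (s i * u) - c2 * μ * u ^ j‖ := norm_add_le _ _
      _ ≤ lam * (B * (2 * 2 * (2 * S * ‖u‖) ^ (j + 1))) +
          B * (2 * 5 * (2 * S * ‖u‖) ^ (j + 1)) := by
          rw [norm_mul, Complex.norm_real, Real.norm_of_nonneg hlam0.le]
          exact add_le_add (mul_le_mul_of_nonneg_left h1 hlam0.le) h2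
      _ = _ := by rw [mul_pow (2 * S)]; ring
  have hωn : ∀ y : ℕ, ‖((-(y : ℝ) / x0 : ℝ) : ℂ)‖ = y / x0 := by
    intro y
    rw [Complex.norm_real, Real.norm_eq_abs, abs_div, abs_neg, abs_of_pos hx0, Nat.abs_cast]
  have hmain := hS ℕ Y (fun y => ((-(y : ℝ) / x0 : ℝ) : ℂ)) Φ (1 / (2 * S)) (R / x0)
    (B * (9 * √x0)) j _ (by positivity)
    (by rw [← mul_div_assoc, div_le_div_iff₀ hx0 (by positivity)]; linarith) hdiff hbound htend
    (by
      intro y _ y' _ h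
      have h1 : -(y : ℝ) / x0 = -(y' : ℝ) / x0 := Complex.ofReal_injective h
      field_simp at h1
      exact_mod_cast neg_injective h1)
    (by
      intro y hy
      obtain ⟨h1, h2⟩ := hY y hy
      have h1' : (1 : ℝ) ≤ y := by exact_mod_cast h1
      refine ⟨?_, ?_⟩
      · rw [← norm_pos_iff, hωn]; positivity
      · rw [hωn]; exact div_le_div_of_nonneg_right h2 hx0.le)
  have hlow : 1 ≤ ‖((lam : ℂ) * c1 + c2) * μ‖ := by
    rw [norm_mul]
    have h1 := one_le_norm_int_core μ hne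
    have h2 := coef2a j hj1
    have h3 := coef2b j hj1 e he1
    have h4 : ‖(lam : ℂ) * c1‖ - ‖c2‖ ≤ ‖(lam : ℂ) * c1 + c2‖ := by
      have := norm_sub_le ((lam : ℂ) * c1 + c2) c2
      rw [add_sub_cancel_right] at this
      linarith
    rw [norm_mul, Complex.norm_real, Real.norm_of_nonneg hlam0.le] at h4
    have h5 : 3 * Real.log (j + 1) + 19 ≤ lam * ‖c1‖ := by
      refine (pow_le_pow_iff_left₀ (by positivity) (by positivity) two_ne_zero).1 ?_
      have h6 := mul_le_mul_of_nonneg_left h2 (sq_nonneg (3 * Real.log (j + 1) + 19))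
      have h7 : 16 * (j : ℝ) ^ 3 * (3 * Real.log (j + 1) + 19) ^ 2 ≤ lam ^ 2 := by linarith
      have h9 := mul_le_mul_of_nonneg_right h7 (sq_nonneg ‖c1‖)
      rw [mul_pow]
      linarith
    have h8 : 1 ≤ ‖(lam : ℂ) * c1 + c2‖ := by linarith
    nlinarith
  refine hlow.trans (hmain.trans (add_le_add (le_of_eq ?_) ?_))
  · have h1 : 2 * (R / x0) / (1 / (2 * S)) = 4 * S * R / x0 := by field_simp; ring
    rw [h1, one_div, inv_pow, div_inv_eq_mul]
  · rw [← nsmul_eq_mul]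
    refine Finset.sum_le_card_nsmul _ _ _ fun y hy => ?_
    obtain ⟨h1, h2⟩ := hY y hy
    have h1' : (1 : ℝ) ≤ y := by exact_mod_cast h1
    have hval : Φ ((-(y : ℝ) / x0 : ℝ) : ℂ) =
        ((∑ i ∈ T, (Q i : ℝ) * ff (x0 - y * s i) : ℝ) : ℂ) := by
      have h0' : ∑ i ∈ T, (Q i : ℂ) = 0 := by exact_mod_cast h0
      have h3 : ∀ i ∈ T, (Q i : ℂ) * ((lam : ℂ) * sq (s i * ((-(y : ℝ) / x0 : ℝ) : ℂ)) +
          Lg e (s i * ((-(y : ℝ) / x0 : ℝ) : ℂ))) =
          (((Q i : ℝ) * ff (x0 - y * s i) : ℝ) : ℂ) + (Real.log x0 : ℝ) * (Q i : ℂ) := by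
        intro i hi
        have hu : |(s i : ℝ) * (-(y : ℝ) / x0)| ≤ 1 / 2 := by
          rw [abs_mul, abs_div, abs_neg, abs_of_pos hx0, Nat.abs_cast, Nat.abs_cast,
            ← mul_div_assoc, div_le_iff₀ hx0]
          have : (s i : ℝ) * y ≤ S * R := mul_le_mul (hs i hi) h2 (by positivity) hS0.le
          nlinarith
        have h4 := hff x0 _ hx4 hu
        have h5 : x0 * (1 + (s i : ℝ) * (-(y : ℝ) / x0)) = x0 - y * s i := by field_simp; ring
        rw [h5] at h4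
        have h6 : (((s i : ℝ) * (-(y : ℝ) / x0) : ℝ) : ℂ) =
            (s i : ℂ) * ((-(y : ℝ) / x0 : ℝ) : ℂ) := by push_cast; ring
        rw [h6] at h4
        rw [Complex.ofReal_mul (Q i : ℝ), h4]
        simp only [Complex.ofReal_intCast]
        ring
      rw [hΦ]
      simp only
      rw [Finset.sum_congr rfl h3, Finset.sum_add_distrib, ← Finset.mul_sum, h0', mul_zero,
        add_zero, Complex.ofReal_sum]
    have hA : ‖Φ ((-(y : ℝ) / x0 : ℝ) : ℂ)‖ / ‖((-(y : ℝ) / x0 : ℝ) : ℂ)‖ ^ j ≤ η * x0 ^ j := by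
      rw [hval, Complex.norm_real, Real.norm_eq_abs, hωn, div_pow, div_div_eq_mul_div]
      refine (div_le_self (by positivity) (one_le_pow₀ h1')).trans ?_
      exact mul_le_mul_of_nonneg_right (happ y hy) (by positivity)
    have hP : ∏ y' ∈ Y.erase y, ‖((-(y' : ℝ) / x0 : ℝ) : ℂ)‖ /
        ‖((-(y : ℝ) / x0 : ℝ) : ℂ) - ((-(y' : ℝ) / x0 : ℝ) : ℂ)‖ ≤ R ^ Y.card := by
      calc _ ≤ ∏ _y' ∈ Y.erase y, R := by
            refine Finset.prod_le_prod (fun _ _ => by positivity) fun y' hy' => ?_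
            obtain ⟨hne', hy''⟩ := Finset.mem_erase.mp hy'
            have h3 : ‖((-(y : ℝ) / x0 : ℝ) : ℂ) - ((-(y' : ℝ) / x0 : ℝ) : ℂ)‖ =
                |(y' : ℝ) - y| / x0 := by
              rw [← Complex.ofReal_sub, Complex.norm_real, Real.norm_eq_abs, ← sub_div, abs_div,
                abs_of_pos hx0]
              congr 2; ring
            have h4 : (1 : ℝ) ≤ |(y' : ℝ) - y| := by
              have : (1 : ℤ) ≤ |(y' : ℤ) - y| :=
                Int.one_le_abs (sub_ne_zero.mpr (by exact_mod_cast hne'))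
              exact_mod_cast this
            rw [h3, hωn, div_div_div_cancel_right₀ hx0.ne']
            exact (div_le_self (by positivity) h4).trans (hY y' hy'').2
        _ = R ^ (Y.erase y).card := Finset.prod_const R
        _ ≤ _ := pow_le_pow_right₀ hR Finset.card_erase_le
    exact mul_le_mul hA hP (Finset.prod_nonneg fun _ _ => by positivity) (by positivity)

end Pool.Agent.MP_9cfd17_nt

end

section

/-! Many primes along the totient shifts, from products of two primes. -/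

namespace Pool.Agent.MP_9cfd17_nt

open Filter Topology

theorem thmA2 (hA : AsymStmt) (hV : VanishStmt) (hS : SchwarzStmt) (hT : TaylorStmt)
    (hL : LgStmt) (hG : SiegelStmt) :
    ∃ n0 : ℕ, ∀ n : ℕ, n0 ≤ n → ∃ P : Finset ℕ,
      (n : ℝ) ^ (1 / 3 : ℝ) / Real.log n ^ 6 ≤ P.card ∧
      ∀ p ∈ P, p.Prime ∧ ∃ k : ℕ, 1 ≤ k ∧ k ≤ n - 3 ∧
        p ∣ FF (k + Nat.totient (n - k) / 2) := by
  classical
  obtain ⟨c, κ, hc, m0, hm⟩ := hA
  have hlog : Tendsto (fun n : ℕ => Real.log n) atTop atTop :=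
    Real.tendsto_log_atTop.comp tendsto_natCast_atTop_atTop
  have hev : ∀ᶠ n : ℕ in atTop, (10 : ℝ) ^ 7 ≤ Real.log n ∧ 20 / c ≤ Real.log n ∧
      4 * m0 ≤ n ∧ 1 ≤ n :=
    (hlog.eventually_ge_atTop _).and ((hlog.eventually_ge_atTop _).and
      ((eventually_ge_atTop _).and (eventually_ge_atTop _)))
  obtain ⟨n0, hn0⟩ := eventually_atTop.mp hev
  refine ⟨n0, fun n hn => ?_⟩
  obtain ⟨hl, hlc, hnm, hn1⟩ := hn0 n hn
  refine ⟨(Finset.Icc 1 (n - 3)).biUnion
    (fun k => (FF (k + Nat.totient (n - k) / 2)).primeFactors), ?_, ?_⟩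
  swap
  · intro p hp
    obtain ⟨k, hk, hp'⟩ := Finset.mem_biUnion.mp hp
    exact ⟨Nat.prime_of_mem_primeFactors hp', k, (Finset.mem_Icc.mp hk).1,
      (Finset.mem_Icc.mp hk).2, Nat.dvd_of_mem_primeFactors hp'⟩
  set P := (Finset.Icc 1 (n - 3)).biUnion
    (fun k => (FF (k + Nat.totient (n - k) / 2)).primeFactors) with hP
  by_contra hlt
  rw [not_le] at hlt
  have hn0' : (0 : ℝ) < n := by exact_mod_cast hn1
  rw [Real.rpow_def_of_pos hn0'] at hlt
  set l := Real.log n with hldef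
  obtain ⟨v, hv⟩ : ∃ v : ℝ, v = Real.exp (l / 6) := ⟨_, rfl⟩
  obtain ⟨V, W, Y0, hW2, hV1, hV4, hW4, hY0, hJ1, hJ2, hK⟩ := paramA2 l v hl hv
  have hv2 : Real.exp (l * (1 / 3)) = v ^ 2 := by
    rw [hv, ← Real.exp_nat_mul]; congr 1; push_cast; ring
  rw [hv2] at hlt
  have hnv : (n : ℝ) = v ^ 6 := by
    rw [hv, ← Real.exp_nat_mul, ← Real.exp_log hn0']
    congr 1
    push_cast
    ring
  have hl0 : 0 < l := by linarith
  have hl1 : 1 ≤ l := by linarith
  have hg : l ^ 4 ≤ v := hv ▸ growA2 l hl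
  have hl4 : l ≤ l ^ 4 := le_self_pow₀ hl1 (by norm_num)
  have hlv : l ≤ v := hl4.trans hg
  have hv0 : 0 < v := by linarith
  have hv1 : 1 ≤ v := by linarith
  have hcl : 20 ≤ c * l := by rw [div_le_iff₀ hc] at hlc; linarith
  set Y := Y0.image (fun q => q + 1) with hY
  have hYc : Y.card = Y0.card := Finset.card_image_of_injective _ (add_left_injective 1)
  rw [← hYc] at hJ1 hJ2
  set T := (Nat.primesLE V).filter (fun p => W < p) with hT'
  have hTW : ∀ p ∈ T, p.Prime ∧ W < p ∧ p ≤ V := by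
    intro p hp
    obtain ⟨h1, h2⟩ := Finset.mem_filter.mp hp
    exact ⟨(Nat.mem_primesLE.mp h1).2, h2, (Nat.mem_primesLE.mp h1).1⟩
  have hYq : ∀ y ∈ Y, ∃ q, q.Prime ∧ q ≤ W ∧ y = q + 1 := by
    intro y hy
    obtain ⟨q, hq, rfl⟩ := Finset.mem_image.mp hy
    exact ⟨q, (Nat.mem_primesLE.mp (hY0 hq)).2, (Nat.mem_primesLE.mp (hY0 hq)).1, rfl⟩
  have hYR : ∀ y ∈ Y, 1 ≤ y ∧ (y : ℝ) ≤ (W : ℝ) + 1 := by
    intro y hy
    obtain ⟨q, -, h2, rfl⟩ := hYq y hy
    exact ⟨by omega, by exact_mod_cast Nat.succ_le_succ h2⟩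
  have hV4' : (V : ℝ) ≤ v ^ 4 := hV4.trans (div_le_self (by positivity) (one_le_pow₀ hl1))
  have hKW : (T.card : ℝ) ≤ v ^ 6 := by
    refine le_trans ?_ (hV4'.trans (pow_le_pow_right₀ hv1 (by norm_num)))
    have : T.card ≤ (Finset.Icc 1 V).card := Finset.card_le_card fun p hp =>
      Finset.mem_Icc.mpr ⟨(hTW p hp).1.pos, (hTW p hp).2.2⟩
    rw [Nat.card_Icc, Nat.add_sub_cancel] at this
    exact_mod_cast this
  set s : ℕ → ℕ := fun p => (p + 1) / 2 with hs
  have hsS : ∀ p ∈ T, (s p : ℝ) ≤ V := by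
    intro p hp
    obtain ⟨h1, -, h3⟩ := hTW p hp
    have h4 : s p ≤ V := by have := h1.pos; simp only [hs]; omega
    exact_mod_cast h4
  have hVW : 4 * (V : ℝ) * (W + 1) ≤ v ^ 6 := by
    have h1 : 64 ≤ l ^ 3 := le_trans (by linarith) (le_self_pow₀ hl1 (by norm_num))
    calc 4 * (V : ℝ) * (W + 1) ≤ 4 * (v ^ 4 / l ^ 4) * (16 * v ^ 2 * l) := by gcongr
      _ = 64 / l ^ 3 * v ^ 6 := by field_simp; ring
      _ ≤ _ := mul_le_of_le_one_left (by positivity) (div_le_one_of_le₀ h1 (by positivity))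
  set mm : ℕ → ℕ → ℕ := fun p y => (n - p * (y - 1)) + Nat.totient (n - (n - p * (y - 1))) / 2
    with hmm
  have hnode : ∀ p ∈ T, ∀ y ∈ Y, (mm p y : ℝ) = n + 1 - y * s p ∧ (n : ℝ) / 4 ≤ mm p y ∧
      mm p y ≤ n ∧ (n - p * (y - 1)) ∈ Finset.Icc 1 (n - 3) := by
    intro p hp y hy
    obtain ⟨h1, h2, h3⟩ := hTW p hp
    obtain ⟨-, h5⟩ := hYR y hy
    obtain ⟨q, hq, hqW, rfl⟩ := hYq y hy
    have h6 : ((p * q : ℕ) : ℝ) ≤ V * (W + 1) := by
      push_cast
      have a1 : (p : ℝ) ≤ V := by exact_mod_cast h3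
      have a2 : (q : ℝ) ≤ W + 1 := by exact_mod_cast Nat.le_succ_of_le hqW
      gcongr
    have h12 : 4 ≤ p * q := Nat.mul_le_mul h1.two_le hq.two_le
    have h7 : 4 * (p * q) ≤ n := by
      have : 4 * ((p * q : ℕ) : ℝ) ≤ n := by rw [hnv]; linarith
      exact_mod_cast this
    have h8 := node_eq2 p q n h1 hq (by omega) (by omega)
    have h9 : mm p (q + 1) + (q + 1) * s p = n + 1 := h8
    have h10 : (mm p (q + 1) : ℝ) + ((q + 1 : ℕ) : ℝ) * s p = n + 1 := by exact_mod_cast h9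
    have h11 : ((q + 1 : ℕ) : ℝ) * s p ≤ (W + 1) * V :=
      mul_le_mul h5 (hsS p hp) (by positivity) (by positivity)
    have h13 : 1 ≤ (q + 1) * s p :=
      Nat.mul_pos (by omega) (by have := h1.pos; simp only [hs]; omega)
    refine ⟨by linarith, by linarith, by omega, ?_⟩
    rw [Nat.add_sub_cancel]
    exact Finset.mem_Icc.mpr ⟨by omega, by omega⟩
  have hm' : ∀ p ∈ T, ∀ y ∈ Y, m0 ≤ mm p y := by
    intro p hp y hy
    have h1 := (hnode p hp y hy).2.1
    have h2 : (4 * m0 : ℝ) ≤ n := by exact_mod_cast hnm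
    have : (m0 : ℝ) ≤ mm p y := by linarith
    exact_mod_cast this
  obtain ⟨Q, hQ, hB, h0, hrel⟩ := hG ℕ ℕ T Y P (fun p y => FF (mm p y)) n
    (by exact_mod_cast hn1)
    (by
      intro p hp y hy
      obtain ⟨h1, h2, -⟩ := hm _ (hm' p hp y hy)
      obtain ⟨-, -, h3, h4⟩ := hnode p hp y hy
      refine ⟨h1, h2.trans (by exact_mod_cast h3), fun q hq hqd => ?_⟩
      exact Finset.mem_biUnion.mpr ⟨_, h4, Nat.mem_primeFactors.mpr ⟨hq, hqd, h1.ne'⟩⟩)
    (by
      have h1 : (P.card : ℝ) * Y.card ≤ v ^ 2 / l ^ 6 * (7 * v ^ 2) :=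
        mul_le_mul hlt.le hJ2 (Nat.cast_nonneg _) (by positivity)
      have h2 : v ^ 2 / l ^ 6 * (7 * v ^ 2) = 7 * (v ^ 4 / l ^ 6) := by ring
      have h4 : 1 ≤ v ^ 4 / l ^ 6 := by
        rw [le_div_iff₀ (by positivity), one_mul]
        calc l ^ 6 ≤ (l ^ 4) ^ 4 := by
              rw [← pow_mul]; exact pow_le_pow_right₀ hl1 (by norm_num)
          _ ≤ _ := pow_le_pow_left₀ (by positivity) hg 4
      have h5 : v ^ 4 / (8 * l ^ 5) = l / 8 * (v ^ 4 / l ^ 6) := by field_simp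
      have h6 : 16 * (v ^ 4 / l ^ 6) ≤ l / 8 * (v ^ 4 / l ^ 6) :=
        mul_le_mul_of_nonneg_right (by linarith) (by positivity)
      have h3 : 2 * ((P.card : ℝ) * Y.card + 1) ≤ T.card := by linarith
      exact_mod_cast h3)
  set B : ℝ := 2 * n * (T.card : ℝ) ^ 2 with hBdef
  have hB18 : B ≤ 2 * v ^ 18 := by
    calc B ≤ 2 * n * (v ^ 6) ^ 2 :=
          mul_le_mul_of_nonneg_left (pow_le_pow_left₀ (Nat.cast_nonneg _) hKW 2) (by linarith)
      _ = _ := by rw [hnv]; ring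
  have hB1 : 1 ≤ B := by
    obtain ⟨i, hi, hQi⟩ := hQ
    have h1 : (1 : ℝ) ≤ |(Q i : ℝ)| := by exact_mod_cast Int.one_le_abs hQi
    exact h1.trans ((Finset.single_le_sum (f := fun i => |(Q i : ℝ)|)
      (fun _ _ => abs_nonneg _) hi).trans hB)
  have hv6 : v ≤ v ^ 6 := le_self_pow₀ hv1 (by norm_num)
  have hlogB : Real.log (2 * B) ≤ 4 * l := by
    have h1 : 2 * B ≤ (n : ℝ) ^ 4 := by
      calc 2 * B ≤ 4 * v ^ 18 := by linarith
        _ ≤ v ^ 6 * v ^ 18 := mul_le_mul_of_nonneg_right (by linarith) (by positivity)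
        _ = _ := by rw [hnv]; ring
    have := Real.log_le_log (by linarith) h1
    rw [Real.log_pow] at this
    exact_mod_cast this
  have hjb : ∀ j : ℕ, (j : ℝ) ≤ 2 + √V * Real.log (2 * B) → j * l ≤ 5 * v ^ 2 := by
    intro j hj
    have h1 : √V ≤ v ^ 2 / l ^ 2 := by
      rw [Real.sqrt_le_left (by positivity)]
      exact hV4.trans (le_of_eq (by ring))
    have h2 : √V * Real.log (2 * B) ≤ v ^ 2 / l ^ 2 * (4 * l) :=
      mul_le_mul h1 hlogB (Real.log_nonneg (by linarith)) (by positivity)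
    have h3 : (j : ℝ) * l ≤ (2 + v ^ 2 / l ^ 2 * (4 * l)) * l :=
      mul_le_mul_of_nonneg_right (by linarith) hl0.le
    have h4 : (2 + v ^ 2 / l ^ 2 * (4 * l)) * l = 2 * l + 4 * v ^ 2 := by field_simp
    have h5 : 2 * l ≤ v ^ 2 := by nlinarith
    linarith
  have hη0 : 0 ≤ B * Real.exp (-c * (v ^ 3 / 2)) := mul_nonneg (by linarith) (Real.exp_pos _).le
  obtain ⟨j, hj, hfin⟩ := keyA2 hV hS hT hL T s Q 1 V B V
    (n + 1 - 1 / 24) (B * Real.exp (-c * (v ^ 3 / 2))) (W + 1) Y one_pos hV1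
    (by
      intro i hi i' hi' hne
      obtain ⟨a, ha⟩ := (hTW i hi).1.odd_of_ne_two (by have := (hTW i hi).2.1; omega)
      obtain ⟨a', ha'⟩ := (hTW i' hi').1.odd_of_ne_two (by have := (hTW i' hi').2.1; omega)
      have h1 : s i ≠ s i' := by simp only [hs]; omega
      refine ⟨?_, ?_⟩
      · have : (1 : ℤ) ≤ |(s i : ℤ) - s i'| :=
          Int.one_le_abs (sub_ne_zero.mpr (by exact_mod_cast h1))
        exact_mod_cast this
      · have h4 := hsS i hi
        have h5 := hsS i' hi'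
        have h6 : (0 : ℝ) ≤ s i := by positivity
        have h7 : (0 : ℝ) ≤ s i' := by positivity
        rw [abs_le]; constructor <;> linarith)
    hQ hB h0 hsS hV1 (by linarith [Nat.cast_nonneg (α := ℝ) W]) hYR (by linarith) hη0
    (by
      intro y hy
      have h1 := approx_core T Q B κ (Real.exp (-c * (v ^ 3 / 2))) (fun p => mm p y)
        (Real.exp_pos _).le hB h0 (hrel y hy) (by
          intro p hp
          refine (hm _ (hm' p hp y hy)).2.2.trans (Real.exp_le_exp.mpr ?_)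
          have h2 : v ^ 3 / 2 ≤ √(mm p y) := by
            refine Real.le_sqrt_of_sq_le ?_
            have := (hnode p hp y hy).2.1
            rw [hnv] at this
            calc (v ^ 3 / 2) ^ 2 = v ^ 6 / 4 := by ring
              _ ≤ _ := this
          nlinarith)
      refine le_trans (le_of_eq ?_) h1
      congr 1
      refine Finset.sum_congr rfl fun p hp => ?_
      rw [(hnode p hp y hy).1]
      congr 2
      ring)
    (by
      intro j hj
      have h1 := hjb j hj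
      have hj0 : (0 : ℝ) ≤ j := Nat.cast_nonneg _
      have h2 : (j : ℝ) + 1 ≤ n := by
        have h3 : (j : ℝ) ≤ j * l := le_mul_of_one_le_right hj0 hl1
        have h4 : 6 * v ^ 2 ≤ v ^ 4 * v ^ 2 := mul_le_mul_of_nonneg_right
          (le_trans (by linarith) (le_self_pow₀ hv1 (by norm_num))) (by positivity)
        have h5 : 1 ≤ v ^ 2 := one_le_pow₀ hv1
        rw [hnv]; linarith
      have h3 : Real.log (j + 1) ≤ l := Real.log_le_log (by linarith) h2
      have h4 : 0 ≤ Real.log (j + 1) := Real.log_nonneg (by linarith)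
      have h5 : (3 * Real.log (j + 1) + 19) ^ 2 ≤ (4 * l) ^ 2 :=
        pow_le_pow_left₀ (by linarith) (by linarith) 2
      have h6 : ((j : ℝ) * l) ^ 3 ≤ (5 * v ^ 2) ^ 3 := pow_le_pow_left₀ (by positivity) h1 3
      have h7 : 4 * (j : ℝ) ^ 3 * (4 * l) ^ 2 ≤ v ^ 6 := by
        refine le_of_mul_le_mul_right ?_ hl0
        have h8 : 8000 * v ^ 6 ≤ l * v ^ 6 := mul_le_mul_of_nonneg_right (by linarith) (by positivity)
        linarith
      have h9 := mul_le_mul_of_nonneg_left h5 (show 0 ≤ 4 * (j : ℝ) ^ 3 by positivity)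
      linarith)
  have hnum := numA2 c l v B (n + 1 - 1 / 24) V (W + 1) (B * Real.exp (-c * (v ^ 3 / 2))) j Y.card
    hl hv hcl (by linarith) hB18 (by linarith) (by linarith) (by positivity) hV4 (by positivity) hW4
    hJ1 hJ2 (hjb j hj) hη0 le_rfl
  linarith

end Pool.Agent.MP_9cfd17_nt

end
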