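import Pool.Agent.Mg.F9cfd17.Ga63bb6

section

/-! The extrapolation inequality for translated nodes `N + y + s`. -/

namespace Pool.Agent.MP_9cfd17_nt

open Complex Metric Filter Topology

theorem ratio_keyB (a b M : ℝ) (ha : 0 < a) (hb : 0 < b) (haM : a ≤ M) (hbM : b ≤ M)
    (hab : 1 ≤ |a - b|) : (√b)⁻¹ / |(√a)⁻¹ - (√b)⁻¹| ≤ 2 * M := by
  obtain ⟨x, hx, rfl⟩ : ∃ x : ℝ, 0 < x ∧ a = x ^ 2 := ⟨√a, by positivity, (Real.sq_sqrt ha.le).symm⟩
  obtain ⟨y, hy, rfl⟩ : ∃ y : ℝ, 0 < y ∧ b = y ^ 2 := ⟨√b, by positivity, (Real.sq_sqrt hb.le).symm⟩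
  rw [Real.sqrt_sq hx.le, Real.sqrt_sq hy.le]
  have h1 : x⁻¹ - y⁻¹ = (y - x) / (x * y) := by field_simp
  have h2 : |x ^ 2 - y ^ 2| = |y - x| * (x + y) := by
    rw [show x ^ 2 - y ^ 2 = -((y - x) * (x + y)) by ring, abs_neg, abs_mul,
      abs_of_pos (show 0 < x + y by positivity)]
  rw [h2] at hab
  have h3 : 0 < |y - x| := by
    by_contra h
    have : |y - x| = 0 := le_antisymm (not_lt.mp h) (abs_nonneg _)
    rw [this] at hab; linarith
  rw [h1, abs_div, abs_of_pos (show 0 < x * y by positivity), div_div_eq_mul_div,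
    div_le_iff₀ h3]
  have h4 : y⁻¹ * (x * y) = x := by field_simp
  rw [h4]
  have h5 : x * (x + y) ≤ 2 * M := by nlinarith [sq_nonneg (x - y), mul_pos hx hy]
  calc x ≤ x * (|y - x| * (x + y)) := le_mul_of_one_le_right hx.le hab
    _ = x * (x + y) * |y - x| := by ring
    _ ≤ _ := mul_le_mul_of_nonneg_right h5 h3.le

theorem keyB (hV : VanishStmt) (hS : SchwarzStmt) (hT : TaylorStmt) (hC : CoefStmt) (hL : LgStmt)
    (K J : ℕ) (Q : ℕ → ℤ) (B N η : ℝ) (hK : 2 ≤ K) (hKN : 32 * (K : ℝ) ≤ N - 1) (hJN : (J : ℝ) ≤ N)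
    (hQ : ∃ i ∈ Finset.range K, Q i ≠ 0) (hB : (∑ i ∈ Finset.range K, |(Q i : ℝ)|) ≤ B)
    (h0 : ∑ i ∈ Finset.range K, Q i = 0) (hη : 0 ≤ η)
    (happ : ∀ y ∈ Finset.range J,
      |∑ i ∈ Finset.range K, (Q i : ℝ) * ff (N + y - 1 / 24 + i)| ≤ η) :
    ∃ j : ℕ, 1 ≤ j ∧ (j : ℝ) ≤ 2 + √K * Real.log (2 * B) ∧
      1 / (2 * (j : ℝ) ^ 2) ≤ B * 9 * (2 * K) ^ j * (1 / 2) ^ J +
        J * (η * (2 * N) ^ j * (4 * N) ^ J) := by
  classical
  have hK' : (2 : ℝ) ≤ K := by exact_mod_cast hK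
  set T := Finset.range K with hTdef
  have hs : ∀ i ∈ T, ((i : ℕ) : ℝ) ≤ K := fun i hi => by
    exact_mod_cast (Finset.mem_range.mp hi).le
  obtain ⟨j, hj1, hj2, hmom, hne⟩ := order_core hV T (fun i => i) Q 1 K B one_pos (by linarith)
    (by
      intro i hi i' hi' hne
      have h2 : (1 : ℝ) ≤ |(i : ℝ) - i'| := by
        have : (1 : ℤ) ≤ |(i : ℤ) - i'| := Int.one_le_abs (sub_ne_zero.mpr (by exact_mod_cast hne))
        exact_mod_cast this
      refine ⟨h2, ?_⟩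
      have h4 := hs i hi
      have h5 := hs i' hi'
      have h6 : (0 : ℝ) ≤ i := by positivity
      have h7 : (0 : ℝ) ≤ i' := by positivity
      rw [abs_le]; constructor <;> linarith) hQ hB h0
  refine ⟨j, hj1, hj2, ?_⟩
  obtain ⟨hsqd, hsqb, hLj, hLb, hff, hC1, hC2⟩ := id hL
  have hj1' : (1 : ℝ) ≤ j := by exact_mod_cast hj1
  have hB0 : 0 ≤ B := le_trans (Finset.sum_nonneg fun _ _ => abs_nonneg _) hB
  have hC0 : 0 < CC := by linarith
  obtain ⟨r, hr0, hr⟩ : ∃ r : ℝ, 0 < r ∧ r ^ 2 = 2 * K :=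
    ⟨√(2 * K), by positivity, Real.sq_sqrt (by positivity)⟩
  have hr2 : 2 ≤ r := by nlinarith
  obtain ⟨t, ht0, ht⟩ : ∃ t : ℝ, 0 < t ∧ t ^ 2 = N - 1 :=
    ⟨√(N - 1), Real.sqrt_pos.mpr (by linarith), Real.sq_sqrt (by linarith)⟩
  have hrt : 4 * r ≤ t := by nlinarith
  set Φ : ℂ → ℂ := fun u => ∑ i ∈ T, (Q i : ℂ) *
    ((CC : ℂ) * sq (i * u ^ 2) + u * Lg (u / CC) (i * u ^ 2)) with hΦ
  set μ : ℤ := ∑ i ∈ T, Q i * ((i : ℕ) : ℤ) ^ j with hμ
  set c1 : ℂ := iteratedDeriv j sq 0 / (j.factorial : ℂ) with hc1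
  have hnorm : ∀ i ∈ T, ∀ u : ℂ, ‖(i : ℂ) * u ^ 2‖ ≤ K * ‖u‖ ^ 2 := by
    intro i hi u
    rw [norm_mul, Complex.norm_natCast, norm_pow]
    exact mul_le_mul_of_nonneg_right (hs i hi) (by positivity)
  have hdivn : ∀ u : ℂ, ‖u‖ < 3 / 5 → ‖u / CC‖ < 1 / 4 := by
    intro u hu
    rw [norm_div, Complex.norm_real, Real.norm_of_nonneg hC0.le, div_lt_iff₀ hC0]
    linarith
  have hrinv : 1 / r ≤ 1 / 2 := one_div_le_one_div_of_le (by norm_num) hr2
  have hdiff : DifferentiableOn ℂ Φ (ball 0 (6 / 5 * (1 / r))) := by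
    refine DifferentiableOn.fun_sum fun i hi => DifferentiableOn.const_mul ?_ _
    intro u hu
    have hu' : ‖u‖ < 6 / 5 * (1 / r) := by simpa using hu
    have h1 : ‖(i : ℂ) * u ^ 2‖ < 3 / 4 := by
      have h2 : ‖u‖ ^ 2 ≤ (6 / 5 * (1 / r)) ^ 2 := pow_le_pow_left₀ (norm_nonneg _) hu'.le 2
      have h3 : (K : ℝ) * (6 / 5 * (1 / r)) ^ 2 = 18 / 25 := by
        field_simp; nlinarith
      have h4 := mul_le_mul_of_nonneg_left h2 (show (0 : ℝ) ≤ K by positivity)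
      have h5 := hnorm i hi u
      linarith
    have h2 : DifferentiableAt ℂ (fun u : ℂ => sq (i * u ^ 2)) u :=
      (hsqd.differentiableAt (isOpen_ball.mem_nhds (by simpa using h1))).comp u (by fun_prop)
    have h3 : DifferentiableAt ℂ (fun u : ℂ => Lg (u / CC) (i * u ^ 2)) u :=
      (hLj _ _ (hdivn u (by linarith)) h1).comp u
        (f := fun u : ℂ => (u / CC, (i : ℂ) * u ^ 2)) (by fun_prop)
    exact ((h2.const_mul _).add (differentiableAt_id.mul h3)).differentiableWithinAt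
  have hbound : ∀ u ∈ sphere (0 : ℂ) (1 / r), ‖Φ u‖ ≤ B * 9 := by
    intro u hu
    have hu' : ‖u‖ = 1 / r := by simpa using hu
    refine sum_bound_core T Q B _ _ (by positivity) hB fun i hi => ?_
    have h1 : ‖(i : ℂ) * u ^ 2‖ ≤ 1 / 2 := by
      refine (hnorm i hi u).trans (le_of_eq ?_)
      rw [hu']; field_simp; linarith
    have h2 := hsqb _ (by simpa using h1 : (i : ℂ) * u ^ 2 ∈ closedBall (0 : ℂ) (1 / 2))
    have h3 := hLb _ _ (hdivn u (by linarith)).le h1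
    calc _ ≤ ‖(CC : ℂ) * sq (i * u ^ 2)‖ + ‖u * Lg (u / CC) (i * u ^ 2)‖ := norm_add_le _ _
      _ ≤ 3 * 2 + 1 / 2 * 5 := by
          rw [norm_mul, norm_mul, Complex.norm_real, Real.norm_of_nonneg hC0.le]
          exact add_le_add (mul_le_mul hC2 h2 (norm_nonneg _) (by norm_num))
            (mul_le_mul (by linarith) h3 (norm_nonneg _) (by norm_num))
      _ ≤ _ := by norm_num
  have htend : Tendsto (fun u => Φ u / u ^ (2 * j)) (𝓝[≠] 0) (𝓝 (CC * c1 * μ)) := by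
    refine tendsto_core Φ _ (2 * j)
      (CC * (B * (2 * 2)) * (2 * K) ^ (j + 1) + B * (2 * 5) * (2 * K) ^ (j + 1) +
        5 * 2 ^ j * ‖(μ : ℂ)‖) (1 / (4 * K)) (by positivity) fun u hu => ?_
    have hu8 : ‖u‖ ≤ 1 / 8 :=
      hu.trans (one_div_le_one_div_of_le (by norm_num) (by linarith))
    have hv : (K : ℝ) * ‖u ^ 2‖ ≤ 1 / 4 := by
      rw [norm_pow]
      have h1 : (K : ℝ) * ‖u‖ ≤ 1 / 4 := by
        refine (mul_le_mul_of_nonneg_left hu (by positivity)).trans (le_of_eq ?_)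
        field_simp
      nlinarith [norm_nonneg u]
    have he := hdivn u (by linarith)
    have hLd := lg_diff_core hL _ he
    have hLb' : ∀ w ∈ closedBall (0 : ℂ) (1 / 2), ‖Lg (u / CC) w‖ ≤ 5 :=
      fun w hw => hLb _ w he.le (by simpa using hw)
    have h1 := comb_core hT T (fun i => i) Q B K 2 j sq hsqd hsqb hs hB hmom (u ^ 2)
      (by positivity) hv
    have h2 := comb_core hT T (fun i => i) Q B K 5 j (Lg (u / CC)) hLd hLb' hs hB hmom (u ^ 2)
      (by positivity) hv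
    have h4 := (hT (Lg (u / CC)) 5 j hLd hLb').1
    set c2 : ℂ := iteratedDeriv j (Lg (u / CC)) 0 / (j.factorial : ℂ) with hc2
    have h3 : Φ u - CC * c1 * μ * u ^ (2 * j) =
        CC * (∑ i ∈ T, (Q i : ℂ) * sq (i * u ^ 2) - c1 * μ * (u ^ 2) ^ j) +
        u * (∑ i ∈ T, (Q i : ℂ) * Lg (u / CC) (i * u ^ 2) - c2 * μ * (u ^ 2) ^ j) +
        c2 * μ * u ^ (2 * j + 1) := by
      have : Φ u = CC * ∑ i ∈ T, (Q i : ℂ) * sq (i * u ^ 2) +
          u * ∑ i ∈ T, (Q i : ℂ) * Lg (u / CC) (i * u ^ 2) := by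
        rw [hΦ, Finset.mul_sum, Finset.mul_sum, ← Finset.sum_add_distrib]
        refine Finset.sum_congr rfl fun i _ => ?_
        ring
      rw [this]; ring
    have h5 : (2 * (K : ℝ) * ‖u ^ 2‖) ^ (j + 1) ≤ (2 * K) ^ (j + 1) * ‖u‖ ^ (2 * j + 1) := by
      rw [mul_pow (2 * (K : ℝ)), norm_pow, ← pow_mul]
      exact mul_le_mul_of_nonneg_left
        (pow_le_pow_of_le_one (norm_nonneg _) (by linarith) (by omega)) (by positivity)
    rw [h3]
    calc _ ≤ ‖(CC : ℂ) * (∑ i ∈ T, (Q i : ℂ) * sq (i * u ^ 2) - c1 * μ * (u ^ 2) ^ j)‖ +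
          ‖u * (∑ i ∈ T, (Q i : ℂ) * Lg (u / CC) (i * u ^ 2) - c2 * μ * (u ^ 2) ^ j)‖ +
          ‖c2 * μ * u ^ (2 * j + 1)‖ := norm_add₃_le
      _ ≤ CC * (B * (2 * 2 * ((2 * K) ^ (j + 1) * ‖u‖ ^ (2 * j + 1)))) +
          1 * (B * (2 * 5 * ((2 * K) ^ (j + 1) * ‖u‖ ^ (2 * j + 1)))) +
          5 * 2 ^ j * ‖(μ : ℂ)‖ * ‖u‖ ^ (2 * j + 1) := by
          rw [norm_mul, norm_mul, norm_mul, norm_mul, norm_pow, Complex.norm_real,
            Real.norm_of_nonneg hC0.le]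
          refine add_le_add (add_le_add (mul_le_mul_of_nonneg_left (h1.trans ?_) hC0.le)
            (mul_le_mul (by linarith) (h2.trans ?_) (norm_nonneg _) (by norm_num))) ?_
          · gcongr
          · gcongr
          · gcongr
      _ = _ := by ring
  have hX : ∀ y ∈ Finset.range J, t ^ 2 ≤ N + y - 1 / 24 ∧ N + y - 1 / 24 ≤ 2 * N := by
    intro y hy
    have h1 : (y : ℝ) ≤ J := by exact_mod_cast (Finset.mem_range.mp hy).le
    have h2 : (0 : ℝ) ≤ y := by positivity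
    constructor <;> linarith
  have hX0 : ∀ y : ℕ, 4 ≤ N + y - 1 / 24 := by
    intro y
    have h2 : (0 : ℝ) ≤ y := by positivity
    linarith
  have hωn : ∀ y : ℕ, ‖(((√(N + y - 1 / 24))⁻¹ : ℝ) : ℂ)‖ = (√(N + y - 1 / 24))⁻¹ := by
    intro y
    rw [Complex.norm_real, Real.norm_of_nonneg (by positivity)]
  have hmain := hS ℕ (Finset.range J) (fun y => (((√(N + y - 1 / 24))⁻¹ : ℝ) : ℂ)) Φ (1 / r)
    (1 / t) (B * 9) (2 * j) _ (by positivity)
    (by rw [← mul_div_assoc, div_le_div_iff₀ ht0 hr0]; linarith) hdiff hbound htend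
    (by
      intro y _ y' _ h
      have h1 : (√(N + y - 1 / 24))⁻¹ = (√(N + y' - 1 / 24))⁻¹ := Complex.ofReal_injective h
      have h2 := (Real.sqrt_inj (by linarith [hX0 y]) (by linarith [hX0 y'])).mp (inv_injective h1)
      have h3 : (y : ℝ) = y' := by linarith
      exact_mod_cast h3)
    (by
      intro y hy
      have h1 := hX0 y
      refine ⟨?_, ?_⟩
      · rw [← norm_pos_iff, hωn]; positivity
      · rw [hωn, one_div t]
        exact inv_anti₀ ht0 (Real.le_sqrt_of_sq_le (hX y hy).1))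
  have hlow : 1 / (2 * (j : ℝ) ^ 2) ≤ ‖(CC : ℂ) * c1 * μ‖ := by
    rw [norm_mul, norm_mul, Complex.norm_real, Real.norm_of_nonneg hC0.le]
    have h1 := one_le_norm_int_core μ hne
    have h2 := (hC j hj1).1
    calc 1 / (2 * (j : ℝ) ^ 2) = 2 * (1 / (4 * (j : ℝ) ^ 2)) * 1 := by field_simp; norm_num
      _ ≤ _ := mul_le_mul (mul_le_mul (by linarith) h2 (by positivity) hC0.le) h1 (by norm_num)
          (by positivity)
  rw [Finset.card_range] at hmain
  refine hlow.trans (hmain.trans (add_le_add ?_ ?_))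
  · have h1 : 2 * (1 / t) / (1 / r) ≤ 1 / 2 := by
      rw [div_le_iff₀ (by positivity), ← mul_div_assoc, mul_one_div, div_le_div_iff₀ ht0 hr0]
      linarith
    have h2 : B * 9 / (1 / r) ^ (2 * j) = B * 9 * (2 * K) ^ j := by
      rw [one_div, inv_pow, div_inv_eq_mul, pow_mul, hr]
    rw [h2]
    gcongr
  · conv_rhs => rw [← Finset.card_range J, ← nsmul_eq_mul, Finset.card_range J]
    conv_rhs => enter [1]; rw [← Finset.card_range J]
    refine Finset.sum_le_card_nsmul _ _ _ fun y hy => ?_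
    have h1 := hX0 y
    set X : ℝ := N + y - 1 / 24 with hXdef
    have hX1 : 0 < X := by linarith
    have hsX : 0 < √X := Real.sqrt_pos.mpr hX1
    have hsX1 : 1 ≤ √X := Real.le_sqrt_of_sq_le (by linarith)
    have hsq : ((√X)⁻¹) ^ 2 = X⁻¹ := by rw [inv_pow, Real.sq_sqrt hX1.le]
    have hval : Φ (((√X)⁻¹ : ℝ) : ℂ) =
        (((√X)⁻¹ * ∑ i ∈ T, (Q i : ℝ) * ff (X + i) : ℝ) : ℂ) := by
      have h0' : ∑ i ∈ T, (Q i : ℂ) = 0 := by exact_mod_cast h0
      have h3 : ∀ i ∈ T, (Q i : ℂ) * ((CC : ℂ) * sq (i * (((√X)⁻¹ : ℝ) : ℂ) ^ 2) +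
          (((√X)⁻¹ : ℝ) : ℂ) * Lg ((((√X)⁻¹ : ℝ) : ℂ) / CC) (i * (((√X)⁻¹ : ℝ) : ℂ) ^ 2)) =
          (((√X)⁻¹ * ((Q i : ℝ) * ff (X + i)) : ℝ) : ℂ) +
            (((√X)⁻¹ * Real.log X : ℝ) : ℂ) * (Q i : ℂ) := by
        intro i hi
        have hu : |(i : ℝ) * X⁻¹| ≤ 1 / 2 := by
          rw [abs_of_nonneg (by positivity), ← div_eq_mul_inv, div_le_iff₀ hX1]
          have := hs i hi
          have := (hX y hy).1
          linarith
        have h4 := hff X _ h1 hu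
        have h5 : X * (1 + (i : ℝ) * X⁻¹) = X + i := by field_simp
        rw [h5] at h4
        have h6 : (((i : ℝ) * X⁻¹ : ℝ) : ℂ) = (i : ℂ) * (((√X)⁻¹ : ℝ) : ℂ) ^ 2 := by
          rw [← hsq]; push_cast; ring
        have h7 : ((1 / (CC * √X) : ℝ) : ℂ) = (((√X)⁻¹ : ℝ) : ℂ) / CC := by
          rw [← Complex.ofReal_div]; congr 1; field_simp
        rw [h6, h7] at h4
        have h8 : (((√X)⁻¹ : ℝ) : ℂ) * ((CC * √X : ℝ) : ℂ) = CC := by
          rw [← Complex.ofReal_mul]; congr 1; field_simp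
        rw [Complex.ofReal_mul (√X)⁻¹, Complex.ofReal_mul (Q i : ℝ), h4,
          Complex.ofReal_mul (√X)⁻¹]
        simp only [Complex.ofReal_intCast]
        linear_combination (-(Q i : ℂ) * sq (i * (((√X)⁻¹ : ℝ) : ℂ) ^ 2)) * h8
      rw [hΦ]
      simp only
      rw [Finset.sum_congr rfl h3, Finset.sum_add_distrib, ← Finset.mul_sum, h0', mul_zero,
        add_zero, Finset.mul_sum, Complex.ofReal_sum]
    have hA : ‖Φ (((√X)⁻¹ : ℝ) : ℂ)‖ / ‖(((√X)⁻¹ : ℝ) : ℂ)‖ ^ (2 * j) ≤ η * (2 * N) ^ j := by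
      rw [hval, Complex.norm_real, Real.norm_eq_abs, hωn, pow_mul, hsq, inv_pow, div_inv_eq_mul,
        abs_mul, abs_of_pos (inv_pos.mpr hsX)]
      refine mul_le_mul ?_ (pow_le_pow_left₀ hX1.le (hX y hy).2 j) (by positivity) hη
      exact (mul_le_of_le_one_left (abs_nonneg _) (inv_le_one_of_one_le₀ hsX1)).trans (happ y hy)
    have hP : ∏ y' ∈ (Finset.range J).erase y, ‖(((√(N + y' - 1 / 24))⁻¹ : ℝ) : ℂ)‖ /
        ‖(((√X)⁻¹ : ℝ) : ℂ) - (((√(N + y' - 1 / 24))⁻¹ : ℝ) : ℂ)‖ ≤ (4 * N) ^ J := by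
      calc _ ≤ ∏ _y' ∈ (Finset.range J).erase y, (4 * N) := by
            refine Finset.prod_le_prod (fun _ _ => by positivity) fun y' hy' => ?_
            obtain ⟨hne', hy''⟩ := Finset.mem_erase.mp hy'
            rw [hωn, ← Complex.ofReal_sub, Complex.norm_real, Real.norm_eq_abs]
            have h4 : (1 : ℝ) ≤ |(y : ℝ) - y'| := by
              have : (1 : ℤ) ≤ |(y : ℤ) - y'| :=
                Int.one_le_abs (sub_ne_zero.mpr (by exact_mod_cast hne'.symm))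
              exact_mod_cast this
            refine (ratio_keyB X (N + y' - 1 / 24) (2 * N) hX1 (by linarith [hX0 y'])
              (hX y hy).2 (hX y' hy'').2 ?_).trans (le_of_eq (by ring))
            rw [hXdef]
            convert h4 using 2
            ring
        _ = (4 * N) ^ ((Finset.range J).erase y).card := Finset.prod_const _
        _ ≤ _ := pow_le_pow_right₀ (by linarith)
            (Finset.card_erase_le.trans (Finset.card_range J).le)
    exact mul_le_mul hA hP (Finset.prod_nonneg fun _ _ => by positivity)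
      (mul_nonneg hη (pow_nonneg (by linarith) _))

end Pool.Agent.MP_9cfd17_nt

end

section

/-! Theorem B from the stub statements. -/

namespace Pool.Agent.MP_9cfd17_nt

open Filter Topology

theorem numB (c N B η : ℝ) (j J K : ℕ) (hN : 200 ≤ N) (hB : B ≤ 4 * N ^ 3)
    (hK : 2 * (K : ℝ) ≤ N) (hj1 : 1 ≤ j) (hjJ : j ≤ J) (hJN : (J : ℝ) ≤ N)
    (h1 : (6 + j) * Real.log N ≤ J * Real.log 2) (h2 : (7 + 4 * J) * Real.log N ≤ c * √N)
    (hη0 : 0 ≤ η) (hη : η ≤ B * Real.exp (-c * √N)) :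
    B * 9 * (2 * K) ^ j * (1 / 2) ^ J + J * (η * (2 * N) ^ j * (4 * N) ^ J) <
      1 / (2 * (j : ℝ) ^ 2) := by
  have hN0 : 0 < N := by linarith
  have hN1 : 1 ≤ N := by linarith
  have hj1' : (1 : ℝ) ≤ j := by exact_mod_cast hj1
  have hjN : (j : ℝ) ≤ N := le_trans (by exact_mod_cast hjJ) hJN
  have hpow : ∀ n : ℕ, N ^ n = Real.exp (n * Real.log N) := fun n => by
    rw [Real.exp_nat_mul, Real.exp_log hN0]
  have hA : N ^ (6 + j) * (1 / 2) ^ J ≤ 1 := by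
    rw [one_div, inv_pow, ← div_eq_mul_inv, div_le_one (by positivity), hpow,
      ← Real.exp_log (show (0 : ℝ) < 2 by norm_num), ← Real.exp_nat_mul]
    refine Real.exp_le_exp.mpr ?_
    push_cast
    exact h1
  have hC : N ^ (7 + 4 * J) * Real.exp (-c * √N) ≤ 1 := by
    rw [hpow, ← Real.exp_add]
    refine Real.exp_le_one_iff.mpr ?_
    push_cast
    linarith
  rw [lt_div_iff₀ (by positivity), add_mul]
  have h3 : B * 9 * (2 * K) ^ j * (1 / 2) ^ J * (2 * (j : ℝ) ^ 2) ≤ 72 / N := by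
    calc _ ≤ 4 * N ^ 3 * 9 * N ^ j * (1 / 2) ^ J * (2 * N ^ 2) := by gcongr
      _ = 72 / N * (N ^ (6 + j) * (1 / 2) ^ J) := by field_simp; ring
      _ ≤ _ := mul_le_of_le_one_right (by positivity) hA
  have h4 : J * (η * (2 * N) ^ j * (4 * N) ^ J) * (2 * (j : ℝ) ^ 2) ≤ 8 / N := by
    have h5 : 2 * N ≤ N ^ 2 := by nlinarith
    have h6 : 4 * N ≤ N ^ 2 := by nlinarith
    calc _ ≤ N * (4 * N ^ 3 * Real.exp (-c * √N) * (N ^ 2) ^ j * (N ^ 2) ^ J) * (2 * N ^ 2) := by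
          gcongr
          exact hη.trans (mul_le_mul_of_nonneg_right hB (Real.exp_pos _).le)
      _ = 8 / N * (N ^ (7 + 2 * j + 2 * J) * Real.exp (-c * √N)) := by field_simp; ring
      _ ≤ 8 / N * (N ^ (7 + 4 * J) * Real.exp (-c * √N)) :=
          mul_le_mul_of_nonneg_left (mul_le_mul_of_nonneg_right
            (pow_le_pow_right₀ hN1 (by omega)) (Real.exp_pos _).le) (by positivity)
      _ ≤ _ := mul_le_of_le_one_right (by positivity) hC
  have h7 : 72 / N + 8 / N < 1 := by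
    rw [← add_div, div_lt_one hN0]; linarith
  linarith

theorem paramB (δ N : ℝ) (hδ : 0 < δ) (hδ1 : δ ≤ 1 / 10) (hN : 200 ≤ N)
    (hl : 30000 / δ ^ 2 ≤ Real.log N) :
    ∃ K J : ℕ, 4 ≤ K ∧ 100 * (K : ℝ) ≤ N ∧ 2 * (J : ℝ) ≤ N ∧
      16 * √K * Real.log N ^ 2 ≤ J ∧
      (7 + 4 * J) * Real.log N ≤ 75 * δ * √N ∧
      δ / 136 * √N / Real.log N ^ 5 * J ≤ K / 4 := by
  have hN0 : 0 < N := by linarith
  set l := Real.log N with hldef
  have hδ2 : δ ^ 2 ≤ 1 / 100 := by nlinarith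
  have hl' : 30000 ≤ δ ^ 2 * l := by
    rw [div_le_iff₀ (by positivity)] at hl; linarith
  have hl0 : 0 < l := Real.log_pos (by linarith)
  have hl1 : 100 ≤ l := by nlinarith
  obtain ⟨w, hw0, hw⟩ : ∃ w : ℝ, 0 < w ∧ N = w ^ 2 :=
    ⟨√N, by positivity, (Real.sq_sqrt hN0.le).symm⟩
  have hsw : √N = w := by rw [hw, Real.sqrt_sq hw0.le]
  have hw2 : 14 ≤ w := by nlinarith
  set x : ℝ := δ * w / l ^ 3 with hx
  have hx0 : 0 < x := by positivity
  have hx5 : 5 ≤ x ^ 2 := by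
    have h1 := Real.pow_div_factorial_le_exp l hl0.le 7
    rw [hldef, Real.exp_log hN0, ← hldef] at h1
    have h2 : ((7 : ℕ).factorial : ℝ) = 5040 := by norm_num [Nat.factorial]
    rw [h2, div_le_iff₀ (by norm_num)] at h1
    rw [hx, div_pow, le_div_iff₀ (by positivity), mul_pow, ← hw]
    have h3 : 30000 * l ^ 6 ≤ δ ^ 2 * l * l ^ 6 := mul_le_mul_of_nonneg_right hl' (by positivity)
    have h4 : δ ^ 2 * l ^ 7 ≤ δ ^ 2 * (N * 5040) := mul_le_mul_of_nonneg_left h1 (by positivity)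
    have h5 : 0 < l ^ 6 := by positivity
    nlinarith
  set K := ⌊x ^ 2⌋₊ with hK
  have hK1 : (K : ℝ) ≤ x ^ 2 := Nat.floor_le (by positivity)
  have hK2 : x ^ 2 < K + 1 := Nat.lt_floor_add_one _
  have hK4 : (4 : ℝ) < K := by linarith
  obtain ⟨u, hu0, hu⟩ : ∃ u : ℝ, 0 < u ∧ (K : ℝ) = u ^ 2 :=
    ⟨√K, by positivity, (Real.sq_sqrt (by positivity)).symm⟩
  have hsu : √(K : ℝ) = u := by rw [hu, Real.sqrt_sq hu0.le]
  have hu2 : 2 ≤ u := by nlinarith
  have hux : u ≤ x := by nlinarith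
  have hxu : x ≤ 2 * u := by nlinarith
  have hl2 : 1 ≤ l ^ 2 := one_le_pow₀ (by linarith)
  set J := ⌊16 * u * l ^ 2⌋₊ + 1 with hJ
  have hJ1 : 16 * u * l ^ 2 ≤ J := by
    rw [hJ]; push_cast; exact (Nat.lt_floor_add_one _).le
  have hJ2 : (J : ℝ) ≤ 17 * u * l ^ 2 := by
    have := Nat.floor_le (show 0 ≤ 16 * u * l ^ 2 by positivity)
    rw [hJ]; push_cast; nlinarith
  have hul : u * l ^ 3 ≤ δ * w := by
    have := mul_le_mul_of_nonneg_right hux (show 0 ≤ l ^ 3 by positivity)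
    rwa [hx, div_mul_cancel₀ _ (by positivity)] at this
  have hl3 : 1 ≤ l ^ 3 := one_le_pow₀ (by linarith)
  refine ⟨K, J, ?_, ?_, ?_, by rw [hsu]; exact hJ1, ?_, ?_⟩
  · have : (4 : ℝ) ≤ K := hK4.le
    exact_mod_cast this
  · have h1 : u ≤ δ * w := le_trans (le_mul_of_one_le_right hu0.le hl3) hul
    have h2 : u ≤ w / 10 := by nlinarith
    rw [hu, hw]; nlinarith
  · have h1 : 100 * (u * l ^ 2) ≤ u * l ^ 3 := by
      have : 0 < u * l ^ 2 := by positivity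
      nlinarith
    have h2 : δ * w ≤ w / 10 := by nlinarith
    rw [hw]; nlinarith
  · rw [hsw]
    have h1 : 7 ≤ 7 * (u * l ^ 2) := by nlinarith
    calc (7 + 4 * (J : ℝ)) * l ≤ (75 * (u * l ^ 2)) * l :=
          mul_le_mul_of_nonneg_right (by linarith) hl0.le
      _ = 75 * (u * l ^ 3) := by ring
      _ ≤ _ := by linarith
  · rw [hsw]
    calc δ / 136 * w / l ^ 5 * J ≤ δ / 136 * w / l ^ 5 * (17 * u * l ^ 2) :=
          mul_le_mul_of_nonneg_left hJ2 (by positivity)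
      _ = x * u / 8 := by rw [hx]; field_simp; ring
      _ ≤ _ := by rw [hu]; nlinarith

theorem thmB (hA : AsymStmt) (hV : VanishStmt) (hS : SchwarzStmt) (hT : TaylorStmt)
    (hC : CoefStmt) (hL : LgStmt) (hG : SiegelStmt) :
    ∃ c : ℝ, 0 < c ∧ ∃ N0 : ℕ, ∀ N : ℕ, N0 ≤ N → ∃ P : Finset ℕ,
      c * √N / Real.log N ^ 5 ≤ P.card ∧
      ∀ p ∈ P, p.Prime ∧ ∃ m : ℕ, N ≤ m ∧ m ≤ 2 * N ∧ p ∣ FF m := by
  classical
  obtain ⟨c, κ, hc, m0, hm⟩ := hA
  set δ : ℝ := min (c / 75) (1 / 10) with hδ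
  have hδ0 : 0 < δ := lt_min (by positivity) (by norm_num)
  have hδc : δ ≤ c / 75 := min_le_left _ _
  have hδ1 : δ ≤ 1 / 10 := min_le_right _ _
  refine ⟨δ / 136, by positivity, ?_⟩
  have hlog : Tendsto (fun n : ℕ => Real.log n) atTop atTop :=
    Real.tendsto_log_atTop.comp tendsto_natCast_atTop_atTop
  have hev : ∀ᶠ n : ℕ in atTop, 30000 / δ ^ 2 ≤ Real.log n ∧ 1 ≤ Real.log n ∧
      m0 ≤ n ∧ 200 ≤ n :=
    (hlog.eventually_ge_atTop _).and ((hlog.eventually_ge_atTop _).and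
      ((eventually_ge_atTop _).and (eventually_ge_atTop _)))
  obtain ⟨n0, hn0⟩ := eventually_atTop.mp hev
  refine ⟨n0, fun N hn => ?_⟩
  obtain ⟨hl, hl1, hnm, hn1⟩ := hn0 N hn
  refine ⟨(Finset.Icc N (2 * N)).biUnion (fun m => (FF m).primeFactors), ?_, ?_⟩
  swap
  · intro p hp
    obtain ⟨k, hk, hp'⟩ := Finset.mem_biUnion.mp hp
    exact ⟨Nat.prime_of_mem_primeFactors hp', k, (Finset.mem_Icc.mp hk).1,
      (Finset.mem_Icc.mp hk).2, Nat.dvd_of_mem_primeFactors hp'⟩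
  set P := (Finset.Icc N (2 * N)).biUnion (fun m => (FF m).primeFactors) with hP
  by_contra hlt
  rw [not_le] at hlt
  have hN : (200 : ℝ) ≤ N := by exact_mod_cast hn1
  obtain ⟨K, J, hK4, hKN, hJN, hJ1, hJ2, hKJ⟩ := paramB δ N hδ0 hδ1 hN hl
  have hK4' : (4 : ℝ) ≤ K := by exact_mod_cast hK4
  have hnode : ∀ i ∈ Finset.range K, ∀ y ∈ Finset.range J, N + y + i ≤ 2 * N := by
    intro i hi y hy
    have h1 : 100 * K ≤ N := by exact_mod_cast hKN
    have h2 : 2 * J ≤ N := by exact_mod_cast hJN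
    have := Finset.mem_range.mp hi
    have := Finset.mem_range.mp hy
    omega
  obtain ⟨Q, hQ, hB, h0, hrel⟩ := hG ℕ ℕ (Finset.range K) (Finset.range J) P
    (fun i y => FF (N + y + i)) (2 * N) (by linarith)
    (by
      intro i hi y hy
      obtain ⟨h1, h2, -⟩ := hm (N + y + i) (by omega)
      have h3 := hnode i hi y hy
      refine ⟨h1, h2.trans (by exact_mod_cast h3), fun q hq hqd => ?_⟩
      exact Finset.mem_biUnion.mpr ⟨_, Finset.mem_Icc.mpr ⟨by omega, h3⟩,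
        Nat.mem_primeFactors.mpr ⟨hq, hqd, h1.ne'⟩⟩)
    (by
      rw [Finset.card_range, Finset.card_range]
      have h1 := mul_le_mul_of_nonneg_right hlt.le (Nat.cast_nonneg (α := ℝ) J)
      have h3 : 2 * ((P.card : ℝ) * J + 1) ≤ K := by linarith
      exact_mod_cast h3)
  rw [Finset.card_range] at hB
  set B : ℝ := 2 * (2 * N) * (K : ℝ) ^ 2 with hBdef
  have hB3 : B ≤ 4 * (N : ℝ) ^ 3 := by
    calc B ≤ 2 * (2 * N) * (N : ℝ) ^ 2 :=
          mul_le_mul_of_nonneg_left (pow_le_pow_left₀ (Nat.cast_nonneg _) (by linarith) 2)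
            (by linarith)
      _ = _ := by ring
  have hB0 : 0 < B := by rw [hBdef]; positivity
  have hη0 : 0 ≤ B * Real.exp (-c * √N) := mul_nonneg hB0.le (Real.exp_pos _).le
  obtain ⟨j, hj1, hj, hfin⟩ := keyB hV hS hT hC hL K J Q B N (B * Real.exp (-c * √N))
    (by omega) (by linarith) (by linarith) hQ hB h0 hη0
    (by
      intro y hy
      have h1 := approx_core (Finset.range K) Q B κ (Real.exp (-c * √N)) (fun i => N + y + i)
        (Real.exp_pos _).le hB h0 (hrel y hy) (by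
          intro i hi
          refine (hm _ (by omega)).2.2.trans (Real.exp_le_exp.mpr ?_)
          have h2 : √(N : ℝ) ≤ √((N + y + i : ℕ) : ℝ) :=
            Real.sqrt_le_sqrt (by exact_mod_cast (by omega : N ≤ N + y + i))
          nlinarith)
      refine le_trans (le_of_eq ?_) h1
      congr 1
      refine Finset.sum_congr rfl fun p hp => ?_
      congr 2
      push_cast
      ring)
  set l := Real.log N with hldef
  have hlogB : Real.log (2 * B) ≤ 4 * l := by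
    have h1 : 2 * B ≤ (N : ℝ) ^ 4 := by
      calc 2 * B ≤ 8 * (N : ℝ) ^ 3 := by linarith
        _ ≤ N * (N : ℝ) ^ 3 := mul_le_mul_of_nonneg_right (by linarith) (by positivity)
        _ = _ := by ring
    have := Real.log_le_log (by linarith) h1
    rw [Real.log_pow] at this
    exact_mod_cast this
  have hsK : 2 ≤ √(K : ℝ) := Real.le_sqrt_of_sq_le (by linarith)
  have hj5 : (j : ℝ) ≤ 5 * (√K * l) := by
    have := mul_le_mul_of_nonneg_left hlogB (Real.sqrt_nonneg K)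
    nlinarith
  have hKl : 2 ≤ √(K : ℝ) * l := by nlinarith
  have hKl2 : √(K : ℝ) * l ≤ √(K : ℝ) * l ^ 2 := by nlinarith
  have hsN : 0 ≤ √(N : ℝ) := Real.sqrt_nonneg _
  have hnum := numB c N B (B * Real.exp (-c * √N)) j J K hN hB3 (by linarith) hj1
    (by
      have : (j : ℝ) ≤ J := by linarith
      exact_mod_cast this) (by linarith)
    (by
      have h1 := Real.log_two_gt_d9
      have h2 : (6 + (j : ℝ)) * l ≤ (8 * (√K * l)) * l :=
        mul_le_mul_of_nonneg_right (by linarith) (by linarith)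
      have h3 : (J : ℝ) * (1 / 2) ≤ J * Real.log 2 :=
        mul_le_mul_of_nonneg_left (by linarith) (Nat.cast_nonneg _)
      rw [← hldef]
      nlinarith)
    (by
      rw [← hldef]
      nlinarith) hη0 le_rfl
  linarith

end Pool.Agent.MP_9cfd17_nt

end
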